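import Pool.Agent.Lib.MP_8860fd_co.Defs

-- part Pool.Agent.Lib.MP_8860fd_co.Basic
section

/-! Hypergraph matroids and a rank description of uniformity. -/

namespace Pool.Agent.Lib.MP_8860fd_co

open Set

variable {n : ℕ}

/-- a set of corank at least `k` and nullity at least `l` -/
def Wit (M : Matroid (Fin n)) (r k l : ℕ) : Prop :=
  ∃ X : Set (Fin n), ∀ I ⊆ X, M.Indep I → I.ncard + k ≤ r ∧ I.ncard + l ≤ X.ncard

theorem not_unif_iff {M : Matroid (Fin n)} (hE : M.E = univ) {r : ℕ}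
    (hr : ∀ B, M.IsBase B → B.ncard = r) (k l : ℕ) : ¬ KLUniform k l M ↔ Wit M r k l := by
  unfold KLUniform
  rw [not_not]
  constructor
  · rintro ⟨Con, Del, C, L, hCL, rfl, rfl, hg, hI⟩
    obtain ⟨I, hb⟩ := M.exists_isBasis Con (by rw [hE]; exact subset_univ _)
    simp only [Matroid.delete_indep_iff, hb.contract_indep_iff] at hI
    rw [Matroid.delete_ground, Matroid.contract_ground, hE] at hg
    have hm : ∀ e ∈ C ∪ L, e ∉ Con ∧ e ∉ Del := fun e he => by
      rw [← hg] at he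
      exact ⟨he.1.2, he.2⟩
    have hIL : Disjoint I L := Set.disjoint_left.2 fun e he hl => (hm e (Or.inr hl)).1 (hb.subset he)
    have hIC : Disjoint C I := Set.disjoint_left.2 fun e hc he => (hm e (Or.inl hc)).1 (hb.subset he)
    have hbas : M.IsBasis I (I ∪ L) := by
      refine hb.indep.isBasis_of_forall_insert subset_union_left fun e he => ?_
      have heL : e ∈ L := he.1.resolve_left he.2
      rw [← Matroid.not_indep_iff (by rw [hE]; exact subset_univ _)]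
      intro hi
      have := (hI {e}).1 ⟨⟨by simpa using hi, by simpa using (hm e (Or.inr heL)).1⟩,
        by simpa using (hm e (Or.inr heL)).2⟩
      exact Set.disjoint_left.1 hCL (this rfl) heL
    refine ⟨I ∪ L, fun J hJ hJi => ?_⟩
    have h1 : J.ncard ≤ I.ncard := by
      obtain ⟨J', hJ', hJJ⟩ := hJi.subset_isBasis_of_subset hJ (by rw [hE]; exact subset_univ _)
      have h2 : J'.ncard = I.ncard := by
        rw [Set.ncard, Set.ncard, hJ'.encard_eq_encard hbas]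
      exact h2 ▸ Set.ncard_le_ncard hJJ
    obtain ⟨B, hB, hsub⟩ := ((hI C).2 subset_rfl).1.1.exists_isBase_superset
    have h3 := Set.ncard_le_ncard hsub
    rw [Set.ncard_union_eq hIC, hr B hB] at h3
    rw [Set.ncard_union_eq hIL]
    omega
  · rintro ⟨X, hX⟩
    obtain ⟨I, hb⟩ := M.exists_isBasis X (by rw [hE]; exact subset_univ _)
    obtain ⟨B, hB, hsub⟩ := hb.indep.exists_isBase_superset
    obtain ⟨h1, h2⟩ := hX I hb.subset hb.indep
    obtain ⟨C, hC, hCk⟩ := Set.exists_subset_card_eq (s := B \ I) (n := k)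
      (by rw [Set.ncard_sdiff hsub, hr B hB]; omega)
    obtain ⟨L, hL, hLl⟩ := Set.exists_subset_card_eq (s := X \ I) (n := l)
      (by rw [Set.ncard_sdiff hb.subset]; omega)
    have hd : ∀ e ∈ L, ¬ M.Indep (insert e I) := fun e he => (hb.insert_dep (hL he)).not_indep
    refine ⟨I, (C ∪ L ∪ I)ᶜ, C, L, Set.disjoint_left.2 fun e hc hl => hd e hl
      (hB.indep.subset (insert_subset (hC hc).1 hsub)), hCk, hLl, ?_, fun J => ?_⟩
    · rw [Matroid.delete_ground, Matroid.contract_ground, hE]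
      ext e
      have := @hC e
      have := @hL e
      simp only [mem_sdiff, mem_univ, mem_compl_iff, mem_union] at *
      tauto
    · rw [Matroid.delete_indep_iff, hb.indep.contract_indep_iff, disjoint_compl_right_iff_subset]
      constructor
      · rintro ⟨⟨h3, h4⟩, h5⟩ e he
        rcases h5 he with (h | h) | h
        · exact h
        · exact absurd (h4.subset (insert_subset (Or.inl he) subset_union_right)) (hd e h)
        · exact absurd h (Set.disjoint_left.1 h3 he)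
      · intro h
        exact ⟨⟨Set.disjoint_left.2 fun e he => (hC (h he)).2,
          hB.indep.subset (union_subset (fun e he => (hC (h he)).1) hsub)⟩,
          fun e he => Or.inl (Or.inl (h he))⟩

/-- independence for a hypergraph -/
def Ind (r : ℕ) (𝓗 : Set (Set (Fin n) × ℕ)) (I : Set (Fin n)) : Prop :=
  I.ncard ≤ r ∧ ∀ p ∈ 𝓗, (I ∩ p.1).ncard ≤ p.2

/-- first hypergraph condition -/
def H1 (r : ℕ) (𝓗 : Set (Set (Fin n) × ℕ)) : Prop :=
  ∀ p ∈ 𝓗, ∀ q ∈ 𝓗, p ≠ q → (p.1 ∩ q.1).ncard + r ≤ p.2 + q.2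

/-- second hypergraph condition -/
def H2 (r : ℕ) (𝓗 : Set (Set (Fin n) × ℕ)) : Prop := ∀ p ∈ 𝓗, r ≤ p.1ᶜ.ncard + p.2

variable {r : ℕ} {𝓗 : Set (Set (Fin n) × ℕ)}

theorem Ind.subset {I J : Set (Fin n)} (h : Ind r 𝓗 J) (hIJ : I ⊆ J) : Ind r 𝓗 I :=
  ⟨(ncard_le_ncard hIJ).trans h.1, fun p hp =>
    (ncard_le_ncard (inter_subset_inter_left _ hIJ)).trans (h.2 p hp)⟩

theorem two_cut (I A B : Set (Fin n)) :
    (I ∩ A).ncard + (I ∩ B).ncard ≤ I.ncard + (A ∩ B).ncard := by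
  have h1 := Set.ncard_union_add_ncard_inter (I ∩ A) (I ∩ B)
  have h2 : ((I ∩ A) ∪ (I ∩ B)).ncard ≤ I.ncard :=
    ncard_le_ncard (union_subset inter_subset_left inter_subset_left)
  have h3 : ((I ∩ A) ∩ (I ∩ B)).ncard ≤ (A ∩ B).ncard :=
    ncard_le_ncard fun e he => ⟨he.1.2, he.2.2⟩
  omega

theorem tight (h1 : H1 r 𝓗) {I X : Set (Fin n)} (hI : Ind r 𝓗 I) (hlt : I.ncard < r)
    (hne : (X \ I).Nonempty) (hX : ∀ e ∈ X \ I, ¬ Ind r 𝓗 (insert e I)) :
    ∃ p ∈ 𝓗, X \ I ⊆ p.1 ∧ (I ∩ p.1).ncard = p.2 := by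
  have key : ∀ e ∈ X \ I, ∃ p ∈ 𝓗, e ∈ p.1 ∧ (I ∩ p.1).ncard = p.2 := by
    intro e he
    by_contra hcon
    push Not at hcon
    refine hX e he ⟨by rw [ncard_insert_of_notMem he.2]; omega, fun p hp => ?_⟩
    by_cases hep : e ∈ p.1
    · rw [insert_inter_of_mem hep]
      have := ncard_insert_le e (I ∩ p.1)
      have := hI.2 p hp
      have := hcon p hp hep
      omega
    · rw [insert_inter_of_notMem hep]; exact hI.2 p hp
  obtain ⟨e, he⟩ := hne
  obtain ⟨p, hp, -, ht⟩ := key e he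
  refine ⟨p, hp, fun f hf => ?_, ht⟩
  obtain ⟨q, hq, hfq, ht'⟩ := key f hf
  by_cases hpq : p = q
  · exact hpq ▸ hfq
  · have := h1 p hp q hq hpq
    have := two_cut I p.1 q.1
    omega

/-- the matroid of a hypergraph -/
noncomputable def mk (r : ℕ) (𝓗 : Set (Set (Fin n) × ℕ)) (h1 : H1 r 𝓗) : Matroid (Fin n) :=
  (IndepMatroid.ofFinite (toFinite (univ : Set (Fin n))) (Ind r 𝓗) ⟨by simp, by simp⟩
    (fun _ _ h hIJ => h.subset hIJ)
    (fun I J hI hJ hlt => by
      by_contra hcon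
      push Not at hcon
      have hne : (J \ I).Nonempty := by
        rw [sdiff_nonempty]
        intro h
        have := ncard_le_ncard h
        omega
      obtain ⟨p, hp, hs, ht⟩ := tight h1 hI (hlt.trans_le hJ.1) hne fun e he => hcon e he.1 he.2
      have a1 := hJ.2 p hp
      have a2 := two_cut (J ∪ (I ∩ p.1)) J (I ∩ p.1)
      have a3 : J ⊆ (J ∩ p.1) ∪ (I \ p.1) := fun e he => by
        by_cases h : e ∈ p.1
        · exact Or.inl ⟨he, h⟩
        · exact Or.inr ⟨by_contra fun h' => h (hs ⟨he, h'⟩), h⟩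
      have a4 := (ncard_le_ncard a3).trans (ncard_union_le _ _)
      have a5 := Set.ncard_inter_add_ncard_sdiff_eq_ncard I p.1
      omega)
    (fun _ _ => subset_univ _)).matroid

theorem mk_E (h1 : H1 r 𝓗) : (mk r 𝓗 h1).E = univ := rfl

theorem mk_indep (h1 : H1 r 𝓗) (I : Set (Fin n)) : (mk r 𝓗 h1).Indep I ↔ Ind r 𝓗 I := by
  simp [mk]

theorem base_card {M : Matroid (Fin n)} (hE : M.E = univ) (hr : r ≤ n) (h1 : H1 r 𝓗)
    (h2 : H2 r 𝓗) (hM : ∀ I, M.Indep I ↔ Ind r 𝓗 I) (B : Set (Fin n)) (hB : M.IsBase B) :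
    B.ncard = r := by
  have hI := (hM B).1 hB.indep
  refine le_antisymm hI.1 (not_lt.1 fun hlt => ?_)
  have hne : (univ \ B).Nonempty := by
    rw [sdiff_nonempty]
    intro h
    have := ncard_le_ncard h
    simp at this
    omega
  obtain ⟨p, hp, hs, ht⟩ := tight h1 hI hlt hne fun e he h =>
    (hB.insert_dep (hE ▸ he)).not_indep ((hM _).2 h)
  have a1 := h2 p hp
  have a2 : p.1ᶜ ⊆ B \ p.1 := fun e he => ⟨by_contra fun h => he (hs ⟨trivial, h⟩), he⟩
  have a3 := ncard_le_ncard a2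
  have a5 := Set.ncard_inter_add_ncard_sdiff_eq_ncard B p.1
  omega

theorem wit_edge {M : Matroid (Fin n)} (hE : M.E = univ) (h1 : H1 r 𝓗)
    (hM : ∀ I, M.Indep I ↔ Ind r 𝓗 I) {k l : ℕ} (hk : 0 < k) (hl : 0 < l) (hw : Wit M r k l) :
    ∃ p ∈ 𝓗, p.2 + k ≤ r ∧ p.2 + l ≤ p.1.ncard := by
  obtain ⟨X, hX⟩ := hw
  obtain ⟨I, hb⟩ := M.exists_isBasis X (by rw [hE]; exact subset_univ _)
  obtain ⟨a1, a2⟩ := hX I hb.subset hb.indep
  have a3 := Set.ncard_sdiff hb.subset
  have hne : (X \ I).Nonempty := by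
    rw [← Set.ncard_pos]; omega
  obtain ⟨p, hp, hs, ht⟩ := tight h1 ((hM I).1 hb.indep) (by omega) hne fun e he h =>
    (hb.insert_dep he).not_indep ((hM _).2 h)
  have a4 : (I ∩ p.1).ncard ≤ I.ncard := ncard_le_ncard inter_subset_left
  have a5 : ((I ∩ p.1) ∪ (X \ I)).ncard ≤ p.1.ncard :=
    ncard_le_ncard (union_subset inter_subset_right hs)
  rw [ncard_union_eq (Set.disjoint_left.2 fun e he he' => he'.2 he.1)] at a5
  exact ⟨p, hp, by omega, by omega⟩

/-- adding circuit-hyperplanes -/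
def addH (r : ℕ) (𝓗 : Set (Set (Fin n) × ℕ)) (T : Set (Set (Fin n))) : Set (Set (Fin n) × ℕ) :=
  𝓗 ∪ (fun Y => (Y, r - 1)) '' T

variable {T : Set (Set (Fin n))}

theorem ind_addH (hr : 0 < r) (hT : ∀ Y ∈ T, Y.ncard = r) (I : Set (Fin n)) :
    Ind r (addH r 𝓗 T) I ↔ Ind r 𝓗 I ∧ I ∉ T := by
  constructor
  · intro h
    refine ⟨⟨h.1, fun p hp => h.2 p (Or.inl hp)⟩, fun hI => ?_⟩
    have := h.2 _ (Or.inr ⟨I, hI, rfl⟩)
    simp only [inter_self, hT I hI] at this
    omega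
  · rintro ⟨h, hI⟩
    refine ⟨h.1, ?_⟩
    rintro p (hp | ⟨Y, hY, rfl⟩)
    · exact h.2 p hp
    · by_contra hlt
      simp only at hlt
      have a1 : I ∩ Y = I := eq_of_subset_of_ncard_le inter_subset_left (by have := h.1; omega)
      have a2 : I ∩ Y = Y := eq_of_subset_of_ncard_le inter_subset_right
        (by have := hT Y hY; omega)
      exact hI (a1.symm.trans a2 ▸ hY)

theorem H1_addH (hr : 0 < r) (h1 : H1 r 𝓗)
    (hT : ∀ Y ∈ T, ∀ Z ∈ T, Y ≠ Z → (Y ∩ Z).ncard + 2 ≤ r)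
    (hT' : ∀ Y ∈ T, ∀ q ∈ 𝓗, (Y ∩ q.1).ncard + 1 ≤ q.2) : H1 r (addH r 𝓗 T) := by
  rintro p (hp | ⟨Y, hY, rfl⟩) q (hq | ⟨Z, hZ, rfl⟩) hpq
  · exact h1 p hp q hq hpq
  · have := hT' Z hZ p hp
    rw [inter_comm] at this
    simp only
    omega
  · have := hT' Y hY q hq
    simp only
    omega
  · have := hT Y hY Z hZ fun h => hpq (by rw [h])
    simp only
    omega

theorem H2_addH (hr : r < n) (h2 : H2 r 𝓗) (hT : ∀ Y ∈ T, Y.ncard = r) :
    H2 r (addH r 𝓗 T) := by
  rintro p (hp | ⟨Y, hY, rfl⟩)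
  · exact h2 p hp
  · have := Set.ncard_add_ncard_compl Y
    have := hT Y hY
    simp only [Nat.card_eq_fintype_card, Fintype.card_fin] at *
    omega

end Pool.Agent.Lib.MP_8860fd_co
end

-- part Pool.Agent.Lib.MP_8860fd_co.Switch
section

/-! The switching: relax a large stressed flat and add a matching of circuit-hyperplanes. -/

namespace Pool.Agent.Lib.MP_8860fd_co

open Set

variable {n : ℕ}

theorem emb {β : Type} [Fintype β] (U : Set (Fin n)) (h : Fintype.card β ≤ U.ncard) :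
    ∃ f : β → Fin n, Function.Injective f ∧ ∀ i, f i ∈ U := by
  classical
  have : Fintype.card β ≤ Fintype.card U := by
    rwa [← Nat.card_eq_fintype_card (α := U), Nat.card_coe_set_eq]
  obtain ⟨f⟩ := Function.Embedding.nonempty_of_card_le this
  exact ⟨fun i => f i, fun i j hij => f.injective (Subtype.ext hij), fun i => (f i).2⟩

theorem between (H : Set (Fin n)) {s w : ℕ} (hs : s ≤ H.ncard) (hsw : s ≤ w) (hw : w ≤ n) :
    ∃ W : Set (Fin n), W.ncard = w ∧ s ≤ (W ∩ H).ncard := by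
  obtain ⟨A, hA, hAs⟩ := Set.exists_subset_card_eq hs
  obtain ⟨W, h1, -, h2⟩ := Set.exists_subsuperset_card_eq (subset_univ A) (n := w)
    (by omega) (by simpa using hw)
  exact ⟨W, h2, hAs ▸ ncard_le_ncard (subset_inter h1 hA)⟩

/-- a grid of sets in the cusp -/
def Grid (r t : ℕ) (H : Set (Fin n)) (ρ : ℕ) (X : Fin t → Fin t → Set (Fin n)) : Prop :=
  (∀ i j, (X i j).ncard = r ∧ ρ + 1 ≤ (X i j ∩ H).ncard) ∧
  (∀ i j i' j', i ≠ i' → j ≠ j' → (X i j ∩ X i' j').ncard + 2 ≤ r) ∧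
  ∀ i j i' j', X i j = X i' j' → i = i' ∧ j = j'

theorem grid_of {r t ρ : ℕ} {H W : Set (Fin n)} {a b : Fin t → Fin n} (ha : a.Injective)
    (hb : b.Injective) (hab : ∀ i j, a i ≠ b j)
    (h : ∀ i j, (symmDiff W {a i, b j}).ncard = r ∧ ρ + 1 ≤ (symmDiff W {a i, b j} ∩ H).ncard) :
    Grid r t H ρ fun i j => symmDiff W {a i, b j} := by
  refine ⟨h, fun i j i' j' hi hj => ?_, fun i j i' j' he => ?_⟩
  · set X := symmDiff W {a i, b j} with hX
    set Y := symmDiff W {a i', b j'} with hY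
    have a1 := Set.ncard_inter_add_ncard_sdiff_eq_ncard X Y
    have a2 := Set.ncard_inter_add_ncard_sdiff_eq_ncard Y X
    rw [inter_comm] at a2
    have a3 : ({a i, b j, a i'} : Set (Fin n)) ⊆ (X \ Y) ∪ (Y \ X) := by
      have := ha.ne hi
      have := hb.ne hj
      have := hab i j
      have := hab i' j
      have := hab i j'
      have := hab i' j'
      intro e he
      simp only [hX, hY, mem_union, mem_sdiff, mem_symmDiff, mem_insert_iff, mem_singleton_iff]
        at he ⊢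
      rcases he with rfl | rfl | rfl <;> grind
    have a4 := (ncard_le_ncard a3).trans (ncard_union_le _ _)
    have a5 : ({a i, b j, a i'} : Set (Fin n)).ncard = 3 :=
      Set.ncard_eq_three.2 ⟨_, _, _, hab i j, ha.ne hi, (hab i' j).symm, rfl⟩
    have := (h i j).1
    have := (h i' j').1
    simp only [← hX, ← hY] at *
    omega
  · have h1 : ({a i, b j} : Set (Fin n)) = {a i', b j'} := symmDiff_right_injective W he
    have h2 : a i ∈ ({a i', b j'} : Set (Fin n)) := h1 ▸ Or.inl rfl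
    have h3 : b j ∈ ({a i', b j'} : Set (Fin n)) := h1 ▸ Or.inr rfl
    exact ⟨ha (h2.resolve_right (hab _ _)), hb (h3.resolve_left (hab _ _).symm)⟩

theorem exists_grid {r t ρ k l : ℕ} {H : Set (Fin n)} (hk : 0 < k) (hl : 0 < l) (hkl : 4 ≤ k + l)
    (h1 : ρ + k ≤ r) (h2 : ρ + l ≤ H.ncard) (ht : 2 * t ≤ r) (ht' : 2 * t + r ≤ n)
    (hr : r + 2 ≤ n) : ∃ X, Grid r t H ρ X := by
  have hc : ∀ W : Set (Fin n), W.ncard + Wᶜ.ncard = n := fun W => by
    simpa using Set.ncard_add_ncard_compl W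
  by_cases c1 : 3 ≤ k
  · obtain ⟨W, hW, hs⟩ := between H (s := ρ + 1) (w := r - 2) (by omega) (by omega) (by omega)
    obtain ⟨f, hf, hU⟩ := emb (β := Fin t ⊕ Fin t) Wᶜ (by have := hc W; simp; omega)
    refine ⟨_, grid_of (W := W) (a := fun i => f (Sum.inl i)) (b := fun i => f (Sum.inr i))
      (hf.comp Sum.inl_injective) (hf.comp Sum.inr_injective) (fun i j => hf.ne (by simp))
      fun i j => ?_⟩
    have e1 : symmDiff W {f (Sum.inl i), f (Sum.inr j)} = W ∪ {f (Sum.inl i), f (Sum.inr j)} := by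
      have := hU (Sum.inl i)
      have := hU (Sum.inr j)
      ext e
      simp only [mem_union, mem_symmDiff, mem_insert_iff, mem_singleton_iff, mem_compl_iff] at *
      grind
    rw [e1, ncard_union_eq (Set.disjoint_left.2 (by
      rintro e he (rfl | rfl) <;> exact hU _ he)), ncard_pair (hf.ne (by simp))]
    exact ⟨by omega, hs.trans (ncard_le_ncard (inter_subset_inter_left _ subset_union_left))⟩
  by_cases c2 : 3 ≤ l
  · obtain ⟨W, hW, hs⟩ := between H (s := ρ + 3) (w := r + 2) (by omega) (by omega) hr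
    obtain ⟨f, hf, hU⟩ := emb (β := Fin t ⊕ Fin t) W (by simp; omega)
    refine ⟨_, grid_of (W := W) (a := fun i => f (Sum.inl i)) (b := fun i => f (Sum.inr i))
      (hf.comp Sum.inl_injective) (hf.comp Sum.inr_injective) (fun i j => hf.ne (by simp))
      fun i j => ?_⟩
    have e1 : symmDiff W {f (Sum.inl i), f (Sum.inr j)} = W \ {f (Sum.inl i), f (Sum.inr j)} := by
      have := hU (Sum.inl i)
      have := hU (Sum.inr j)
      ext e
      simp only [mem_sdiff, mem_symmDiff, mem_insert_iff, mem_singleton_iff] at *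
      grind
    have e2 : ({f (Sum.inl i), f (Sum.inr j)} : Set (Fin n)).ncard = 2 :=
      ncard_pair (hf.ne (by simp))
    have e3 : W ∩ H ⊆ (W \ {f (Sum.inl i), f (Sum.inr j)}) ∩ H ∪ {f (Sum.inl i), f (Sum.inr j)} :=
      fun e he => by
        by_cases h : e ∈ ({f (Sum.inl i), f (Sum.inr j)} : Set (Fin n))
        · exact Or.inr h
        · exact Or.inl ⟨⟨he.1, h⟩, he.2⟩
    have e4 := (ncard_le_ncard e3).trans (ncard_union_le _ _)
    rw [e1, ncard_sdiff (by rintro e (rfl | rfl) <;> exact hU _)]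
    omega
  · obtain ⟨W, hW, hs⟩ := between H (s := ρ + 2) (w := r) (by omega) (by omega) (by omega)
    obtain ⟨f, hf, hU⟩ := emb (β := Fin t) W (by simp; omega)
    obtain ⟨g, hg, hV⟩ := emb (β := Fin t) Wᶜ (by have := hc W; simp; omega)
    refine ⟨_, grid_of (W := W) hf hg (fun i j h => hV j (h ▸ hU i)) fun i j => ?_⟩
    have e1 : symmDiff W {f i, g j} = insert (g j) (W \ {f i}) := by
      have := hU i
      have := hV j
      ext e
      simp only [mem_sdiff, mem_symmDiff, mem_insert_iff, mem_singleton_iff, mem_compl_iff] at *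
      grind
    have e3 : W ∩ H ⊆ insert (f i) (insert (g j) (W \ {f i}) ∩ H) := fun e he => by
      by_cases h : e = f i
      · exact Or.inl h
      · exact Or.inr ⟨Or.inr ⟨he.1, h⟩, he.2⟩
    have e4 := (ncard_le_ncard e3).trans (ncard_insert_le _ _)
    have e5 : 0 < W.ncard := (Set.ncard_pos).2 ⟨_, hU i⟩
    rw [e1, ncard_insert_of_notMem (fun h => hV j h.1), ncard_sdiff_singleton_of_mem (hU i)]
    omega

/-- the class of split `(K, L)`-uniform matroids -/
def Cl (n K L : ℕ) : Set (Matroid (Fin n)) := {M | M.E = univ ∧ ElemSplit M ∧ KLUniform K L M}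

theorem switch {K L k l t : ℕ} (hk : 0 < k) (hl : 0 < l) (hkl : 4 ≤ k + l) {M : Matroid (Fin n)}
    (hM : M ∈ Cl n K L) (hbad : ¬ KLUniform k l M) {B : Set (Fin n)} (hB : M.IsBase B)
    (ht : 2 * t ≤ B.ncard) (ht' : 2 * t + B.ncard ≤ n) (hr : B.ncard + 2 ≤ n) :
    ∃ (H : Set (Fin n)) (ρ : Fin (n + 1)) (f : Equiv.Perm (Fin t) → Cl n K L), f.Injective ∧
      ∀ σ I, M.Indep I ↔ (f σ).1.Indep I ∧ (I ∩ H).ncard ≤ ρ := by
  obtain ⟨hE, ⟨r, 𝓗, hrn, h1, h2, hI⟩, hU⟩ := hM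
  have hbc := base_card hE hrn h1 h2 hI
  rw [hbc B hB] at ht ht' hr
  obtain ⟨p, hp, a1, a2⟩ := wit_edge hE h1 hI hk hl ((not_unif_iff hE hbc k l).1 hbad)
  obtain ⟨X, g1, g2, g3⟩ := exists_grid hk hl hkl a1 a2 ht ht' hr
  have hr0 : 0 < r := by omega
  let T : Equiv.Perm (Fin t) → Set (Set (Fin n)) := fun σ => range fun i => X i (σ i)
  have hT : ∀ σ, ∀ Y ∈ T σ, Y.ncard = r := by
    rintro σ _ ⟨i, rfl⟩; exact (g1 _ _).1
  have hfar : ∀ i j, ∀ q ∈ 𝓗 \ {p}, (X i j ∩ q.1).ncard + 1 ≤ q.2 := fun i j q hq => by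
    have := h1 p hp q hq.1 (fun h => hq.2 h.symm)
    have := two_cut (X i j) p.1 q.1
    have := g1 i j
    omega
  have b1 : ∀ σ, H1 r (addH r (𝓗 \ {p}) (T σ)) := fun σ =>
    H1_addH hr0 (fun p hp q hq => h1 p hp.1 q hq.1)
      (by
        rintro _ ⟨i, rfl⟩ _ ⟨j, rfl⟩ hne
        have hij : i ≠ j := fun h => hne (by rw [h])
        exact g2 _ _ _ _ hij (σ.injective.ne hij))
      (by rintro _ ⟨i, rfl⟩; exact hfar _ _)
  have b2 : ∀ σ, H2 r (addH r (𝓗 \ {p}) (T σ)) := fun σ =>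
    H2_addH (by omega) (fun p hp => h2 p hp.1) (hT σ)
  have b3 : ∀ σ I, M.Indep I ↔ (mk r _ (b1 σ)).Indep I ∧ (I ∩ p.1).ncard ≤ p.2 := fun σ I => by
    rw [mk_indep, ind_addH hr0 (hT σ), hI]
    constructor
    · intro h
      refine ⟨⟨⟨h.1, fun q hq => h.2 q hq.1⟩, ?_⟩, h.2 p hp⟩
      rintro ⟨i, rfl⟩
      have := h.2 p hp
      have := (g1 i (σ i)).2
      simp only at *
      omega
    · rintro ⟨⟨h, -⟩, h'⟩
      refine ⟨h.1, fun q hq => ?_⟩
      by_cases hqp : q = p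
      · exact hqp ▸ h'
      · exact h.2 q ⟨hq, hqp⟩
  have b4 : ∀ σ, mk r _ (b1 σ) ∈ Cl n K L := fun σ => by
    refine ⟨rfl, ⟨r, _, hrn, b1 σ, b2 σ, mk_indep _⟩, by_contra fun hc => ?_⟩
    obtain ⟨Z, hZ⟩ := (not_unif_iff (mk_E _)
      (base_card (mk_E _) hrn (b1 σ) (b2 σ) (mk_indep _)) K L).1 hc
    exact (not_unif_iff hE hbc K L).2 ⟨Z, fun I hI hi => hZ I hI ((b3 σ I).1 hi).1⟩ hU
  refine ⟨p.1, ⟨p.2, by omega⟩, fun σ => ⟨_, b4 σ⟩, fun σ τ h => ?_, b3⟩
  have h' : mk r _ (b1 σ) = mk r _ (b1 τ) := congrArg Subtype.val h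
  ext i
  have c1 : ¬ (mk r _ (b1 σ)).Indep (X i (σ i)) := by
    rw [mk_indep, ind_addH hr0 (hT σ)]
    exact fun h => h.2 ⟨i, rfl⟩
  rw [h', mk_indep, ind_addH hr0 (hT τ), not_and, not_not] at c1
  obtain ⟨j, hj⟩ := c1 ⟨(g1 _ _).1.le, fun q hq => by have := hfar i (σ i) q hq; omega⟩
  obtain ⟨rfl, h3⟩ := g3 _ _ _ _ hj
  rw [h3]

end Pool.Agent.Lib.MP_8860fd_co
end

-- part Pool.Agent.Lib.MP_8860fd_co.Count
section

/-! Counting. -/

namespace Pool.Agent.Lib.MP_8860fd_co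

open Set Filter

variable {n : ℕ}

theorem finite_matroid (n : ℕ) : Finite (Matroid (Fin n)) :=
  Finite.of_injective (fun M : Matroid (Fin n) => (M.E, {I | M.Indep I})) fun _ _ h =>
    Matroid.ext_indep (congrArg Prod.fst h) fun I _ => Set.ext_iff.1 (congrArg Prod.snd h) I

/-- sets of extreme size -/
def Ext (n : ℕ) : Set (Set (Fin n)) := {X | 4 * X.ncard ≤ n ∨ 3 * n ≤ 4 * X.ncard}

theorem count_ext : {M : Matroid (Fin n) | M.E = univ ∧ ∀ B, M.IsBase B → B ∈ Ext n}.ncard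
    ≤ 2 ^ (Ext n).ncard := by
  rw [← Set.ncard_powerset _ (toFinite _)]
  refine Set.ncard_le_ncard_of_injOn (fun M => {B | M.IsBase B}) (fun M hM B hB => hM.2 B hB)
    (fun M hM N hN h => Matroid.ext_isBase (hM.1.trans hN.1.symm) fun B _ => Set.ext_iff.1 h B)

theorem count_mid {K L k l : ℕ} (hk : 0 < k) (hl : 0 < l) (hkl : 4 ≤ k + l) (hn : 8 ≤ n) :
    {M | M ∈ Cl n K L ∧ ¬ KLUniform k l M ∧ ∃ B, M.IsBase B ∧ B ∉ Ext n}.ncard * (n / 8).factorial
      ≤ (Cl n K L).ncard * (2 ^ n * (n + 1)) := by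
  have := finite_matroid n
  set S := {M | M ∈ Cl n K L ∧ ¬ KLUniform k l M ∧ ∃ B, M.IsBase B ∧ B ∉ Ext n} with hS
  have key : ∀ M : S, ∃ (H : Set (Fin n)) (ρ : Fin (n + 1))
      (f : Equiv.Perm (Fin (n / 8)) → Cl n K L), f.Injective ∧
      ∀ σ I, M.1.Indep I ↔ (f σ).1.Indep I ∧ (I ∩ H).ncard ≤ ρ := by
    rintro ⟨M, hM, hb, B, hB, hx⟩
    simp only [Ext, mem_ofPred_eq, not_or, not_le] at hx
    exact switch hk hl hkl hM hb hB (by omega) (by omega) (by omega)
  choose H ρ f hf hI using key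
  have hinj : Function.Injective fun x : S × Equiv.Perm (Fin (n / 8)) =>
      (f x.1 x.2, H x.1, ρ x.1) := by
    rintro ⟨M, σ⟩ ⟨N, τ⟩ h
    simp only [Prod.mk.injEq] at h
    obtain rfl : M = N := Subtype.ext (Matroid.ext_indep (M.2.1.1.trans N.2.1.1.symm) fun I _ => by
      rw [hI M σ, hI N τ, h.1, h.2.1, h.2.2])
    rw [hf M h.1]
  have := Nat.card_le_card_of_injective _ hinj
  simpa [Nat.card_prod, Fintype.card_perm, Nat.card_coe_set_eq, Nat.card_eq_fintype_card (α := Set _)]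
    using this

theorem lower {K L : ℕ} (hK : 0 < K) (hL : 0 < L) (hKL : (K, L) ≠ (1, 1)) (hn : 2 ≤ n) :
    ∃ g : ℕ, 2 ^ n ≤ (n + 1) * (n * g) ∧ 2 ^ g ≤ (Cl n K L).ncard := by
  classical
  have := finite_matroid n
  have : NeZero n := ⟨by omega⟩
  set r := n / 2 with hr
  have hr0 : 0 < r := by omega
  obtain ⟨a, -, ha⟩ := Finset.exists_max_image (Finset.univ : Finset (Fin n))
    (fun a => ((Finset.univ.powersetCard r).filter fun X : Finset (Fin n) => ∑ x ∈ X, x = a).card)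
    Finset.univ_nonempty
  set A := (Finset.univ.powersetCard r).filter fun X : Finset (Fin n) => ∑ x ∈ X, x = a with hA
  have h1 : n.choose r ≤ n * A.card := by
    have := Finset.card_eq_sum_card_fiberwise (f := fun X : Finset (Fin n) => ∑ x ∈ X, x)
      (s := Finset.univ.powersetCard r) (t := Finset.univ) (fun _ _ => Finset.mem_univ _)
    rw [Finset.card_powersetCard, Finset.card_univ, Fintype.card_fin] at this
    rw [this]
    simpa using Finset.sum_le_card_nsmul _ _ _ ha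
  have h2 : 2 ^ n ≤ (n + 1) * n.choose r := by
    rw [← Nat.sum_range_choose]
    simpa using Finset.sum_le_card_nsmul (Finset.range (n + 1)) (fun i => n.choose i) _
      fun i _ => Nat.choose_le_middle i n
  refine ⟨A.card, h2.trans (Nat.mul_le_mul_left _ h1), ?_⟩
  let A' : Set (Set (Fin n)) := (fun X : Finset (Fin n) => (X : Set (Fin n))) '' A
  have c0 : A'.ncard = A.card := by
    rw [Set.ncard_image_of_injective _ Finset.coe_injective, ncard_coe_finset]
  have c1 : ∀ Y ∈ A', Y.ncard = r := by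
    rintro _ ⟨X, hX, rfl⟩
    simp only [hA, Finset.coe_filter, Finset.mem_powersetCard, mem_ofPred_eq] at hX
    simpa using hX.1.2
  have c2 : ∀ Y ∈ A', ∀ Z ∈ A', Y ≠ Z → (Y ∩ Z).ncard + 2 ≤ r := by
    rintro _ ⟨X, hX, rfl⟩ _ ⟨Y, hY, rfl⟩ hne
    simp only [hA, Finset.coe_filter, Finset.mem_powersetCard, mem_ofPred_eq] at hX hY
    simp only [← Finset.coe_inter, ncard_coe_finset]
    by_contra hc
    have d1 := Finset.card_sdiff_add_card_inter X Y
    have d2 := Finset.card_sdiff_add_card_inter Y X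
    rw [Finset.inter_comm] at d2
    have d3 : (X \ Y).card ≠ 0 := fun h => hne (by
      rw [Finset.card_eq_zero, Finset.sdiff_eq_empty_iff_subset] at h
      rw [Finset.eq_of_subset_of_card_le h (by omega)])
    obtain ⟨x, hx⟩ := Finset.card_eq_one.1 (show (X \ Y).card = 1 by omega)
    obtain ⟨y, hy⟩ := Finset.card_eq_one.1 (show (Y \ X).card = 1 by omega)
    have d4 := Finset.sum_sdiff_eq_sub (f := fun x : Fin n => x) (Finset.inter_subset_left (s₁ := X) (s₂ := Y))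
    have d5 := Finset.sum_sdiff_eq_sub (f := fun x : Fin n => x) (Finset.inter_subset_left (s₁ := Y) (s₂ := X))
    rw [Finset.sdiff_inter_self_left, hx, Finset.sum_singleton, hX.2] at d4
    rw [Finset.sdiff_inter_self_left, hy, Finset.sum_singleton, hY.2, Finset.inter_comm, ← d4] at d5
    have d6 : x ∈ X \ Y := hx ▸ Finset.mem_singleton_self x
    have d7 : y ∈ Y \ X := hy ▸ Finset.mem_singleton_self y
    exact (Finset.mem_sdiff.1 d6).2 (d5 ▸ (Finset.mem_sdiff.1 d7).1)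
  have b1 : ∀ T : 𝒫 A', H1 r (addH r ∅ T.1) := fun T =>
    H1_addH hr0 (fun _ h => h.elim) (fun Y hY Z hZ => c2 Y (T.2 hY) Z (T.2 hZ)) fun _ _ _ h => h.elim
  have b2 : ∀ T : 𝒫 A', H2 r (addH r ∅ T.1) := fun T =>
    H2_addH (by omega) (fun _ h => h.elim) fun Y hY => c1 Y (T.2 hY)
  have b4 : ∀ T : 𝒫 A', mk r _ (b1 T) ∈ Cl n K L := fun T => by
    refine ⟨rfl, ⟨r, _, by omega, b1 T, b2 T, mk_indep _⟩, by_contra fun hc => ?_⟩
    obtain ⟨p, hp, a1, a2⟩ := wit_edge (mk_E _) (b1 T) (mk_indep _) hK hL ((not_unif_iff (mk_E _)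
      (base_card (mk_E _) (by omega) (b1 T) (b2 T) (mk_indep _)) K L).1 hc)
    rcases hp with hp | ⟨Y, hY, rfl⟩
    · exact hp
    · have := c1 Y (T.2 hY)
      simp only at a1 a2
      exact hKL (Prod.ext (by simp only; omega) (by simp only; omega))
  have b5 : ∀ T : 𝒫 A', ∀ Y ∈ A', Y ∈ T.1 ↔ ¬ (mk r _ (b1 T)).Indep Y := fun T Y hY => by
    rw [mk_indep, ind_addH hr0 fun Y hY => c1 Y (T.2 hY), not_and, not_not]
    exact ⟨fun h _ => h, fun h => h ⟨(c1 Y hY).le, fun _ h => h.elim⟩⟩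
  have hinj : Function.Injective fun T : 𝒫 A' => (⟨_, b4 T⟩ : Cl n K L) := fun T U h => by
    have h' : mk r _ (b1 T) = mk r _ (b1 U) := congrArg Subtype.val h
    ext Y
    exact ⟨fun hY => (b5 U Y (T.2 hY)).2 (h' ▸ (b5 T Y (T.2 hY)).1 hY),
      fun hY => (b5 T Y (U.2 hY)).2 (h' ▸ (b5 U Y (U.2 hY)).1 hY)⟩
  have := Nat.card_le_card_of_injective _ hinj
  rwa [Nat.card_coe_set_eq, Nat.card_coe_set_eq, Set.ncard_powerset _ (toFinite _), c0] at this

theorem ext_card : ((Ext n).ncard : ℝ) ≤ 2 * (16 / 9) ^ n := by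
  classical
  have hpow : ∀ m : ℕ, 3 * n ≤ 4 * m → (9 / 4 : ℝ) ^ n ≤ 3 ^ m := fun m hm => by
    refine le_of_pow_le_pow_left₀ (n := 4) (by norm_num) (by positivity) ?_
    calc ((9 / 4 : ℝ) ^ n) ^ 4 = ((9 / 4) ^ 4) ^ n := by rw [← pow_mul, ← pow_mul, mul_comm]
      _ ≤ (3 ^ 3) ^ n := pow_le_pow_left₀ (by positivity) (by norm_num) _
      _ = 3 ^ (3 * n) := by rw [← pow_mul]
      _ ≤ 3 ^ (m * 4) := pow_le_pow_right₀ (by norm_num) (by omega)
      _ = _ := by rw [pow_mul]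
  let A : Finset (Finset (Fin n)) := Finset.univ.filter fun X => 4 * X.card ≤ n ∨ 3 * n ≤ 4 * X.card
  have h0 : (Ext n).ncard = A.card := by
    rw [← ncard_coe_finset, ← Set.ncard_image_of_injective _ Finset.coe_injective]
    congr 1
    ext X
    lift X to Finset (Fin n) using toFinite X
    simp [Ext, A]
  have h1 := Fin.sum_pow_mul_eq_add_pow (n := n) (1 : ℝ) 3
  have h2 := Fin.sum_pow_mul_eq_add_pow (n := n) (3 : ℝ) 1
  have h3 : (A.card : ℝ) * (9 / 4) ^ n ≤
      ∑ s : Finset (Fin n), ((1 : ℝ) ^ s.card * 3 ^ (n - s.card) + 3 ^ s.card * 1 ^ (n - s.card)) := by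
    refine le_trans ?_ (Finset.sum_le_sum_of_subset_of_nonneg (Finset.subset_univ A)
      fun _ _ _ => by positivity)
    rw [← nsmul_eq_mul]
    refine Finset.card_nsmul_le_sum _ _ _ fun X hX => ?_
    simp only [one_pow, one_mul, mul_one]
    rcases (Finset.mem_filter.1 hX).2 with h | h
    · exact (hpow _ (by omega)).trans (le_add_of_nonneg_right (by positivity))
    · exact (hpow _ h).trans (le_add_of_nonneg_left (by positivity))
  rw [Finset.sum_add_distrib, h1, h2] at h3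
  rw [h0]
  have h4 : (0 : ℝ) < (9 / 4) ^ n := by positivity
  refine le_of_mul_le_mul_right (h3.trans (le_of_eq ?_)) h4
  rw [mul_assoc, ← mul_pow]
  norm_num
  ring

theorem ev_poly : ∀ᶠ n : ℕ in atTop, ((n : ℝ) + 1) * (n * (2 * (16 / 9) ^ n + n)) ≤ 2 ^ n := by
  have h := tendsto_pow_const_div_const_pow_of_one_lt 3 (r := 9 / 8) (by norm_num)
  filter_upwards [h.eventually (gt_mem_nhds (show (0 : ℝ) < 1 / 6 by norm_num)),
    eventually_ge_atTop 1] with n h1 h2
  have h3 : (1 : ℝ) ≤ n := by exact_mod_cast h2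
  have h4 : (1 : ℝ) ≤ (16 / 9) ^ n := one_le_pow₀ (by norm_num)
  rw [div_lt_iff₀ (by positivity)] at h1
  have h5 : (2 : ℝ) ^ n = (9 / 8) ^ n * (16 / 9) ^ n := by rw [← mul_pow]; norm_num
  calc ((n : ℝ) + 1) * (n * (2 * (16 / 9) ^ n + n))
      ≤ (2 * n) * (n * (2 * n * (16 / 9) ^ n + n * (16 / 9) ^ n)) := by
        gcongr
        · linarith
        · linarith
        · nlinarith
    _ = 6 * n ^ 3 * (16 / 9) ^ n := by ring
    _ ≤ _ := by rw [h5]; gcongr; linarith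

theorem tend_fact : Tendsto (fun n : ℕ => (2 ^ n * (n + 1) : ℝ) / (n / 8).factorial) atTop (nhds 0) := by
  have h1 : Tendsto (fun n : ℕ => n / 8) atTop atTop := Nat.tendsto_div_const_atTop (by norm_num)
  have h2 := ((FloorSemiring.tendsto_pow_div_factorial_atTop ((4 : ℝ) ^ 8)).comp h1).const_mul (4 ^ 7)
  rw [mul_zero] at h2
  refine squeeze_zero (fun n => by positivity) (fun n => ?_) h2
  simp only [Function.comp, ← mul_div_assoc]
  refine div_le_div_of_nonneg_right ?_ (by positivity)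
  have h3 : (n + 1 : ℝ) ≤ 2 ^ n := by exact_mod_cast Nat.lt_two_pow_self (n := n)
  calc (2 ^ n * (n + 1) : ℝ) ≤ 2 ^ n * 2 ^ n := by gcongr
    _ = 4 ^ n := by rw [← mul_pow]; norm_num
    _ ≤ 4 ^ (7 + 8 * (n / 8)) := pow_le_pow_right₀ (by norm_num) (by omega)
    _ = _ := by rw [pow_add, pow_mul]

theorem main {K L k l : ℕ} (hK : 0 < K) (hL : 0 < L) (hKL : (K, L) ≠ (1, 1)) (hk : 0 < k)
    (hl : 0 < l) (hkl : 4 ≤ k + l) :
    Tendsto (fun n : ℕ => (({M | M ∈ Cl n K L ∧ KLUniform k l M}.ncard : ℝ) / (Cl n K L).ncard))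
      atTop (nhds 1) := by
  have h0 : Tendsto (fun n : ℕ => 1 - ((1 / 2 : ℝ) ^ n + (2 ^ n * (n + 1) : ℝ) / (n / 8).factorial))
      atTop (nhds (1 - (0 + 0))) :=
    tendsto_const_nhds.sub ((tendsto_pow_atTop_nhds_zero_of_lt_one (by norm_num) (by norm_num)).add
      tend_fact)
  rw [add_zero, sub_zero] at h0
  refine tendsto_of_tendsto_of_tendsto_of_le_of_le' h0 tendsto_const_nhds ?_ ?_
  · filter_upwards [ev_poly, eventually_ge_atTop 8] with n h1 hn
    have := finite_matroid n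
    obtain ⟨g, g1, g2⟩ := lower (n := n) hK hL hKL (by omega)
    have a1 := count_ext (n := n)
    have a2 := count_mid (K := K) (L := L) hk hl hkl hn
    have a3 := ext_card (n := n)
    have hn0 : (0 : ℝ) < n := by exact_mod_cast (by omega : 0 < n)
    have a4 : (Ext n).ncard + n ≤ g := by
      have b1 : (2 : ℝ) ^ n ≤ (n + 1) * (n * g) := by exact_mod_cast g1
      have b2 := le_of_mul_le_mul_left (le_of_mul_le_mul_left (h1.trans b1) (by positivity)) hn0
      have b3 : ((Ext n).ncard : ℝ) + n ≤ g := by linarith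
      exact_mod_cast b3
    have a5 : Cl n K L ⊆ ({M | M ∈ Cl n K L ∧ KLUniform k l M} ∪
        {M : Matroid (Fin n) | M.E = univ ∧ ∀ B, M.IsBase B → B ∈ Ext n}) ∪
        {M | M ∈ Cl n K L ∧ ¬ KLUniform k l M ∧ ∃ B, M.IsBase B ∧ B ∉ Ext n} := fun M hM => by
      by_cases c1 : KLUniform k l M
      · exact Or.inl (Or.inl ⟨hM, c1⟩)
      by_cases c2 : ∀ B, M.IsBase B → B ∈ Ext n
      · exact Or.inl (Or.inr ⟨hM.1, c2⟩)
      · push Not at c2
        exact Or.inr ⟨hM, c1, c2⟩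
    have a6 := (ncard_le_ncard a5).trans ((ncard_union_le _ _).trans
      (Nat.add_le_add_right (ncard_union_le _ _) _))
    generalize {M | M ∈ Cl n K L ∧ KLUniform k l M}.ncard = G at *
    generalize {M : Matroid (Fin n) | M.E = univ ∧ ∀ B, M.IsBase B → B ∈ Ext n}.ncard = X at *
    generalize {M | M ∈ Cl n K L ∧ ¬ KLUniform k l M ∧ ∃ B, M.IsBase B ∧ B ∉ Ext n}.ncard = Y at *
    generalize (Cl n K L).ncard = D at *
    have a7 : X * 2 ^ n ≤ D := (Nat.mul_le_mul_right _ a1).trans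
      (by rw [← pow_add]; exact (Nat.pow_le_pow_right (by norm_num) a4).trans g2)
    have hD : (0 : ℝ) < D := by exact_mod_cast lt_of_lt_of_le (by positivity) g2
    have c1 : (X : ℝ) ≤ (1 / 2) ^ n * D := by
      rw [one_div, inv_pow, inv_mul_eq_div, le_div_iff₀ (by positivity)]
      exact_mod_cast a7
    have c2 : (Y : ℝ) ≤ (2 ^ n * (n + 1) : ℝ) / (n / 8).factorial * D := by
      rw [div_mul_eq_mul_div, le_div_iff₀ (by positivity), mul_comm _ (D : ℝ)]
      exact_mod_cast a2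
    have c3 : (D : ℝ) ≤ G + X + Y := by exact_mod_cast a6
    rw [le_div_iff₀ hD]
    linarith
  · refine Eventually.of_forall fun n => div_le_one_of_le₀ ?_ (by positivity)
    have := finite_matroid n
    exact_mod_cast ncard_le_ncard (sep_subset _ _)

end Pool.Agent.Lib.MP_8860fd_co
end
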