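import Mathlib

/-! Definitions used in the statement. -/

namespace Pool.Agent.Lib.MP_8860fd_co

/-- `M` has no minor consisting of `k` coloops and `l` loops. -/
def KLUniform {n : ℕ} (k l : ℕ) (M : Matroid (Fin n)) : Prop :=
  ¬ ∃ Con Del C L : Set (Fin n), Disjoint C L ∧ C.ncard = k ∧ L.ncard = l ∧
    ((M.contract Con).delete Del).E = C ∪ L ∧
    ∀ I : Set (Fin n), ((M.contract Con).delete Del).Indep I ↔ I ⊆ C

/-- Elementary split matroids, by their hypergraph description. -/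
def ElemSplit {n : ℕ} (M : Matroid (Fin n)) : Prop :=
  ∃ (r : ℕ) (𝓗 : Set (Set (Fin n) × ℕ)), r ≤ n ∧
    (∀ p ∈ 𝓗, ∀ q ∈ 𝓗, p ≠ q → (p.1 ∩ q.1).ncard + r ≤ p.2 + q.2) ∧
    (∀ p ∈ 𝓗, r ≤ p.1ᶜ.ncard + p.2) ∧
    ∀ I : Set (Fin n), M.Indep I ↔ I.ncard ≤ r ∧ ∀ p ∈ 𝓗, (I ∩ p.1).ncard ≤ p.2

end Pool.Agent.Lib.MP_8860fd_co
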