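import Pool.Agent.Lib.MP_8860fd_co.JPay

-- part Pool.Agent.Lib.MP_8860fd_co.JSel
section

/-! Greedy selection of stable systems of representatives, and the stuck lines. -/

namespace Pool.Agent.Lib.MP_8860fd_co.J

open Finset

variable {n κ : ℕ} {ρ : Root n} {U T : Finset (Finset (Fin n))}
  {A B t x y z : Finset (Fin n)} {a b c d u : Fin n}

open Classical in
/-- stable systems of representatives -/
noncomputable def Sel {ι : Type*} (I : Finset ι) (cand : ι → Finset (Finset (Fin n))) :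
    Finset (Finset (Finset (Fin n))) :=
  univ.filter fun T => Stab T ∧ (∀ t ∈ T, ∃ i ∈ I, t ∈ cand i) ∧ (∀ i ∈ I, ∃ t ∈ T, t ∈ cand i) ∧
    T.card ≤ I.card

theorem mem_Sel {ι : Type*} {I : Finset ι} {cand : ι → Finset (Finset (Fin n))} :
    T ∈ Sel I cand ↔ Stab T ∧ (∀ t ∈ T, ∃ i ∈ I, t ∈ cand i) ∧ (∀ i ∈ I, ∃ t ∈ T, t ∈ cand i) ∧
    T.card ≤ I.card := by simp [Sel]

theorem sel {ι : Type*} (I : Finset ι) (cand : ι → Finset (Finset (Fin n)))
    (w : Finset (Fin n) → ℝ) (hw : ∀ t, 0 ≤ w t) (γ : ι → ℝ) (hγ : ∀ i, 0 ≤ γ i)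
    (hd : ∀ i ∈ I, ∀ j ∈ I, ∀ t ∈ cand i, t ∈ cand j → i = j)
    (hb : ∀ i ∈ I, ∀ J ⊆ I, i ∉ J → ∀ T ∈ Sel J cand,
      γ i ≤ ∑ t ∈ (cand i).filter (fun t => ∀ u ∈ T, 2 < ds t u), w t) :
    ∏ i ∈ I, γ i ≤ ∑ T ∈ Sel I cand, ∏ t ∈ T, w t := by
  classical
  refine Finset.induction_on' (motive := fun J => ∏ i ∈ J, γ i ≤ ∑ T ∈ Sel J cand, ∏ t ∈ T, w t)
    I ?_ fun {i J} hi hJ hiJ ih => ?_
  · have h0 : (∅ : Finset (Finset (Fin n))) ∈ Sel (∅ : Finset ι) cand :=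
      mem_Sel.2 ⟨fun _ h => by simp at h, by simp, by simp, by simp⟩
    simpa using single_le_sum (f := fun T : Finset (Finset (Fin n)) => ∏ t ∈ T, w t)
      (fun T _ => prod_nonneg fun t _ => hw t) h0
  have hn : ∀ T ∈ Sel J cand, ∀ t ∈ cand i, t ∉ T := fun T hT t ht h => by
    obtain ⟨j, hj, h1⟩ := (mem_Sel.1 hT).2.1 t h
    exact hiJ (hd i hi j (hJ hj) t ht h1 ▸ hj)
  set S := (Sel J cand).sigma fun T => (cand i).filter fun t => ∀ u ∈ T, 2 < ds t u with hS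
  have h1 : Set.InjOn (fun p : (Σ _ : Finset (Finset (Fin n)), Finset (Fin n)) => insert p.2 p.1)
      S := by
    rintro ⟨T, t⟩ hp ⟨T', t'⟩ hp' e
    simp only [hS, coe_sigma, Set.mem_sigma_iff, mem_coe, mem_filter] at hp hp' e
    have e1 : t = t' := by
      have : t ∈ insert t' T' := e ▸ mem_insert_self _ _
      exact (mem_insert.1 this).resolve_right (hn T' hp'.1 t hp.2.1)
    subst e1
    rw [← erase_insert (hn T hp.1 t hp.2.1), e, erase_insert (hn T' hp'.1 t hp.2.1)]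
  calc ∏ j ∈ insert i J, γ j = γ i * ∏ j ∈ J, γ j := prod_insert hiJ
    _ ≤ γ i * ∑ T ∈ Sel J cand, ∏ t ∈ T, w t := mul_le_mul_of_nonneg_left ih (hγ i)
    _ ≤ ∑ T ∈ Sel J cand, ∑ t ∈ (cand i).filter (fun t => ∀ u ∈ T, 2 < ds t u),
        ∏ u ∈ insert t T, w u := by
      rw [mul_sum]
      refine sum_le_sum fun T hT => ?_
      refine (mul_le_mul_of_nonneg_right (hb i hi J hJ hiJ T hT)
        (prod_nonneg fun t _ => hw t)).trans (le_of_eq ?_)
      rw [sum_mul]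
      exact sum_congr rfl fun t ht => (prod_insert (hn T hT t (mem_filter.1 ht).1)).symm
    _ = ∑ T ∈ S.image fun p => insert p.2 p.1, ∏ u ∈ T, w u := by
      rw [sum_image h1, sum_sigma']
    _ ≤ _ := by
      refine sum_le_sum_of_subset_of_nonneg (fun T hT => ?_) fun T _ _ => prod_nonneg fun t _ => hw t
      obtain ⟨⟨T, t⟩, hp, rfl⟩ := mem_image.1 hT
      simp only [hS, mem_sigma, mem_filter] at hp
      obtain ⟨a1, a2, a3, a4⟩ := mem_Sel.1 hp.1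
      refine mem_Sel.2 ⟨fun x hx y hy hxy => ?_, fun x hx => ?_, fun j hj => ?_, ?_⟩
      · rcases mem_insert.1 hx with e | hx <;> rcases mem_insert.1 hy with e' | hy
        · rw [e, e']
        · exact absurd (by rwa [e] at hxy) (not_le.2 (hp.2.2 y hy))
        · exact absurd (by rwa [e', ds_comm] at hxy) (not_le.2 (hp.2.2 x hx))
        · exact a1 x hx y hy hxy
      · rcases mem_insert.1 hx with rfl | hx
        · exact ⟨i, mem_insert_self _ _, hp.2.1⟩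
        · obtain ⟨j, hj, h⟩ := a2 x hx
          exact ⟨j, mem_insert_of_mem hj, h⟩
      · rcases mem_insert.1 hj with rfl | hj
        · exact ⟨t, mem_insert_self _ _, hp.2.1⟩
        · obtain ⟨x, hx, h⟩ := a3 j hj
          exact ⟨x, mem_insert_of_mem hx, h⟩
      · rw [card_insert_of_notMem hiJ]
        exact (card_insert_le _ _).trans (Nat.succ_le_succ a4)

/-- families of stuck lines whose good points are far apart -/
def Sep (ρ : Root n) (S : Finset (Finset (Fin n))) : Prop :=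
  ∀ A ∈ S, ∀ A' ∈ S, ∀ z ∈ obj ρ.r A, ρ.good z → ∀ z' ∈ obj ρ.r A', ρ.good z' → ds z' z ≤ 2 → A = A'

theorem exists_sep (κ : ℕ) (ρ : Root n) (U : Finset (Finset (Fin n))) :
    ∃ S : Finset (Finset (Fin n)), (∀ A ∈ S, Stuck κ ρ U A) ∧ Sep ρ S ∧ ∀ A, Stuck κ ρ U A →
      ∃ z ∈ obj ρ.r A, ρ.good z ∧ ∃ A' ∈ S, ∃ z' ∈ obj ρ.r A', ρ.good z' ∧ ds z' z ≤ 2 := by
  classical
  obtain ⟨S, hS, hmax⟩ := exists_max_image
    (univ.filter fun S : Finset (Finset (Fin n)) => (∀ A ∈ S, Stuck κ ρ U A) ∧ Sep ρ S) card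
    ⟨∅, mem_filter.2 ⟨mem_univ _, fun _ h => by simp at h, fun _ h => by simp at h⟩⟩
  obtain ⟨h1, h2⟩ := (mem_filter.1 hS).2
  refine ⟨S, h1, h2, fun A hA => ?_⟩
  by_cases h3 : A ∈ S
  · obtain ⟨z, z1, z2⟩ := hA.2.2.2.1
    exact ⟨z, z1, z2, A, h3, z, z1, z2, by simp⟩
  by_contra hcon
  push Not at hcon
  have := hmax (insert A S) (mem_filter.2 ⟨mem_univ _, fun B hB => ?_,
    fun B hB B' hB' z z1 z2 z' z3 z4 hd => ?_⟩)
  · rw [card_insert_of_notMem h3] at this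
    omega
  · rcases mem_insert.1 hB with rfl | hB
    · exact hA
    · exact h1 B hB
  · rcases mem_insert.1 hB with e | hB <;> rcases mem_insert.1 hB' with e' | hB'
    · rw [e, e']
    · exact absurd hd (not_le.2 (hcon z (e ▸ z1) z2 B' hB' z' z3 z4))
    · exact absurd (ds_comm z' z ▸ hd) (not_le.2 (hcon z' (e' ▸ z3) z4 B hB z z1 z2))
    · exact h2 B hB B' hB' z z1 z2 z' z3 z4 hd

theorem Stuck.low (hA : Stuck κ ρ U A) (hz : z ∈ obj ρ.r A) (hg : ρ.good z)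
    (hc : FL ρ U (fl z c)) : c ∈ ρ.G ∧ Low κ ρ U (fl z c) ∧ ∀ d, ρ.good (fl (fl z c) d) := by
  have h1 := hA.2.2.2.2 z hz hg
  have h2 : ∀ d, ρ.good (fl (fl z c) d) := fun d => by_contra fun h =>
    h1 (Or.inr ⟨c, hc, Or.inr ⟨d, h⟩⟩)
  refine ⟨by_contra fun h => ?_, by_contra fun h => h1 (Or.inr ⟨c, hc, Or.inl h⟩), h2⟩
  obtain ⟨a, rfl⟩ := line_pt hA.1 hz
  have := h2 a
  rw [fl_comm, good_fl h, fl_fl] at this
  exact hA.2.1 this

/-- at most one good full direction -/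
def Lt (ρ : Root n) (U : Finset (Finset (Fin n))) (t : Finset (Fin n)) : Prop :=
  ∀ a b, FL ρ U (fl t a) → FL ρ U (fl t b) → a = b

theorem Stuck.lt (h : Ax κ ρ U) (hA : Stuck κ ρ U A) (hz : z ∈ obj ρ.r A) (hg : ρ.good z) :
    Lt ρ U z := by
  intro a b ha hb
  by_contra hne
  have hr := (mem_obj.1 hz).1
  have h1 := (hA.low hz hg ha).2.2
  have h2 := (hA.low hz hg hb).2.2
  by_cases hs : a ∈ z ↔ b ∈ z
  · exact hA.2.2.2.2 z hz hg (Or.inl (h.two hr hg hne hs ha.2.2 hb.2.2 (h1 b) (self_mem_obj hr a)))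
  obtain ⟨d, hd⟩ := line_pt hA.1 hz
  have h3 : ¬ ρ.good (fl z d) := by rw [hd, fl_fl]; exact hA.2.1
  by_cases hs' : d ∈ z ↔ a ∈ z
  · exact h.T5 z hr hg d a (fun e => h3 (e ▸ ha.2.1)) hs' h3 (fl_comm z a d ▸ h1 d)
  · exact h.T5 z hr hg d b (fun e => h3 (e ▸ hb.2.1)) (by tauto) h3 (fl_comm z b d ▸ h2 d)

theorem pl_dir (hu : u ∈ pl ρ U A) (hc : FL ρ U (fl (fl A u) c)) : c = u :=
  by_contra fun h => (mem_pl.1 hu).2 c h hc.2.1 hc.2.2

theorem Ax.nb (h : Ax κ ρ U) (hA : FL ρ U A) (hu : u ∈ pl ρ U A) (hz : z ∈ U) (hg : ρ.good z)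
    (hd : ds (fl A u) z ≤ 2) : z ∈ obj ρ.r A ∨ ∃ d b, ¬ ρ.good (fl A d) ∧ b ∈ ρ.G ∧
      z = fl (fl (fl A d) b) u ∧ FL ρ U (fl z u) := by
  obtain ⟨⟨c1, c2⟩, c3⟩ := mem_pl.1 hu
  by_cases e : z = fl A u
  · exact Or.inl (e ▸ fl_mem_obj c1)
  obtain ⟨d, b, -, rfl, h1⟩ := h.join (hA.2.2 (fl_mem_obj c1)) hz hd e
  have hr := h.pt _ hz
  by_cases hb : ρ.good (fl (fl A u) d)
  · obtain rfl := pl_dir hu ⟨ln_fl c1 d, hb, h1⟩
    rw [fl_fl] at hr ⊢
    exact Or.inl (fl_mem_obj hr)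
  · refine Or.inr ⟨d, b, by rwa [fl_comm, good_fl c2] at hb, mem_G' hb hg,
      by rw [fl_comm _ u d, fl_comm _ u b], ln_fl hr u, (good_fl c2).2 hg, ?_⟩
    exact h.pre.par h c1 ((good_fl c2).2 hA.2.1) c2 (by simpa using hA.2.2) hb hr hg

/-- no good full direction -/
def Bare (ρ : Root n) (U : Finset (Finset (Fin n))) (z : Finset (Fin n)) : Prop :=
  ∀ c, ¬ FL ρ U (fl z c)

theorem Stuck.seed (h : Ax κ ρ U) (hA : Stuck κ ρ U A)
    (hb : ¬ ∀ z ∈ obj ρ.r A, ρ.good z → Bare ρ U z) : ∃ z B, z ∈ obj ρ.r A ∧ ρ.good z ∧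
      z ∉ obj ρ.r B ∧ Low κ ρ U B ∧ ∃ z' ∈ obj ρ.r A, ρ.good z' ∧ z' ∈ obj ρ.r B := by
  classical
  unfold Bare at hb
  push Not at hb
  obtain ⟨z', z1, z2, c, hc⟩ := hb
  have hr := (mem_obj.1 z1).1
  obtain ⟨d, hd⟩ := line_pt hA.1 z1
  have e : A = fl z' d := by rw [hd, fl_fl]
  have h1 := h.T3 z' hr z2 d (e ▸ hA.2.1)
  rw [← e] at h1
  have h2 := two_lines hA.1 hc.1 fun e' => hA.2.1 (e' ▸ hc.2.1)
  obtain ⟨z, z3, z4⟩ := exists_mem_notMem_of_card_lt_card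
    (s := obj ρ.r A ∩ obj ρ.r (fl z' c)) (t := (obj ρ.r A).filter ρ.good) (by omega)
  exact ⟨z, fl z' c, (mem_filter.1 z3).1, (mem_filter.1 z3).2,
    fun h3 => z4 (mem_inter.2 ⟨(mem_filter.1 z3).1, h3⟩), (hA.low z1 z2 hc).2.1, z', z1, z2,
    self_mem_obj hr c⟩

/-- weights of the answers -/
noncomputable def wt (ρ : Root n) : Ans n → ℝ
  | none => 1 / 2 - ρ.G.card / (4 * ρ.g)
  | some (Sum.inl _) => 1 / 4
  | some (Sum.inr c) => if c ∈ ρ.G then 1 / (4 * ρ.g) else 0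

theorem Ax.wt_none (h : Ax κ ρ U) : 1 / 4 ≤ wt ρ none := by
  have h1 : (ρ.G.card : ℝ) ≤ ρ.g := by exact_mod_cast h.hG
  have h2 : (2 : ℝ) ≤ ρ.g := by exact_mod_cast h.hg
  have : (ρ.G.card : ℝ) / (4 * ρ.g) ≤ 1 / 4 := by
    rw [div_le_iff₀ (by linarith)]
    linarith
  simp only [wt]
  linarith

theorem Ax.wt_nonneg (h : Ax κ ρ U) (α : Ans n) : 0 ≤ wt ρ α := by
  rcases α with _ | s | c
  · linarith [h.wt_none]
  · simp [wt]
  · simp only [wt]
    split_ifs <;> positivity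

theorem wt_sum (ρ : Root n) : ∑ α, wt ρ α = 1 := by
  rw [Fintype.sum_option, Fintype.sum_sum_type]
  simp only [wt, sum_const, card_univ, Fintype.card_bool, sum_ite_mem, univ_inter, nsmul_eq_mul]
  ring

end Pool.Agent.Lib.MP_8860fd_co.J
end

-- part Pool.Agent.Lib.MP_8860fd_co.JMark
section

/-! The markers. -/

namespace Pool.Agent.Lib.MP_8860fd_co.J

open Finset

variable {n κ : ℕ} {ρ : Root n} {U T T0 : Finset (Finset (Fin n))}
  {A B t x y z : Finset (Fin n)} {a b c d u : Fin n} {α : Ans n}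

open Classical in
/-- allowed answers -/
noncomputable def al (ρ : Root n) (U T0 : Finset (Finset (Fin n))) (t : Finset (Fin n)) :
    Finset (Ans n) :=
  if t ∈ T0 then (if h : ∃ c, FL ρ U (fl t c) then {some (Sum.inr h.choose)} else {none})
  else if Bare ρ U t then {none, some (Sum.inl true), some (Sum.inl false)}
  else if h : ∃ y, y ∈ pl ρ U (fl t y) then {some (Sum.inl (decide (h.choose ∈ t)))} else {none}

/-- weight of the allowed answers -/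
noncomputable def wa (ρ : Root n) (U T0 : Finset (Finset (Fin n))) (t : Finset (Fin n)) : ℝ :=
  ∑ α ∈ al ρ U T0 t, wt ρ α

theorem al_sa (hr : t.card = ρ.r) (h : α ∈ al ρ U T0 t) : SA ρ U t α := by
  unfold al at h
  split_ifs at h with h1 h2 h3 h4
  · rw [mem_singleton.1 h]
    exact ⟨fun s e => by simp at e, fun c e => by
      obtain rfl : h2.choose = c := by simpa using e
      exact h2.choose_spec.2.2⟩
  · rw [mem_singleton.1 h]
    exact ⟨fun s e => by simp at e, fun c e => by simp at e⟩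
  · refine ⟨fun s _ v _ hg hf => h3 v ⟨ln_fl hr v, hg, hf⟩, fun c e => ?_⟩
    simp [e] at h
  · rw [mem_singleton.1 h]
    refine ⟨fun s e v hv hg hf => ?_, fun c e => by simp at e⟩
    obtain rfl : decide (h4.choose ∈ t) = s := by simpa using e
    have := pl_dir (c := v) h4.choose_spec (by rw [fl_fl]; exact ⟨ln_fl hr v, hg, hf⟩)
    exact hv (by rw [this])
  · rw [mem_singleton.1 h]
    exact ⟨fun s e => by simp at e, fun c e => by simp at e⟩

theorem Ax.wa_nonneg (h : Ax κ ρ U) (t : Finset (Fin n)) : 0 ≤ wa ρ U T0 t :=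
  sum_nonneg fun α _ => h.wt_nonneg α

theorem Ax.wa_bare (h : Ax κ ρ U) (ht : t ∉ T0) (hb : Bare ρ U t) : 3 / 4 ≤ wa ρ U T0 t := by
  have := h.wt_none
  rw [wa, al, if_neg ht, if_pos hb, sum_insert (by simp), sum_pair (by simp)]
  simp only [wt] at this ⊢
  linarith

theorem Ax.wa_ge (h : Ax κ ρ U) (ht : t ∉ T0) : 1 / 4 ≤ wa ρ U T0 t := by
  by_cases hb : Bare ρ U t
  · linarith [h.wa_bare ht hb]
  rw [wa, al, if_neg ht, if_neg hb]
  split_ifs
  · simp [wt]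
  · simpa using h.wt_none

theorem Ax.wa_seed (h : Ax κ ρ U) (ht : t ∈ T0) (hc : ∀ c, FL ρ U (fl t c) → c ∈ ρ.G) :
    1 / (4 * ρ.g) ≤ wa ρ U T0 t := by
  rw [wa, al, if_pos ht]
  split_ifs with h1
  · simp [wt, hc _ h1.choose_spec]
  · have h2 : (2 : ℝ) ≤ ρ.g := by exact_mod_cast h.hg
    rw [sum_singleton]
    exact le_trans (one_div_le_one_div_of_le (by norm_num) (by linarith)) h.wt_none

theorem al_pl (hA : FL ρ U A) (hu : u ∈ pl ρ U A) (ht : fl A u ∉ T0)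
    (h : α ∈ al ρ U T0 (fl A u)) : α = some (Sum.inl (decide (u ∈ fl A u))) := by
  have h1 : ∃ y, y ∈ pl ρ U (fl (fl A u) y) := ⟨u, by simpa using hu⟩
  rw [al, if_neg ht, if_neg (fun hb => hb u (by simpa using hA)), dif_pos h1, mem_singleton] at h
  rw [h, ← pl_dir (c := u) h1.choose_spec (by simpa using hA)]

theorem al_seed (ht : t ∈ T0) (hl : Lt ρ U t) (hc : FL ρ U (fl t c)) (h : α ∈ al ρ U T0 t) :
    α = some (Sum.inr c) := by
  have h1 : ∃ c, FL ρ U (fl t c) := ⟨c, hc⟩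
  rw [al, if_pos ht, dif_pos h1, mem_singleton] at h
  rw [h, hl _ _ h1.choose_spec hc]

theorem line_dir (hA : Ln ρ.r A) (ht : t ∈ obj ρ.r A) : ∃ c, fl t c = A := by
  obtain ⟨c, rfl⟩ := line_pt hA ht
  exact ⟨c, fl_fl _ _⟩

theorem Ax.blocked (h : Ax κ ρ U) (hA : FL ρ U A) (hT : Stab T) (Z : Finset (Fin n))
    (hZ : ∀ u ∈ Z, ∃ d b, ¬ ρ.good (fl A d) ∧ b ∈ ρ.G ∧ fl (fl (fl A d) b) u ∈ T) :
    Z.card ≤ κ * ρ.g := by
  classical
  obtain ⟨a, a1, a2⟩ := h.ex_gen hA.1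
  have h1 : (univ.filter fun d => ¬ ρ.good (fl A d)).card ≤ κ := by
    refine le_trans (card_le_card fun d hd => ?_) (h.T4 _ a1 ((good_fl a2).2 hA.2.1))
    simp only [mem_filter, mem_univ, true_and] at hd ⊢
    rwa [fl_comm, good_fl a2]
  have h2 : Z.card * 1 ≤ ((univ.filter fun d => ¬ ρ.good (fl A d)) ×ˢ ρ.G).card * 1 := by
    refine card_mul_le_card_mul (fun u p => fl (fl (fl A p.1) p.2) u ∈ T) (fun u hu => ?_)
      fun p _ => card_le_one.2 fun u hu v hv => ?_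
    · obtain ⟨d, b, h3, h4, h5⟩ := hZ u hu
      exact card_pos.2 ⟨(d, b), (mem_bipartiteAbove _).2 ⟨by simp [h3, h4], h5⟩⟩
    · exact fl_inj (hT _ ((mem_bipartiteBelow _).1 hu).2 _ ((mem_bipartiteBelow _).1 hv).2
        (ds_fl_fl _ _ _))
  rw [card_product, mul_one, mul_one] at h2
  exact h2.trans (Nat.mul_le_mul h1 h.hG)

/-- the marker conditions -/
def Mk (κ : ℕ) (ρ : Root n) (U : Finset (Finset (Fin n))) (ω : Om n)
    (T : Finset (Finset (Fin n))) : Prop :=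
  (∀ A, Low κ ρ U A →
    (∃ t ∈ T, ∃ c d, fl t c = A ∧ (ω t).2 = some (Sum.inr c) ∧ ¬ ρ.good (fl t d)) ∨
    ∃ y ∈ pl ρ U A, fl A y ∈ T ∧ (ω (fl A y)).2 = some (Sum.inl (decide (y ∈ fl A y)))) ∧
  ∀ A, Stuck κ ρ U A → ∃ z ∈ obj ρ.r A, ρ.good z ∧ ∃ A', Ln ρ.r A' ∧ ¬ ρ.good A' ∧
    obj ρ.r A' ⊆ U ∧ ∃ z' ∈ obj ρ.r A', ρ.good z' ∧ ds z' z ≤ 2 ∧ ∃ t ∈ T, t ∈ obj ρ.r A' ∧ ρ.good t

theorem Ax.marks (h : Ax κ ρ U) : ∃ (T0 : Finset (Finset (Fin n)))
    (Y : Finset (Finset (Finset (Fin n)))) (m : ℕ),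
    (2 : ℝ) ^ m ≤ ∑ T ∈ Y, ∏ t ∈ T, wa ρ U T0 t ∧
    (∀ T ∈ Y, T.card ≤ m ∧ Stab T ∧ T0 ⊆ T ∧ (∀ t ∈ T, t ∈ U ∧ ρ.good t ∧ Lt ρ U t) ∧
      (∀ T' ∈ Y, ∀ t ∈ T', ∃ u ∈ T, ds t u ≤ 2) ∧
      ∀ ω T', T ⊆ T' → (∀ t ∈ T, (ω t).2 ∈ al ρ U T0 t) → Mk κ ρ U ω T') ∧
    (ρ.bad = ∅ → m * ρ.g ≤ U.card) := by
  classical
  obtain ⟨S, s1, s2, s3⟩ := exists_sep κ ρ U
  set AB : Finset (Fin n) → Prop := fun A => ∀ z ∈ obj ρ.r A, ρ.good z → Bare ρ U z with hAB
  have key : ∀ A, ∃ z B, A ∈ S → ¬ AB A → z ∈ obj ρ.r A ∧ ρ.good z ∧ z ∉ obj ρ.r B ∧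
      Low κ ρ U B ∧ ∃ z' ∈ obj ρ.r A, ρ.good z' ∧ z' ∈ obj ρ.r B := fun A => by
    by_cases hc : A ∈ S ∧ ¬ AB A
    · obtain ⟨z, B, h1⟩ := (s1 A hc.1).seed h hc.2
      exact ⟨z, B, fun _ _ => h1⟩
    · exact ⟨∅, ∅, fun h1 h2 => absurd ⟨h1, h2⟩ hc⟩
  choose zf Bf hzB using key
  set T0 := (S.filter fun A => ¬ AB A).image zf with hT0
  have mT0 : ∀ t, t ∈ T0 ↔ ∃ A ∈ S, ¬ AB A ∧ zf A = t := fun t => by
    simp only [hT0, mem_image, mem_filter, and_assoc]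
  set IL := univ.filter fun A => Low κ ρ U A ∧ ∀ t ∈ T0, t ∉ obj ρ.r A with hIL
  have mIL : ∀ A, A ∈ IL ↔ Low κ ρ U A ∧ ∀ t ∈ T0, t ∉ obj ρ.r A := fun A => by simp [hIL]
  set cand : Finset (Fin n) → Finset (Finset (Fin n)) := fun A =>
    if ρ.good A then (pl ρ U A).image (fl A)
    else if AB A then (obj ρ.r A).filter ρ.good else {zf A} with hcand
  have cL : ∀ A ∈ IL, ∀ t, t ∈ cand A ↔ ∃ u ∈ pl ρ U A, fl A u = t := fun A hA t => by
    simp only [hcand, if_pos ((mIL A).1 hA).1.1.2.1, mem_image]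
  have cS : ∀ A ∈ S, ∀ t ∈ cand A, t ∈ obj ρ.r A ∧ ρ.good t ∧ (AB A ∨ t ∈ T0) :=
      fun A hA t ht => by
    simp only [hcand, if_neg (s1 A hA).2.1] at ht
    split_ifs at ht with h1
    · exact ⟨(mem_filter.1 ht).1, (mem_filter.1 ht).2, Or.inl h1⟩
    · rw [mem_singleton.1 ht]
      exact ⟨(hzB A hA h1).1, (hzB A hA h1).2.1, Or.inr ((mT0 _).2 ⟨A, hA, h1, rfl⟩)⟩
  have hLT : ∀ A ∈ IL, ∀ t ∈ cand A, ∀ A' ∈ S, ∀ z ∈ cand A', 2 < ds t z := by
    intro A hA t ht A' hA' z hz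
    obtain ⟨u, hu, rfl⟩ := (cL A hA t).1 ht
    obtain ⟨z1, z2, z3⟩ := cS A' hA' z hz
    obtain ⟨l1, l2⟩ := (mIL A).1 hA
    by_contra hc
    rcases h.nb l1.1 hu ((s1 A' hA').2.2.1 z1) z2 (not_lt.1 hc) with h1 | ⟨-, -, -, -, -, h1⟩
    · rcases z3 with z3 | z3
      · obtain ⟨c, rfl⟩ := line_dir l1.1.1 h1
        exact z3 z z1 z2 c l1.1
      · exact l2 z z3 h1
    · exact (mem_pl.1 hu).1.2 ((s1 A' hA').low z1 z2 h1).1
  have hLL : ∀ A ∈ IL, ∀ A' ∈ IL, ∀ t ∈ cand A', t ∈ obj ρ.r A → A = A' := by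
    intro A hA A' hA' t ht h1
    obtain ⟨u, hu, rfl⟩ := (cL A' hA' t).1 ht
    obtain ⟨c, rfl⟩ := line_dir ((mIL A).1 hA).1.1.1 h1
    rw [pl_dir hu ((mIL _).1 hA).1.1, fl_fl]
  have cO : ∀ A ∈ IL ∪ S, Ln ρ.r A ∧ obj ρ.r A ⊆ U ∧
      ∀ t ∈ cand A, t ∈ obj ρ.r A ∧ ρ.good t ∧ Lt ρ U t := fun A hA => by
    rcases mem_union.1 hA with hA | hA
    · have l1 := ((mIL A).1 hA).1.1
      refine ⟨l1.1, l1.2.2, fun t ht => ?_⟩
      obtain ⟨u, hu, rfl⟩ := (cL A hA t).1 ht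
      exact ⟨fl_mem_obj (mem_pl.1 hu).1.1, (good_fl (mem_pl.1 hu).1.2).2 l1.2.1,
        fun a b ha hb => (pl_dir hu ha).trans (pl_dir hu hb).symm⟩
    · exact ⟨(s1 A hA).1, (s1 A hA).2.2.1, fun t ht => ⟨(cS A hA t ht).1, (cS A hA t ht).2.1,
        (s1 A hA).lt h (cS A hA t ht).1 (cS A hA t ht).2.1⟩⟩
  have hd : ∀ i ∈ IL ∪ S, ∀ j ∈ IL ∪ S, ∀ t ∈ cand i, t ∈ cand j → i = j := by
    intro i hi j hj t h1 h2
    rcases mem_union.1 hi with hi' | hi' <;> rcases mem_union.1 hj with hj' | hj'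
    · exact hLL i hi' j hj' t h2 ((cO i hi).2.2 t h1).1
    · simpa using hLT i hi' t h1 j hj' t h2
    · simpa using hLT j hj' t h2 i hi' t h1
    · exact s2 i hi' j hj' t (cS i hi' t h1).1 (cS i hi' t h1).2.1 t (cS j hj' t h2).1
        (cS i hi' t h1).2.1 (by simp)
  have hg : (2 : ℝ) ≤ ρ.g := by exact_mod_cast h.hg
  set γ : Finset (Fin n) → ℝ := fun A =>
    if ρ.good A then 16 * ρ.g else if AB A then 2 else 1 / (4 * ρ.g) with hγ
  have main := sel (IL ∪ S) cand (wa ρ U T0) h.wa_nonneg γ (fun A => by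
    simp only [hγ]; split_ifs <;> positivity) hd (by
    intro A hA J hJ hAJ T hT
    obtain ⟨t1, t2, -, -⟩ := mem_Sel.1 hT
    rcases mem_union.1 hA with hA' | hA'
    · obtain ⟨l1, l2⟩ := (mIL A).1 hA'
      have b1 := h.blocked l1.1 t1 ((pl ρ U A).filter fun u => ¬ ∀ z ∈ T, 2 < ds (fl A u) z)
        fun u hu => by
          obtain ⟨u1, u2⟩ := mem_filter.1 hu
          push Not at u2
          obtain ⟨z, z1, z2⟩ := u2
          obtain ⟨j, j1, j2⟩ := t2 z z1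
          have j3 := cO j (hJ j1)
          rcases mem_union.1 (hJ j1) with j4 | j4
          · rcases h.nb l1.1 u1 (j3.2.1 (j3.2.2 z j2).1) (j3.2.2 z j2).2.1 z2 with
              h1 | ⟨d, b, h1, h2, h3, -⟩
            · exact absurd (hLL A hA' j j4 z j2 h1 ▸ j1) hAJ
            · exact ⟨d, b, h1, h2, h3 ▸ z1⟩
          · exact absurd z2 (not_le.2 (hLT A hA' _ ((cL A hA' _).2 ⟨u, u1, rfl⟩) j j4 z j2))
      have b2 := card_filter_add_card_filter_not (s := pl ρ U A)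
        fun u => ∀ z ∈ T, 2 < ds (fl A u) z
      have b3 : ((pl ρ U A).filter fun u => ∀ z ∈ T, 2 < ds (fl A u) z).card ≤
          ((cand A).filter fun t => ∀ z ∈ T, 2 < ds t z).card :=
        card_le_card_of_injOn (fl A) (fun u hu => mem_coe.2 (mem_filter.2
          ⟨(cL A hA' _).2 ⟨u, (mem_filter.1 hu).1, rfl⟩, (mem_filter.1 hu).2⟩))
          fun a _ b _ e => fl_inj e
      have b4 : 64 * ρ.g ≤ ((cand A).filter fun t => ∀ z ∈ T, 2 < ds t z).card := by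
        have := l1.2
        rw [add_mul] at this
        omega
      have b5 := card_nsmul_le_sum ((cand A).filter fun t => ∀ z ∈ T, 2 < ds t z) (wa ρ U T0) (1 / 4)
        fun t ht => h.wa_ge fun h0 => l2 t h0 ((cO A hA).2.2 t (mem_filter.1 ht).1).1
      have b6 : (64 * ρ.g : ℝ) ≤ ((cand A).filter fun t => ∀ z ∈ T, 2 < ds t z).card := by
        exact_mod_cast b4
      simp only [hγ, if_pos l1.1.2.1]
      rw [nsmul_eq_mul] at b5
      linarith
    · rw [filter_true_of_mem fun t ht z z1 => by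
        obtain ⟨j, j1, j2⟩ := t2 z z1
        rcases mem_union.1 (hJ j1) with j4 | j4
        · rw [ds_comm]
          exact hLT j j4 z j2 A hA' t ht
        · exact not_le.1 fun hc => hAJ (s2 j j4 A hA' z (cS j j4 z j2).1 (cS j j4 z j2).2.1 t
            (cS A hA' t ht).1 (cS A hA' t ht).2.1 hc ▸ j1)]
      have a1 := s1 A hA'
      simp only [hγ, hcand, if_neg a1.2.1]
      split_ifs with h1
      · obtain ⟨z, z1, z2⟩ := a1.2.2.2.1
        obtain ⟨d, hd⟩ := line_dir a1.1 z1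
        have b1 := h.T3 z (mem_obj.1 z1).1 z2 d (hd ▸ a1.2.1)
        rw [hd] at b1
        have b2 := card_nsmul_le_sum ((obj ρ.r A).filter ρ.good) (wa ρ U T0) (3 / 4) fun t ht => by
          obtain ⟨c1, c2⟩ := mem_filter.1 ht
          refine h.wa_bare (fun h0 => ?_) (h1 t c1 c2)
          obtain ⟨A', d1, d2, rfl⟩ := (mT0 t).1 h0
          exact d2 (s2 A hA' A' d1 _ c1 c2 _ (hzB A' d1 d2).1 c2 (by simp) ▸ h1)
        have b3 : (3 : ℝ) ≤ ((obj ρ.r A).filter ρ.good).card := by exact_mod_cast b1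
        rw [nsmul_eq_mul] at b2
        linarith
      · rw [sum_singleton]
        exact h.wa_seed ((mT0 _).2 ⟨A, hA', h1, rfl⟩) fun c hc =>
          (a1.low (hzB A hA' h1).1 (hzB A hA' h1).2.1 hc).1)
  have hdis : Disjoint IL S := disjoint_left.2 fun A h1 h2 => (s1 A h2).2.1 ((mIL A).1 h1).1.1.2.1
  have hT0 : ∀ T ∈ Sel (IL ∪ S) cand, T0 ⊆ T := fun T hT t ht => by
    obtain ⟨A, a1, a2, rfl⟩ := (mT0 t).1 ht
    obtain ⟨z, z1, z2⟩ := (mem_Sel.1 hT).2.2.1 A (mem_union_right _ a1)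
    simp only [hcand, if_neg (s1 A a1).2.1, if_neg a2, mem_singleton] at z2
    exact z2 ▸ z1
  refine ⟨T0, Sel (IL ∪ S) cand, (IL ∪ S).card, le_trans ?_ main, fun T hT => ?_, fun hb => ?_⟩
  · have c1 : (S.filter fun A => ¬ AB A).card ≤ IL.card := by
      refine card_le_card_of_injOn Bf (fun A hA => ?_) fun A hA A' hA' e => ?_
      · obtain ⟨a1, a2⟩ := mem_filter.1 (mem_coe.1 hA)
        obtain ⟨-, -, b1, b2, z', b3, b4, b5⟩ := hzB A a1 a2
        refine mem_coe.2 ((mIL _).2 ⟨b2, fun t ht hc => ?_⟩)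
        obtain ⟨A', d1, d2, rfl⟩ := (mT0 t).1 ht
        exact b1 (s2 A' d1 A a1 _ (hzB A' d1 d2).1 (hzB A' d1 d2).2.1 z' b3 b4
          (ds_of_line b2.1.1 b5 hc) ▸ hc)
      · obtain ⟨a1, a2⟩ := mem_filter.1 (mem_coe.1 hA)
        obtain ⟨a3, a4⟩ := mem_filter.1 (mem_coe.1 hA')
        obtain ⟨-, -, -, b2, z, b3, b4, b5⟩ := hzB A a1 a2
        obtain ⟨-, -, -, -, z', b6, b7, b8⟩ := hzB A' a3 a4
        exact s2 A a1 A' a3 z b3 b4 z' b6 b7 (ds_of_line b2.1.1 (e ▸ b8) b5)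
    have c2 := card_filter_add_card_filter_not (s := S) AB
    rw [prod_union hdis, card_union_of_disjoint hdis, ← c2,
      prod_congr rfl (g := fun _ => 16 * (ρ.g : ℝ)) fun A hA => if_pos ((mIL A).1 hA).1.1.2.1,
      prod_congr (s₁ := S) rfl (g := fun A => if AB A then 2 else 1 / (4 * (ρ.g : ℝ)))
        fun A hA => if_neg (s1 A hA).2.1, prod_ite, prod_const, prod_const, prod_const]
    generalize (S.filter fun A => ¬ AB A).card = p at *
    obtain ⟨k, hk⟩ := Nat.exists_eq_add_of_le c1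
    rw [hk]
    calc (2 : ℝ) ^ (p + k + ((S.filter AB).card + p))
        = 2 ^ k * 2 ^ (S.filter AB).card * (16 * ρ.g * (1 / (4 * ρ.g))) ^ p := by
          rw [show (16 * ρ.g * (1 / (4 * ρ.g)) : ℝ) = 2 * 2 by field_simp; norm_num, mul_pow]
          ring
      _ ≤ (16 * ρ.g) ^ k * 2 ^ (S.filter AB).card * (16 * ρ.g * (1 / (4 * ρ.g))) ^ p := by
          gcongr
          linarith
      _ = _ := by rw [mul_pow (16 * (ρ.g : ℝ))]; ring
  · obtain ⟨t1, t2, t3, t4⟩ := mem_Sel.1 hT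
    refine ⟨t4, t1, hT0 T hT, fun t ht => ?_, fun T' hT' t ht => ?_, fun ω T' hTT hω =>
      ⟨fun A hA => ?_, fun A hA => ?_⟩⟩
    · obtain ⟨j, j1, j2⟩ := t2 t ht
      exact ⟨(cO j j1).2.1 ((cO j j1).2.2 t j2).1, ((cO j j1).2.2 t j2).2⟩
    · obtain ⟨j, j1, j2⟩ := (mem_Sel.1 hT').2.1 t ht
      obtain ⟨u, u1, u2⟩ := t3 j j1
      exact ⟨u, u1, ds_of_line (cO j j1).1 ((cO j j1).2.2 t j2).1 ((cO j j1).2.2 u u2).1⟩
    · by_cases hc : ∀ t ∈ T0, t ∉ obj ρ.r A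
      · have a1 := (mIL A).2 ⟨hA, hc⟩
        obtain ⟨t, u1, u2⟩ := t3 A (mem_union_left _ a1)
        obtain ⟨u, hu, rfl⟩ := (cL A a1 t).1 u2
        exact Or.inr ⟨u, hu, hTT u1, al_pl hA.1 hu
          (fun h0 => hc _ h0 (fl_mem_obj (mem_pl.1 hu).1.1)) (hω _ u1)⟩
      · push Not at hc
        obtain ⟨t, u1, u2⟩ := hc
        obtain ⟨c, rfl⟩ := line_dir hA.1.1 u2
        obtain ⟨A', d1, d2, e⟩ := (mT0 t).1 u1
        obtain ⟨b1, b2, -⟩ := hzB A' d1 d2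
        rw [e] at b1 b2
        obtain ⟨d, rfl⟩ := line_dir (s1 A' d1).1 b1
        exact Or.inl ⟨t, hTT (hT0 T hT u1), c, d, rfl,
          al_seed u1 ((s1 _ d1).lt h b1 b2) hA.1 (hω t (hT0 T hT u1)), (s1 _ d1).2.1⟩
    · obtain ⟨z, z1, z2, A', a1, z', z3, z4, z5⟩ := s3 A hA
      obtain ⟨t, u1, u2⟩ := t3 A' (mem_union_right _ a1)
      exact ⟨z, z1, z2, A', (s1 A' a1).1, (s1 A' a1).2.1, (s1 A' a1).2.2.1, z', z3, z4, z5, t,
        hTT u1, (cS A' a1 t u2).1, (cS A' a1 t u2).2.1⟩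
  · have c1 : S = ∅ := eq_empty_of_forall_notMem fun A hA => (s1 A hA).2.1 (by
      simp [Root.good, hb])
    rw [c1, union_empty, ← mul_one U.card]
    refine card_mul_le_card_mul (fun A t => t ∈ cand A) (fun A hA => ?_)
      fun t _ => card_le_one.2 fun A hA B hB => ?_
    · have l1 := ((mIL A).1 hA).1
      refine le_trans (le_trans (Nat.le_mul_of_pos_left _ (by omega)) l1.2)
        (card_le_card_of_injOn (fl A) (fun u hu => ?_) fun a _ b _ e => fl_inj e)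
      exact mem_coe.2 ((mem_bipartiteAbove _).2 ⟨l1.1.2.2 (fl_mem_obj (mem_pl.1 hu).1.1),
        (cL A hA _).2 ⟨u, hu, rfl⟩⟩)
    · obtain ⟨a1, a2⟩ := (mem_bipartiteBelow _).1 hA
      obtain ⟨a3, a4⟩ := (mem_bipartiteBelow _).1 hB
      exact hd A (mem_union_left _ a1) B (mem_union_left _ a3) t a2 a4

end Pool.Agent.Lib.MP_8860fd_co.J
end

-- part Pool.Agent.Lib.MP_8860fd_co.JVal
section

/-! The weight of the decoding event. -/

namespace Pool.Agent.Lib.MP_8860fd_co.J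

open Finset

variable {n κ : ℕ} {ρ : Root n} {N N' U P T T0 : Finset (Finset (Fin n))} {q : ℝ}

/-- weight of one coordinate -/
noncomputable def w1 (q : ℝ) (ρ : Root n) (p : Bool × Ans n) : ℝ :=
  (if p.1 = true then q else 1 - q) * wt ρ p.2

/-- the decoder returns `U` -/
def Dec (κ : ℕ) (ρ : Root n) (N' : Finset (Finset (Fin n))) (ω : Om n)
    (U : Finset (Finset (Fin n))) : Prop :=
  Closed κ ρ N' ω U ∧ ∀ K, Closed κ ρ N' ω K → U ⊆ K

open Classical in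
/-- probability that the decoder returns `U` -/
noncomputable def val (q : ℝ) (κ : ℕ) (ρ : Root n) (N' U : Finset (Finset (Fin n))) : ℝ :=
  ∑ ω ∈ univ.filter fun ω : Om n => Dec κ ρ N' ω U, ∏ F, w1 q ρ (ω F)

theorem w1_nonneg (h0 : 0 ≤ q) (h1 : q ≤ 1) (hw : ∀ α, 0 ≤ wt ρ α) (p : Bool × Ans n) :
    0 ≤ w1 q ρ p := by
  refine mul_nonneg ?_ (hw _)
  split_ifs <;> linarith

theorem w1_sum (s : Finset Bool) (t : Finset (Ans n)) : ∑ p ∈ s ×ˢ t, w1 q ρ p =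
    (∑ b ∈ s, if b = true then q else 1 - q) * ∑ α ∈ t, wt ρ α := by
  rw [sum_mul_sum, sum_product]
  rfl

theorem val_nonneg (h0 : 0 ≤ q) (h1 : q ≤ 1) (hw : ∀ α, 0 ≤ wt ρ α) : 0 ≤ val q κ ρ N' U :=
  sum_nonneg fun _ _ => prod_nonneg fun _ _ => w1_nonneg h0 h1 hw _

theorem kraft (h0 : 0 ≤ q) (h1 : q ≤ 1) (hw : ∀ α, 0 ≤ wt ρ α) :
    ∑ U, val q κ ρ N' U ≤ 1 := by
  classical
  have h2 : ∑ ω : Om n, ∏ F, w1 q ρ (ω F) = 1 := by
    have := prod_univ_sum (fun _ : Finset (Fin n) => (univ : Finset (Bool × Ans n)))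
      fun _ p => w1 q ρ p
    rw [Fintype.piFinset_univ] at this
    rw [← this, ← univ_product_univ, w1_sum, wt_sum]
    simp
  simp only [val, sum_filter]
  rw [sum_comm, ← h2]
  refine sum_le_sum fun ω _ => ?_
  rw [← sum_filter, sum_const, nsmul_eq_mul]
  refine mul_le_of_le_one_left (prod_nonneg fun _ _ => w1_nonneg h0 h1 hw _) ?_
  exact_mod_cast card_le_one.2 fun U hU V hV => by
    obtain ⟨a1, a2⟩ := (mem_filter.1 hU).2
    obtain ⟨a3, a4⟩ := (mem_filter.1 hV).2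
    exact subset_antisymm (a2 V a3) (a4 U a1)

theorem val_ge (h : Ax κ ρ U) (hP : Pay ρ U P) (hc : ∀ W, ρ.init ⊆ W → AdjCl U W → U ⊆ W)
    (hU : AdjCl N U) (h0 : 0 ≤ q) (h1 : q ≤ 1) (hT : T ⊆ U) (hs : Stab T)
    (hm : ∀ ω : Om n, (∀ t ∈ T, (ω t).2 ∈ al ρ U T0 t) → Mk κ ρ U ω T) :
    q ^ P.card * (1 - q) ^ (U.card * (n + 1) ^ 10) * ∏ t ∈ T, wa ρ U T0 t ≤
      val q κ ρ ((N \ U) ∪ T) U := by
  classical
  set Nr := univ.filter fun F => ∃ x ∈ U, ds x F ≤ 10 with hNr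
  set S : Finset (Fin n) → Finset (Bool × Ans n) := fun F =>
    (if F ∈ P then {true} else if F ∈ Nr then {false} else univ) ×ˢ
      (if F ∈ T then al ρ U T0 F else univ) with hS
  have a1 : Nr.card ≤ U.card * (n + 1) ^ 10 := by
    refine le_trans (card_le_card (t := U.biUnion fun x => univ.filter fun F => ds x F ≤ 10)
      fun F hF => by simpa [hNr] using hF) (card_biUnion_le_card_mul _ _ _ fun x _ => card_ball x 10)
  have a2 : ∑ ω ∈ Fintype.piFinset S, ∏ F, w1 q ρ (ω F) ≤ val q κ ρ ((N \ U) ∪ T) U := by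
    refine sum_le_sum_of_subset_of_nonneg (fun ω hω => mem_filter.2 ⟨mem_univ _, ?_⟩)
      fun _ _ _ => prod_nonneg fun _ _ => w1_nonneg h0 h1 h.wt_nonneg _
    simp only [Fintype.mem_piFinset, hS, mem_product] at hω
    have b1 : ∀ t ∈ T, (ω t).2 ∈ al ρ U T0 t := fun t ht => by simpa [ht] using (hω t).2
    have b2 : Enc κ ρ U ((N \ U) ∪ T) ω P T := ⟨h, hP, fun F hF => by simpa [hF] using (hω F).1,
      fun F hF x hx hd => by_contra fun hn => by
        have := (hω F).1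
        rw [if_neg hn, if_pos (mem_filter.2 ⟨mem_univ _, x, hx, hd⟩), hF] at this
        simp at this,
      subset_union_right, fun t ht x hx hd => (mem_union.1 ht).resolve_left fun h2 =>
        (mem_sdiff.1 h2).2 (hU x hx t (mem_sdiff.1 h2).1 hd),
      hT, hs, fun t ht => al_sa (h.pt t (hT ht)) (b1 t ht), (hm ω b1).1, (hm ω b1).2⟩
    exact ⟨b2.sound, fun K hK => b2.complete hK hc⟩
  refine le_trans ?_ a2
  rw [← prod_univ_sum S fun _ p => w1 q ρ p]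
  calc q ^ P.card * (1 - q) ^ (U.card * (n + 1) ^ 10) * ∏ t ∈ T, wa ρ U T0 t
      ≤ q ^ P.card * (1 - q) ^ Nr.card * ∏ t ∈ T, wa ρ U T0 t := by
        have := prod_nonneg (s := T) fun t _ => h.wa_nonneg (T0 := T0) t
        have := pow_le_pow_of_le_one (show 0 ≤ 1 - q by linarith) (by linarith) a1
        gcongr
    _ = ∏ F, (if F ∈ P then q else 1) * (if F ∈ Nr then 1 - q else 1) *
        (if F ∈ T then wa ρ U T0 F else 1) := by
        simp only [prod_mul_distrib, prod_ite_mem, univ_inter, prod_const]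
    _ ≤ _ := by
        refine prod_le_prod (fun F _ => ?_) fun F _ => ?_
        · have := h.wa_nonneg (T0 := T0) F
          have : 0 ≤ 1 - q := by linarith
          split_ifs <;> positivity
        · simp only [hS, w1_sum]
          refine mul_le_mul ?_ ?_ ?_ ?_
          · split_ifs <;> simp
            nlinarith
          · split_ifs
            · exact le_rfl
            · exact (wt_sum ρ).ge
          · have := h.wa_nonneg (T0 := T0) F
            split_ifs <;> positivity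
          · exact sum_nonneg fun b _ => by split_ifs <;> linarith

open Classical in
/-- stable subsets -/
noncomputable def SS (U : Finset (Finset (Fin n))) : Finset (Finset (Finset (Fin n))) :=
  U.powerset.filter Stab

theorem mem_SS : T ∈ SS U ↔ T ⊆ U ∧ Stab T := by simp [SS]

/-- points far from the markers -/
def Free (U T : Finset (Finset (Fin n))) : Finset (Finset (Fin n)) :=
  U.filter fun x => ∀ t ∈ T, 2 < ds x t

/-- total weight of the extra points -/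
noncomputable def Ex (U T : Finset (Finset (Fin n))) : ℝ := ∑ X ∈ SS (Free U T), (1 / 4) ^ X.card

theorem total (h : Ax κ ρ U) (hc : ∀ W, ρ.init ⊆ W → AdjCl U W → U ⊆ W) (hU : AdjCl N U)
    (h0 : 0 ≤ q) (h1 : q ≤ 1) {l : ℕ} (hl : l * l + 1 ≤ ρ.g) : ∃ p m : ℕ,
    l * ρ.g * p ≤ 2 * U.card ∧ (ρ.bad = ∅ → m * ρ.g ≤ U.card) ∧ ∀ E : ℝ, 0 ≤ E →
      (∀ T, T.card ≤ m → (∀ t ∈ T, t ∈ U ∧ ρ.good t ∧ Lt ρ U t) → E ≤ 2 ^ m * Ex U T) →
      q ^ p * (1 - q) ^ (U.card * (n + 1) ^ 10) * E ≤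
        ∑ T ∈ SS U, val q κ ρ ((N \ U) ∪ T) U := by
  classical
  obtain ⟨P, hP, p1⟩ := h.pay hl
  obtain ⟨T0, Y, m, y1, y2, y3⟩ := h.marks
  refine ⟨P.card, m, p1, y3, fun E hE0 hE => ?_⟩
  set c := q ^ P.card * (1 - q) ^ (U.card * (n + 1) ^ 10) with hc'
  have c0 : 0 ≤ c := mul_nonneg (pow_nonneg h0 _) (pow_nonneg (by linarith) _)
  set S := Y.sigma fun T => SS (Free U T) with hS
  have a0 : ∀ T, ∀ X ∈ SS (Free U T), ∀ x ∈ X, x ∈ U ∧ ∀ t ∈ T, 2 < ds x t := fun T X hX x hx =>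
    mem_filter.1 ((mem_SS.1 hX).1 hx)
  have a3 : ∀ T, ∀ X ∈ SS (Free U T), Disjoint T X := fun T X hX =>
    disjoint_left.2 fun x h2 h3 => by simpa using (a0 T X hX x h3).2 x h2
  have a1 : Set.InjOn (fun p : (Σ _ : Finset (Finset (Fin n)), Finset (Finset (Fin n))) =>
      p.1 ∪ p.2) S := by
    rintro ⟨T, X⟩ hp ⟨T', X'⟩ hp' e
    simp only [hS, coe_sigma, Set.mem_sigma_iff, mem_coe] at hp hp' e
    have key : ∀ T ∈ Y, ∀ X ∈ SS (Free U T), ∀ T' ∈ Y, T' ⊆ T ∪ X → T' ⊆ T :=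
      fun T hT X hX T' hT' hs t ht => (mem_union.1 (hs ht)).resolve_right fun hx => by
        obtain ⟨u, u1, u2⟩ := (y2 T hT).2.2.2.2.1 T' hT' t ht
        exact not_le.2 ((a0 T X hX t hx).2 u u1) u2
    obtain rfl : T = T' := subset_antisymm (key T' hp'.1 X' hp'.2 T hp.1 (e ▸ subset_union_left))
      (key T hp.1 X hp.2 T' hp'.1 (e ▸ subset_union_left))
    rw [← union_sdiff_cancel_left (a3 T X hp.2), e, union_sdiff_cancel_left (a3 T X' hp'.2)]
  have a2 : ∀ T ∈ Y, ∀ X ∈ SS (Free U T), T ∪ X ∈ SS U := fun T hT X hX => by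
    obtain ⟨-, b1, -, b2, -⟩ := y2 T hT
    refine mem_SS.2 ⟨union_subset (fun t ht => (b2 t ht).1) fun x hx => (a0 T X hX x hx).1,
      fun x hx y hy hd => ?_⟩
    rcases mem_union.1 hx with hx | hx <;> rcases mem_union.1 hy with hy | hy
    · exact b1 x hx y hy hd
    · exact absurd (ds_comm x y ▸ hd) (not_le.2 ((a0 T X hX y hy).2 x hx))
    · exact absurd hd (not_le.2 ((a0 T X hX x hx).2 y hy))
    · exact (mem_SS.1 hX).2 x hx y hy hd
  have hm : (0 : ℝ) < 2 ^ m := by positivity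
  calc c * E = c * (2 ^ m * (E / 2 ^ m)) := by field_simp
    _ ≤ c * ((∑ T ∈ Y, ∏ t ∈ T, wa ρ U T0 t) * (E / 2 ^ m)) := by gcongr
    _ ≤ ∑ T ∈ Y, ∑ X ∈ SS (Free U T), val q κ ρ ((N \ U) ∪ (T ∪ X)) U := by
      rw [sum_mul, mul_sum]
      refine sum_le_sum fun T hT => ?_
      obtain ⟨b0, -, b1, b2, -, b3⟩ := y2 T hT
      have b4 : 0 ≤ ∏ t ∈ T, wa ρ U T0 t := prod_nonneg fun t _ => h.wa_nonneg t
      calc c * ((∏ t ∈ T, wa ρ U T0 t) * (E / 2 ^ m)) ≤ c * ((∏ t ∈ T, wa ρ U T0 t) * Ex U T) := by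
            gcongr
            rw [div_le_iff₀' hm]
            exact hE T b0 b2
        _ ≤ _ := by
            rw [Ex, mul_sum, mul_sum]
            refine sum_le_sum fun X hX => le_trans ?_ (val_ge (T0 := T0) h hP hc hU h0 h1
              (mem_SS.1 (a2 T hT X hX)).1 (mem_SS.1 (a2 T hT X hX)).2 fun ω hω =>
                b3 ω _ subset_union_left fun t ht => hω t (mem_union_left _ ht))
            rw [prod_union (a3 T X hX), ← prod_const]
            gcongr with x hx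
            exact h.wa_ge fun h2 => disjoint_left.1 (a3 T X hX) (b1 h2) hx
    _ = ∑ T ∈ S.image fun p => p.1 ∪ p.2, val q κ ρ ((N \ U) ∪ T) U := by
      rw [sum_image a1, sum_sigma']
    _ ≤ _ := by
      refine sum_le_sum_of_subset_of_nonneg (fun T hT => ?_)
        fun _ _ _ => val_nonneg h0 h1 h.wt_nonneg
      obtain ⟨⟨T, X⟩, hp, rfl⟩ := mem_image.1 hT
      exact a2 T (mem_sigma.1 hp).1 X (mem_sigma.1 hp).2

end Pool.Agent.Lib.MP_8860fd_co.J
end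

-- part Pool.Agent.Lib.MP_8860fd_co.JGain
section

/-! Lower bounds for the weight of the extra points. -/

namespace Pool.Agent.Lib.MP_8860fd_co.J

open Finset

variable {n κ r m : ℕ} {ρ : Root n} {U T : Finset (Finset (Fin n))} {t F : Finset (Fin n)}

theorem Ax.nbr (h : Ax κ ρ U) (ht : t ∈ U) (hl : Lt ρ U t) : ∃ c, ∀ x ∈ U, ds x t ≤ 2 →
    x ∈ obj ρ.r (fl t c) ∨ ∃ d, ¬ ρ.good (fl t d) ∧ x ∈ obj ρ.r (fl t d) := by
  have hr := h.pt t ht
  obtain ⟨c, hc⟩ : ∃ c, ∀ a, FL ρ U (fl t a) → a = c := by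
    by_cases h1 : ∃ c, FL ρ U (fl t c)
    · obtain ⟨c, h1⟩ := h1
      exact ⟨c, fun a ha => hl a c ha h1⟩
    · exact ⟨⟨0, h.n_pos⟩, fun a ha => absurd ⟨a, ha⟩ h1⟩
  refine ⟨c, fun x hx hd => ?_⟩
  by_cases e : x = t
  · exact Or.inl (e ▸ self_mem_obj (e ▸ hr) c)
  obtain ⟨a, b, -, rfl, h1⟩ := h.join ht hx (ds_comm x t ▸ hd) e
  by_cases hg : ρ.good (fl t a)
  · exact Or.inl (hc a ⟨ln_fl hr a, hg, h1⟩ ▸ fl_mem_obj (h.pt _ hx))
  · exact Or.inr ⟨a, hg, fl_mem_obj (h.pt _ hx)⟩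

theorem Ax.large (h : Ax κ ρ U) (hm : T.card ≤ m) (hT : ∀ t ∈ T, t ∈ U ∧ ρ.good t ∧ Lt ρ U t)
    {k : ℕ} (hk : (κ + 1) * n * k ≤ U.card) : (5 / 4 : ℝ) ^ k ≤ 2 ^ m * Ex U T := by
  classical
  have a1 : ∀ t ∈ T, (U.filter fun x => ds x t ≤ 2).card ≤ (κ + 1) * n := fun t ht => by
    obtain ⟨b1, b2, b3⟩ := hT t ht
    obtain ⟨c, hc⟩ := h.nbr b1 b3
    have hr := h.pt t b1
    refine le_trans (card_le_card (t := (insert c (univ.filter fun d => ¬ ρ.good (fl t d))).biUnion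
      fun d => obj ρ.r (fl t d)) fun x hx => ?_) ((card_biUnion_le_card_mul _ _ n
      fun d _ => card_obj_le (ln_fl hr d)).trans (Nat.mul_le_mul_right _
      ((card_insert_le _ _).trans (Nat.succ_le_succ (h.T4 t hr b2)))))
    rcases hc x (mem_filter.1 hx).1 (mem_filter.1 hx).2 with h1 | ⟨d, h1, h2⟩
    · exact mem_biUnion.2 ⟨c, mem_insert_self _ _, h1⟩
    · exact mem_biUnion.2 ⟨d, mem_insert_of_mem (mem_filter.2 ⟨mem_univ _, h1⟩), h2⟩
  have a2 : U ⊆ Free U T ∪ T.biUnion fun t => U.filter fun x => ds x t ≤ 2 := fun x hx => by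
    by_cases h1 : ∀ t ∈ T, 2 < ds x t
    · exact mem_union_left _ (mem_filter.2 ⟨hx, h1⟩)
    · push Not at h1
      obtain ⟨t, t1, t2⟩ := h1
      exact mem_union_right _ (mem_biUnion.2 ⟨t, t1, mem_filter.2 ⟨hx, t2⟩⟩)
  have a3 := (card_le_card a2).trans ((card_union_le _ _).trans
    (Nat.add_le_add_left (card_biUnion_le_card_mul _ _ _ a1) _))
  obtain ⟨E, e1, e2, e3⟩ := colour h.n_pos (Free U T) fun x hx => h.pt x (mem_filter.1 hx).1
  have a4 : k ≤ m + E.card := by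
    refine Nat.le_of_mul_le_mul_left (c := (κ + 1) * n) (hk.trans (a3.trans ?_))
      (Nat.mul_pos (by omega) h.n_pos)
    have := Nat.mul_le_mul_right ((κ + 1) * n) hm
    nlinarith [Nat.zero_le (κ * n * E.card)]
  have a5 : (5 / 4 : ℝ) ^ E.card ≤ Ex U T := by
    calc (5 / 4 : ℝ) ^ E.card = ∏ _x ∈ E, (1 + 1 / 4 : ℝ) := by rw [prod_const]; norm_num
      _ = ∑ X ∈ E.powerset, (1 / 4 : ℝ) ^ X.card := by simp only [prod_one_add, prod_const]
      _ ≤ _ := sum_le_sum_of_subset_of_nonneg (fun X hX => mem_SS.2 ⟨(mem_powerset.1 hX).trans e1,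
          fun x hx y hy => e2 x (mem_powerset.1 hX hx) y (mem_powerset.1 hX hy)⟩)
          fun _ _ _ => by positivity
  calc (5 / 4 : ℝ) ^ k ≤ (5 / 4) ^ (m + E.card) := pow_le_pow_right₀ (by norm_num) a4
    _ ≤ _ := by
      rw [pow_add]
      gcongr
      norm_num

theorem ex_grid (hF : Ev r F) {s : ℕ} (h1 : 2 * s ≤ r) (h2 : r + 2 * s ≤ n) :
    ∃ R C : Finset (Fin n), R.card = s ∧ C.card = s ∧ Disjoint R C ∧
      ∀ a ∈ R, ∀ b ∈ C, (fl (fl F a) b).card = r := by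
  have hc : Fᶜ.card + F.card = n := by simp
  have key : ∀ X Y : Finset (Fin n), 2 * s ≤ X.card ∨ (s ≤ X.card ∧ Disjoint X Y) → s ≤ Y.card →
      (X = Y ∨ Disjoint X Y) → (∀ a ∈ X, ∀ b ∈ Y, a ≠ b → (fl (fl F a) b).card = r) →
      ∃ R C : Finset (Fin n), R.card = s ∧ C.card = s ∧ Disjoint R C ∧
      ∀ a ∈ R, ∀ b ∈ C, (fl (fl F a) b).card = r := by
    intro X Y a1 a2 a3 a4
    obtain ⟨C, c1, c2⟩ := exists_subset_card_eq a2
    obtain ⟨R, c3, c4⟩ := exists_subset_card_eq (s := X \ C) (n := s) (by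
      rcases a1 with a1 | a1
      · have := le_card_sdiff C X
        omega
      · rw [sdiff_eq_self_of_disjoint (a1.2.mono_right c1)]
        exact a1.1)
    have c5 : Disjoint R C := disjoint_left.2 fun a ha => (mem_sdiff.1 (c3 ha)).2
    exact ⟨R, C, c4, c2, c5, fun a ha b hb => a4 a (mem_sdiff.1 (c3 ha)).1 b (c1 hb)
      fun e => disjoint_left.1 c5 ha (e ▸ hb)⟩
  rcases hF with h | h | h
  · exact key F Fᶜ (Or.inr ⟨by omega, disjoint_compl_right⟩) (by omega) (Or.inr disjoint_compl_right)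
      fun a ha b hb hab => (opp_iff h hab).2 fun e => mem_compl.1 hb (e.1 ha)
  · refine key F F (Or.inl (by omega)) (by omega) (Or.inl rfl) fun a ha b hb hab => ?_
    have := card_fl_mem ha
    have := card_fl_mem (A := fl F a) (d := b) (mem_fl.2 (iff_of_true hb hab.symm))
    omega
  · refine key Fᶜ Fᶜ (Or.inl (by omega)) (by omega) (Or.inl rfl) fun a ha b hb hab => ?_
    have := card_fl_not (mem_compl.1 ha)
    have := card_fl_not (A := fl F a) (d := b) fun e => mem_compl.1 hb ((mem_fl.1 e).2 hab.symm)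
    omega

theorem cell_adj {R C : Finset (Fin n)} (hd : Disjoint R C) {a a' b b' : Fin n} (ha : a ∈ R)
    (ha' : a' ∈ R) (hb : b ∈ C) (hb' : b' ∈ C) (haa : a ≠ a')
    (h : ds (fl (fl F a) b) (fl (fl F a') b') ≤ 2) : b = b' := by
  by_contra hbb
  have h1 : a ≠ b := fun e => disjoint_left.1 hd ha (e ▸ hb)
  have h2 : a ≠ b' := fun e => disjoint_left.1 hd ha (e ▸ hb')
  have h3 : a' ≠ b := fun e => disjoint_left.1 hd ha' (e ▸ hb)
  have h4 : a' ≠ b' := fun e => disjoint_left.1 hd ha' (e ▸ hb')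
  have h5 : ({a, a', b} : Finset (Fin n)) ⊆ symmDiff (fl (fl F a) b) (fl (fl F a') b') := by
    intro e he
    simp only [mem_insert, mem_singleton] at he
    simp only [mem_symmDiff, mem_fl]
    rcases he with rfl | rfl | rfl <;> grind
  have h6 := card_le_card h5
  rw [card_eq_three.2 ⟨a, a', b, haa, h1, h3, rfl⟩] at h6
  unfold ds at h
  omega

theorem cell_inj {R C : Finset (Fin n)} (hd : Disjoint R C) {a a' b b' : Fin n} (ha : a ∈ R)
    (ha' : a' ∈ R) (hb : b ∈ C) (hb' : b' ∈ C) (h : fl (fl F a) b = fl (fl F a') b') :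
    a = a' ∧ b = b' := by
  by_cases e : a = a'
  · subst e
    exact ⟨rfl, fl_inj h⟩
  · obtain rfl := cell_adj (F := F) hd ha ha' hb hb' e (by simp [h])
    rw [fl_comm, fl_comm _ a'] at h
    exact ⟨fl_inj h, rfl⟩

theorem Ax.small (h : Ax κ ρ U) (hb : ρ.bad = ∅) (hm : T.card ≤ m)
    (hT : ∀ t ∈ T, t ∈ U ∧ ρ.good t ∧ Lt ρ U t) {j : ℕ} (h1 : 8 * j ≤ ρ.r) (h2 : ρ.r + 8 * j ≤ n)
    (hj : 0 < j) (h3 : 3 * m ≤ 4 * j * j) : (j / 4 : ℝ) ^ j ≤ Ex U T := by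
  classical
  have hg : ∀ A, ρ.good A := fun A => by simp [Root.good, hb]
  obtain ⟨R, C, r1, r2, r3, r4⟩ := ex_grid h.F0e (s := 4 * j) (by omega) (by omega)
  have c0 : ∀ a ∈ R, ∀ b ∈ C, fl (fl ρ.F0 a) b ∈ obj ρ.r ρ.F0 := fun a ha b hb =>
    mem_obj.2 ⟨r4 a ha b hb, ds_comm _ _ ▸ ds_fl2 _ _ _⟩
  have a1 : ∀ t ∈ T, ((obj ρ.r ρ.F0).filter fun x => ds x t ≤ 2).card ≤ 3 := fun t ht => by
    obtain ⟨b1, -, b3⟩ := hT t ht
    have hr := h.pt t b1
    have b4 : ¬ ds t ρ.F0 ≤ 2 := fun hc => by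
      have key : ∀ d, ds (fl t d) ρ.F0 ≤ 1 → FL ρ U (fl t d) := fun d hd =>
        ⟨ln_fl hr d, hg _, (obj_sub (ln_fl hr d) hd).trans h.F0⟩
      rcases ev_pt h.F0e (mem_obj.2 ⟨hr, hc⟩) with e | ⟨a, b, hab, e⟩
      · obtain ⟨a, -, b, -, hab⟩ := one_lt_card.1 (show 1 < R.card by omega)
        exact hab (b3 a b (key a (by simp [e])) (key b (by simp [e])))
      · exact hab (b3 a b (key a (by simp [e])) (key b (by simp [e])))
    obtain ⟨c, hc⟩ := h.nbr b1 b3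
    refine le_trans (card_le_card fun x hx => ?_) (three_pts (F := ρ.F0) (ln_fl hr c) ?_)
    · obtain ⟨x1, x2⟩ := mem_filter.1 hx
      exact mem_inter.2 ⟨(hc x (h.F0 x1) x2).resolve_right fun ⟨d, h4, _⟩ => h4 (hg _), x1⟩
    · have := ds_tri t (fl t c) ρ.F0
      rw [ds_fl'] at this
      omega
  set Bl := T.biUnion fun t => (obj ρ.r ρ.F0).filter fun x => ds x t ≤ 2 with hBl
  have a2 : Bl.card ≤ 4 * j * j := (card_biUnion_le_card_mul _ _ _ a1).trans (by omega)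
  set Bd := R.filter fun a => 2 * j ≤ (C.filter fun b => fl (fl ρ.F0 a) b ∈ Bl).card with hBd
  have a3 : Bd.card * (2 * j) ≤ Bl.card * 1 := by
    refine card_mul_le_card_mul (fun a x => ∃ b ∈ C, x = fl (fl ρ.F0 a) b) (fun a ha => ?_)
      fun x _ => card_le_one.2 fun a ha a' ha' => ?_
    · refine (mem_filter.1 ha).2.trans (card_le_card_of_injOn (fl (fl ρ.F0 a)) (fun b hb => ?_)
        fun _ _ _ _ e => fl_inj e)
      exact mem_coe.2 ((mem_bipartiteAbove _).2 ⟨(mem_filter.1 hb).2, b, (mem_filter.1 hb).1, rfl⟩)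
    · obtain ⟨d1, b, d2, d3⟩ := (mem_bipartiteBelow _).1 ha
      obtain ⟨d4, b', d5, d6⟩ := (mem_bipartiteBelow _).1 ha'
      exact (cell_inj r3 (mem_filter.1 d1).1 (mem_filter.1 d4).1 d2 d5 (d3.symm.trans d6)).1
  have a4 : Bd.card ≤ 2 * j := Nat.le_of_mul_le_mul_right (c := 2 * j) (by nlinarith) (by omega)
  obtain ⟨I, i1, i2⟩ := exists_subset_card_eq (s := R \ Bd) (n := j) (by
    have := le_card_sdiff Bd R
    omega)
  have i3 : ∀ a ∈ I, a ∈ R := fun a ha => (mem_sdiff.1 (i1 ha)).1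
  set cand : Fin n → Finset (Finset (Fin n)) := fun a =>
    (C.filter fun b => fl (fl ρ.F0 a) b ∉ Bl).image (fl (fl ρ.F0 a)) with hcand
  have mc : ∀ a x, x ∈ cand a ↔ ∃ b, (b ∈ C ∧ fl (fl ρ.F0 a) b ∉ Bl) ∧ fl (fl ρ.F0 a) b = x :=
    fun a x => by simp only [hcand, mem_image, mem_filter]
  have main := sel I cand (fun _ => (1 / 4 : ℝ)) (fun _ => by norm_num) (fun _ => (j / 4 : ℝ))
    (fun _ => by positivity) (fun a ha a' ha' x x1 x2 => by
      obtain ⟨b, b1, rfl⟩ := (mc a x).1 x1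
      obtain ⟨b', b2, e⟩ := (mc a' _).1 x2
      exact (cell_inj r3 (i3 a ha) (i3 a' ha') b1.1 b2.1 e.symm).1) (by
    intro a ha J hJ haJ X hX
    obtain ⟨-, x1, -, x2⟩ := mem_Sel.1 hX
    have b1 : ¬ 2 * j ≤ (C.filter fun b => fl (fl ρ.F0 a) b ∈ Bl).card := fun hc =>
      (mem_sdiff.1 (i1 ha)).2 (mem_filter.2 ⟨i3 a ha, hc⟩)
    have b2 := card_filter_add_card_filter_not (s := C) fun b => fl (fl ρ.F0 a) b ∈ Bl
    have b3 : (cand a).card = (C.filter fun b => fl (fl ρ.F0 a) b ∉ Bl).card :=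
      card_image_of_injective _ fun _ _ e => fl_inj e
    have b4 := card_filter_add_card_filter_not (s := cand a) fun t => ∀ u ∈ X, 2 < ds t u
    have b5 : ((cand a).filter fun t => ¬ ∀ u ∈ X, 2 < ds t u).card * 1 ≤ X.card * 1 := by
      refine card_mul_le_card_mul (fun t u => ds t u ≤ 2) (fun t ht => ?_)
        fun u hu => card_le_one.2 fun t ht t' ht' => ?_
      · have := (mem_filter.1 ht).2
        push Not at this
        obtain ⟨u, u1, u2⟩ := this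
        exact card_pos.2 ⟨u, (mem_bipartiteAbove _).2 ⟨u1, u2⟩⟩
      · obtain ⟨a', d1, d2⟩ := x1 u hu
        obtain ⟨b', d3, rfl⟩ := (mc a' u).1 d2
        obtain ⟨d4, d5⟩ := (mem_bipartiteBelow _).1 ht
        obtain ⟨d6, d7⟩ := (mem_bipartiteBelow _).1 ht'
        obtain ⟨b, d8, rfl⟩ := (mc a t).1 (mem_filter.1 d4).1
        obtain ⟨c, d9, rfl⟩ := (mc a t').1 (mem_filter.1 d6).1
        have haa : a ≠ a' := fun e => haJ (e ▸ d1)
        rw [cell_adj r3 (i3 a ha) (i3 a' (hJ d1)) d8.1 d3.1 haa d5,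
          cell_adj r3 (i3 a ha) (i3 a' (hJ d1)) d9.1 d3.1 haa d7]
    have b6 := card_le_card hJ
    have b7 : (j : ℝ) ≤ ((cand a).filter fun t => ∀ u ∈ X, 2 < ds t u).card := by
      exact_mod_cast (by omega : j ≤ ((cand a).filter fun t => ∀ u ∈ X, 2 < ds t u).card)
    rw [sum_const, nsmul_eq_mul]
    linarith)
  simp only [prod_const, i2] at main
  refine main.trans (sum_le_sum_of_subset_of_nonneg (fun X hX => ?_) fun _ _ _ => by positivity)
  refine mem_SS.2 ⟨fun x hx => ?_, (mem_Sel.1 hX).1⟩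
  obtain ⟨a, ha, x1⟩ := (mem_Sel.1 hX).2.1 x hx
  obtain ⟨b, b1, rfl⟩ := (mc a x).1 x1
  have b2 := c0 a (i3 a ha) b b1.1
  exact mem_filter.2 ⟨h.F0 b2, fun t ht => not_le.1 fun hc =>
    b1.2 (mem_biUnion.2 ⟨t, ht, mem_filter.2 ⟨b2, hc⟩⟩)⟩

end Pool.Agent.Lib.MP_8860fd_co.J
end

-- part Pool.Agent.Lib.MP_8860fd_co.JCount
section

/-! Double counting and the numerical estimates. -/

namespace Pool.Agent.Lib.MP_8860fd_co.J

open Finset Filter

variable {n : ℕ}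

theorem mem_NB {M : Matroid (Fin n)} {r : ℕ} {x : Finset (Fin n)} :
    x ∈ NB M r ↔ x.card = r ∧ ¬ M.IsBase (x : Set (Fin n)) := by simp [NB]

theorem NB_inj {M M' : Matroid (Fin n)} {r : ℕ} (h1 : M.E = Set.univ) (h2 : M'.E = Set.univ)
    (h3 : ∀ B, M.IsBase B → B.ncard = r) (h4 : ∀ B, M'.IsBase B → B.ncard = r)
    (h : NB M r = NB M' r) : M = M' := by
  refine Matroid.ext_isBase (h1.trans h2.symm) fun B _ => ?_
  lift B to Finset (Fin n) using B.toFinite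
  have h5 := Finset.ext_iff.1 h B
  have h6 := h3 B
  have h7 := h4 B
  rw [mem_NB, mem_NB] at h5
  rw [Set.ncard_coe_finset] at h6 h7
  tauto

theorem sw_inj {N N' U T T' : Finset (Finset (Fin n))} (h1 : U ⊆ N) (h2 : U ⊆ N') (h3 : T ⊆ U)
    (h4 : T' ⊆ U) (h : N \ U ∪ T = N' \ U ∪ T') : N = N' ∧ T = T' := by
  have h5 := Finset.ext_iff.1 h
  simp only [Finset.mem_union, Finset.mem_sdiff] at h5
  constructor <;> ext x <;> have := h5 x <;> have := @h1 x <;> have := @h2 x <;> have := @h3 x <;>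
    have := @h4 x <;> tauto

theorem double (hsw : SwitchStmt) {K L κ : ℕ} {q Γ : ℝ} (h0 : 0 ≤ q) (h1 : q ≤ 1)
    (S : Set (Matroid (Fin n))) (R : Finset (Root n))
    (h : ∀ M ∈ S, M ∈ UC n K L ∧ ∃ ρ ∈ R, (∀ α, 0 ≤ wt ρ α) ∧ (∀ B, M.IsBase B → B.ncard = ρ.r) ∧
      ∃ U ⊆ NB M ρ.r, AdjCl (NB M ρ.r) U ∧ Γ ≤ ∑ T ∈ SS U, val q κ ρ ((NB M ρ.r \ U) ∪ T) U) :
    S.ncard * Γ ≤ R.card * (UC n K L).ncard := by
  classical
  have := finite_matroid n
  have := Fintype.ofFinite (Matroid (Fin n))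
  have hu := fun M hM => (h M hM).1
  have : Nonempty (Root n) := ⟨⟨0, 0, ∅, ∅, ∅⟩⟩
  choose! ρ h2 h3 h4 U h5 h6 h7 using fun M hM => (h M hM).2
  have key : ∀ M T, ∃ M', M ∈ S → T ∈ SS (U M) → M' ∈ UC n K L ∧
      (∀ B, M'.IsBase B → B.ncard = (ρ M).r) ∧ NB M' (ρ M).r = (NB M (ρ M).r \ U M) ∪ T := by
    intro M T
    by_cases hc : M ∈ S ∧ T ∈ SS (U M)
    · obtain ⟨M', a1, a2⟩ := hsw n K L _ M (hu M hc.1) (h4 M hc.1) (U M) T (h5 M hc.1) (h6 M hc.1)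
        (mem_SS.1 hc.2).1 (mem_SS.1 hc.2).2
      exact ⟨M', fun _ _ => ⟨a1, a2⟩⟩
    · exact ⟨M, fun a1 a2 => absurd ⟨a1, a2⟩ hc⟩
  choose sw hs using key
  set D := S.toFinset.sigma fun M => SS (U M) with hD
  set R' := R.filter fun ρ => ∀ α, 0 ≤ wt ρ α with hR'
  set φ : (Σ _ : Matroid (Fin n), Finset (Finset (Fin n))) →
    Root n × Matroid (Fin n) × Finset (Finset (Fin n)) := fun p => (ρ p.1, sw p.1 p.2, U p.1)
    with hφ
  have a1 : Set.InjOn φ D := by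
    rintro ⟨M, T⟩ hp ⟨M', T'⟩ hp' e
    simp only [hD, coe_sigma, Set.mem_sigma_iff, mem_coe, Set.mem_toFinset] at hp hp'
    simp only [hφ, Prod.mk.injEq] at e
    obtain ⟨e1, e2, e3⟩ := e
    have b1 := (hs M T hp.1 hp.2).2.2
    have b2 := (hs M' T' hp'.1 hp'.2).2.2
    have b3 := h5 M hp.1
    have b4 := h5 M' hp'.1
    have b5 := (mem_SS.1 hp.2).1
    have b6 := (mem_SS.1 hp'.2).1
    rw [← e1, ← e2, ← e3, b1] at b2
    rw [← e1, ← e3] at b4
    rw [← e3] at b6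
    obtain ⟨b7, rfl⟩ := sw_inj b3 b4 b5 b6 b2
    obtain rfl : M = M' := NB_inj (hu M hp.1).1 (hu M' hp'.1).1 (h4 M hp.1) (e1 ▸ h4 M' hp'.1) b7
    rfl
  calc S.ncard * Γ = ∑ _M ∈ S.toFinset, Γ := by
        rw [sum_const, nsmul_eq_mul, Set.ncard_eq_toFinset_card']
    _ ≤ ∑ M ∈ S.toFinset, ∑ T ∈ SS (U M), val q κ (ρ M) (NB (sw M T) (ρ M).r) (U M) := by
        refine sum_le_sum fun M hM => ?_
        have hM' := Set.mem_toFinset.1 hM
        exact (h7 M hM').trans (le_of_eq (sum_congr rfl fun T hT => by rw [(hs M T hM' hT).2.2]))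
    _ = ∑ p ∈ D.image φ, val q κ p.1 (NB p.2.1 p.1.r) p.2.2 := by
        rw [sum_image a1, sum_sigma']
    _ ≤ ∑ p ∈ R' ×ˢ (UC n K L).toFinset ×ˢ univ, val q κ p.1 (NB p.2.1 p.1.r) p.2.2 := by
        refine sum_le_sum_of_subset_of_nonneg (fun p hp => ?_) fun p hp _ =>
          val_nonneg h0 h1 (mem_filter.1 (mem_product.1 hp).1).2
        obtain ⟨x, hx, e⟩ := mem_image.1 hp
        obtain ⟨b1, b2⟩ := mem_sigma.1 hx
        rw [Set.mem_toFinset] at b1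
        rw [← e]
        exact mem_product.2 ⟨mem_filter.2 ⟨h2 _ b1, h3 _ b1⟩,
          mem_product.2 ⟨Set.mem_toFinset.2 (hs _ _ b1 b2).1, mem_univ _⟩⟩
    _ ≤ ∑ _ρ ∈ R', ∑ _M ∈ (UC n K L).toFinset, (1 : ℝ) := by
        rw [sum_product]
        refine sum_le_sum fun ρ hρ => ?_
        rw [sum_product]
        exact sum_le_sum fun M _ =>
          kraft (κ := κ) (ρ := ρ) (N' := NB M ρ.r) h0 h1 (mem_filter.1 hρ).2
    _ ≤ _ := by
        simp only [sum_const, nsmul_eq_mul, mul_one, Set.ncard_eq_toFinset_card']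
        gcongr
        exact filter_subset _ _

open Classical in
/-- roots with prescribed families of bad traces -/
noncomputable def Roots (n : ℕ) (B : Finset (Fin n) → Finset (Finset (Finset (Fin n)))) :
    Finset (Root n) :=
  ((range (n + 1) ×ˢ range (n + 1)) ×ˢ (univ : Finset (Finset (Fin n))) ×ˢ univ.sigma B).image
    fun p => ⟨p.1.1, p.1.2, p.2.2.1, p.2.2.2, p.2.1⟩

theorem mem_Roots {B : Finset (Fin n) → Finset (Finset (Finset (Fin n)))} {ρ : Root n}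
    (h1 : ρ.r ≤ n) (h2 : ρ.g ≤ n) (h3 : ρ.bad ∈ B ρ.G) : ρ ∈ Roots n B := by
  classical
  refine mem_image.2 ⟨((ρ.r, ρ.g), ρ.F0, ⟨ρ.G, ρ.bad⟩), ?_, rfl⟩
  simp only [mem_product, mem_range, mem_univ, mem_sigma, true_and]
  exact ⟨⟨by omega, by omega⟩, h3⟩

theorem card_Roots {B : Finset (Fin n) → Finset (Finset (Finset (Fin n)))} {β : ℕ}
    (h : ∀ G, (B G).card ≤ β) : ((Roots n B).card : ℝ) * (n + 1) ≤ Real.exp (5 * n) * β := by
  classical
  have h1 : (Roots n B).card ≤ (n + 1) * (n + 1) * (2 ^ n * (2 ^ n * β)) := by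
    refine card_image_le.trans ?_
    simp only [card_product, card_range, card_univ, Fintype.card_finset, Fintype.card_fin,
      card_sigma]
    gcongr
    simpa using sum_le_card_nsmul univ _ β fun G _ => h G
  have h2 : (n + 1 : ℝ) ≤ Real.exp n := Real.add_one_le_exp _
  have h3 : (2 : ℝ) ^ n ≤ Real.exp n := by
    rw [← mul_one (n : ℝ), Real.exp_nat_mul]
    gcongr
    linarith [Real.add_one_le_exp 1]
  have h4 : ((Roots n B).card : ℝ) ≤ (n + 1) * (n + 1) * (2 ^ n * (2 ^ n * β)) := by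
    exact_mod_cast h1
  calc ((Roots n B).card : ℝ) * (n + 1)
      ≤ Real.exp n * Real.exp n * (Real.exp n * (Real.exp n * β)) * Real.exp n := by
        refine mul_le_mul (h4.trans ?_) h2 (by positivity) (by positivity)
        gcongr
    _ = _ := by
        rw [show (5 * n : ℝ) = n + n + n + n + n by ring]
        simp only [Real.exp_add]
        ring

theorem cost {κ c g p u k a : ℕ} (hg : 0 < g) (hc : 0 < c) (h1 : n ≤ c * g)
    (h2 : 1200 * (κ + 1) * c * a * g * p ≤ 2 * u)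
    (h3 : u ≤ (κ + 1) * n * (k + 1)) (h4 : n + 1 ≤ 2 ^ a) (h5 : 100 * (κ + 1) ≤ n) :
    Real.exp (-(k + 1) / 25) ≤
      (1 / (n + 1) ^ 12 : ℝ) ^ p * (1 - 1 / (n + 1) ^ 12) ^ (u * (n + 1) ^ 10) := by
  have a1 : 600 * (a * p) ≤ k + 1 := by
    refine Nat.le_of_mul_le_mul_left (c := 2 * ((κ + 1) * (c * g))) ?_ (by positivity)
    have := Nat.mul_le_mul_right (k + 1) (Nat.mul_le_mul_left (κ + 1) h1)
    nlinarith
  have a2 : (600 * (a * p) : ℝ) ≤ k + 1 := by exact_mod_cast a1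
  have hn : (100 * (κ + 1) : ℝ) ≤ n := by exact_mod_cast h5
  have hκ : (0 : ℝ) ≤ κ := by positivity
  have b1 : Real.exp (-(k + 1) / 50) ≤ (1 / (n + 1) ^ 12 : ℝ) ^ p := by
    have c1 : (n + 1 : ℝ) ≤ Real.exp a := by
      calc (n + 1 : ℝ) ≤ 2 ^ a := by exact_mod_cast h4
        _ ≤ Real.exp 1 ^ a := by gcongr; linarith [Real.add_one_le_exp 1]
        _ = _ := by rw [← Real.exp_nat_mul, mul_one]
    calc Real.exp (-(k + 1) / 50) ≤ Real.exp (p * (-(12 * a))) := Real.exp_le_exp.2 (by nlinarith)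
      _ = (1 / Real.exp a ^ 12) ^ p := by
        rw [Real.exp_nat_mul, Real.exp_neg, ← Real.exp_nat_mul, one_div]
        norm_num
      _ ≤ _ := by gcongr
  have b2 : Real.exp (-(k + 1) / 50) ≤ (1 - 1 / (n + 1) ^ 12 : ℝ) ^ (u * (n + 1) ^ 10) := by
    set q : ℝ := 1 / (n + 1) ^ 12 with hq
    have q0 : 0 < q := by positivity
    have q1 : q ≤ 1 / 2 := one_div_le_one_div_of_le (by norm_num)
      (le_trans (by linarith) (le_self_pow₀ (by linarith) (by norm_num)))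
    have c1 : Real.exp (-(2 * q)) ≤ 1 - q := by
      rw [Real.exp_neg, inv_le_iff_one_le_mul₀ (Real.exp_pos _)]
      nlinarith [Real.add_one_le_exp (2 * q)]
    have c2 : (u : ℝ) ≤ (κ + 1) * n * (k + 1) := by exact_mod_cast h3
    calc Real.exp (-(k + 1) / 50) ≤ Real.exp ((u * (n + 1) ^ 10 : ℕ) * (-(2 * q))) := by
          refine Real.exp_le_exp.2 ?_
          have e : ((u * (n + 1) ^ 10 : ℕ) : ℝ) * (-(2 * q)) = -(2 * u / (n + 1) ^ 2) := by
            rw [hq]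
            push_cast
            field_simp
          rw [e, neg_div, neg_le_neg_iff, div_le_div_iff₀ (by positivity) (by norm_num)]
          have : (0 : ℝ) ≤ k + 1 := by positivity
          nlinarith [mul_le_mul_of_nonneg_right hn (show (0 : ℝ) ≤ n * (k + 1) by positivity)]
      _ ≤ _ := by
          rw [Real.exp_nat_mul]
          gcongr
  calc Real.exp (-(k + 1) / 25) = Real.exp (-(k + 1) / 50) * Real.exp (-(k + 1) / 50) := by
        rw [← Real.exp_add]; ring_nf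
    _ ≤ _ := mul_le_mul b1 b2 (by positivity) (by positivity)

theorem poly_le (C : ℕ) : ∀ᶠ a : ℕ in atTop, C * (a + 1) ^ 2 ≤ 2 ^ a := by
  have h := tendsto_pow_const_div_const_pow_of_one_lt 2 (r := 2) (by norm_num)
  filter_upwards [h.eventually (gt_mem_nhds (show (0 : ℝ) < 1 / (4 * C + 1) by positivity)),
    eventually_ge_atTop 1] with a h1 h2
  rw [div_lt_div_iff₀ (by positivity) (by positivity)] at h1
  have h3 : a ^ 2 * (4 * C + 1) < 1 * 2 ^ a := by exact_mod_cast h1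
  have h4 : (a + 1) ^ 2 ≤ 4 * a ^ 2 := by nlinarith
  nlinarith [Nat.mul_le_mul_left C h4]

theorem tend_log : Tendsto (fun n : ℕ => Nat.log 2 (n + 1)) atTop atTop :=
  tendsto_atTop.2 fun b => (eventually_ge_atTop (2 ^ b)).mono fun _ h =>
    Nat.le_log_of_pow_le (by norm_num) (by omega)

/-- the component of the initial points -/
theorem exists_comp {κ : ℕ} {ρ : Root n} {N : Finset (Finset (Fin n))} (h : Ax κ ρ N) :
    ∃ U ⊆ N, ρ.init ⊆ U ∧ AdjCl N U ∧ ∀ W, ρ.init ⊆ W → AdjCl U W → U ⊆ W := by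
  classical
  obtain ⟨U, hU, hmin⟩ := exists_min_image
    (N.powerset.filter fun U => ρ.init ⊆ U ∧ AdjCl N U) card
    ⟨N, mem_filter.2 ⟨mem_powerset_self _, h.init_sub, fun _ _ _ h _ => h⟩⟩
  obtain ⟨a1, a2, a3⟩ := mem_filter.1 hU
  refine ⟨U, mem_powerset.1 a1, a2, a3, fun W b1 b2 => ?_⟩
  have := hmin (U ∩ W) (mem_filter.2 ⟨mem_powerset.2 (inter_subset_left.trans (mem_powerset.1 a1)),
    subset_inter a2 b1, fun x hx y hy hd => by
      have := a3 x (mem_inter.1 hx).1 y hy hd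
      exact mem_inter.2 ⟨this, b2 x (mem_inter.1 hx).2 y this hd⟩⟩)
  rw [← eq_of_subset_of_card_le inter_subset_left this]
  exact inter_subset_right

theorem gain (κ c : ℕ) (hc : 0 < c) : ∀ᶠ n : ℕ in atTop, ∀ (ρ : Root n)
    (N : Finset (Finset (Fin n))), Ax κ ρ N → n ≤ 4 * ρ.r → 4 * ρ.r ≤ 3 * n → n ≤ c * ρ.g →
    ∃ U ⊆ N, AdjCl N U ∧
      (ρ.bad = ∅ → Real.exp (5 * n) ≤
        ∑ T ∈ SS U, val (1 / (n + 1) ^ 12) κ ρ ((N \ U) ∪ T) U) ∧
      (2 ^ (n / 8) ≤ ρ.init.card → Real.exp (5 * n) * (2 ^ 2 ^ (n / 500) : ℕ) ≤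
        ∑ T ∈ SS U, val (1 / (n + 1) ^ 12) κ ρ ((N \ U) ∪ T) U) := by
  obtain ⟨j0, hj0⟩ := exists_nat_ge (4 * Real.exp 448)
  filter_upwards [tend_log.eventually (poly_le (c * ((1200 * (κ + 1) * c) ^ 2 + 2))),
    (Nat.tendsto_div_const_atTop (n := 16) (by norm_num)).eventually (poly_le ((κ + 1) * 16 * 648)),
    eventually_ge_atTop (122880 * c * (κ + 1)), eventually_ge_atTop (32 * j0 + 64)]
    with n e1 e2 e3 e4 ρ N h r1 r2 r3
  obtain ⟨U, u1, u2, u3, u4⟩ := exists_comp h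
  have hU := h.comp u1 u2 u3
  set a := Nat.log 2 (n + 1) + 1 with ha
  have a1 : n + 1 ≤ 2 ^ a := (Nat.lt_pow_succ_log_self (by norm_num) _).le
  have a2 : 2 ^ Nat.log 2 (n + 1) ≤ n + 1 := Nat.pow_log_le_self 2 (by omega)
  have a3 : 1200 * (κ + 1) * c * a * (1200 * (κ + 1) * c * a) + 1 ≤ ρ.g := by
    refine Nat.le_of_mul_le_mul_left (c := c) ?_ hc
    have : 1 ≤ a ^ 2 := Nat.one_le_pow _ _ (by omega)
    nlinarith [Nat.mul_le_mul_left c this]
  have q0 : (0 : ℝ) ≤ 1 / (n + 1) ^ 12 := by positivity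
  have q1 : (1 / (n + 1) ^ 12 : ℝ) ≤ 1 := by
    rw [div_le_one (by positivity)]
    exact one_le_pow₀ (by linarith [Nat.cast_nonneg (α := ℝ) n])
  obtain ⟨p, m, t1, t2, t3⟩ := total hU u4 u3 q0 q1 a3
  have hcκ : κ + 1 ≤ c * (κ + 1) := Nat.le_mul_of_pos_left _ hc
  have hn : 0 < (κ + 1) * n := Nat.mul_pos (by omega) (by omega)
  set k := U.card / ((κ + 1) * n) with hk
  have k1 : (κ + 1) * n * k ≤ U.card := Nat.mul_div_le _ _
  have k2 : U.card < (κ + 1) * n * (k + 1) := Nat.lt_mul_div_succ _ hn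
  have hg := h.hg
  have c1 := cost (by omega) hc r3 t1 k2.le a1 (by nlinarith)
  have c2 : ∀ E x : ℝ, Real.exp x ≤ E → (∀ T, T.card ≤ m → (∀ t ∈ T, t ∈ U ∧ ρ.good t ∧ Lt ρ U t) →
      E ≤ 2 ^ m * Ex U T) → Real.exp (x - (k + 1) / 25) ≤
      ∑ T ∈ SS U, val (1 / (n + 1) ^ 12) κ ρ ((N \ U) ∪ T) U := fun E x h1 h2 => by
    refine le_trans ?_ (t3 E ((Real.exp_pos x).le.trans h1) h2)
    rw [sub_eq_neg_add, Real.exp_add, ← neg_div]
    exact mul_le_mul c1 h1 (by positivity) ((Real.exp_pos _).le.trans c1)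
  have c3 := c2 ((5 / 4) ^ k) (k * (1 / 5)) (by
    rw [Real.exp_nat_mul]
    gcongr
    have := Real.add_one_le_exp (-(1 / 5))
    rw [Real.exp_neg, le_inv_comm₀ (by norm_num) (Real.exp_pos _)] at this
    linarith) fun T h1 h2 => hU.large h1 h2 k1
  have hn1 : (64 : ℝ) ≤ n := by exact_mod_cast (by omega : 64 ≤ n)
  refine ⟨U, u1, u3, fun hb => ?_, fun hb => ?_⟩
  · by_cases hk' : 40 * n ≤ k
    · have : (40 * n : ℝ) ≤ k := by exact_mod_cast hk'
      exact le_trans (Real.exp_le_exp.2 (by linarith)) c3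
    set j := n / 32 with hj
    have j1 : (n : ℝ) ≤ 64 * j := by exact_mod_cast (by omega : n ≤ 64 * j)
    have j2 : (j0 : ℝ) ≤ j := by exact_mod_cast (by omega : j0 ≤ j)
    have j3 : (k + 1 : ℝ) ≤ 40 * n := by exact_mod_cast (by omega : k + 1 ≤ 40 * n)
    have j4 : m ≤ 40 * c * (κ + 1) * n := by
      refine Nat.le_of_mul_le_mul_right (c := n) ?_ (by omega)
      have b1 := t2 hb
      have b2 := Nat.mul_le_mul_left ((κ + 1) * n) (by omega : k + 1 ≤ 40 * n)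
      have b3 := Nat.mul_le_mul_left m r3
      have b4 := Nat.mul_le_mul_left c (b1.trans (k2.le.trans b2))
      nlinarith
    refine le_trans (Real.exp_le_exp.2 (by linarith)) (c2 ((j / 4) ^ j) (j * 448) (by
      rw [Real.exp_nat_mul]
      gcongr
      linarith) fun T h1 h2 => (hU.small hb h1 h2 (by omega) (by omega) (by omega) ?_).trans
        (le_mul_of_one_le_left (sum_nonneg fun _ _ => by positivity) (one_le_pow₀ (by norm_num))))
    have b1 : n ≤ 64 * j := by omega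
    nlinarith [Nat.mul_le_mul b1 b1, Nat.mul_le_mul_right n e3]
  · have b1 : 40 * n + 7 * 2 ^ (n / 500) ≤ k := by
      refine Nat.le_of_lt_succ (Nat.lt_of_mul_lt_mul_left (a := (κ + 1) * n)
        (lt_of_le_of_lt (le_trans ?_ (hb.trans (card_le_card u2))) k2))
      have d1 : 2 ^ (n / 16) * 2 ^ (n / 500) ≤ 2 ^ (n / 8) := by
        rw [← pow_add]
        exact Nat.pow_le_pow_right (by norm_num) (by omega)
      have d2 : 1 ≤ 2 ^ (n / 500) := Nat.one_le_two_pow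
      have d3 : n ≤ 16 * (n / 16 + 1) := by omega
      refine le_trans ?_ ((Nat.mul_le_mul_right _ e2).trans d1)
      generalize 2 ^ (n / 500) = y at *
      generalize n / 16 + 1 = s at *
      have d4 : 40 * n + 7 * y ≤ 648 * s * y := by nlinarith
      calc (κ + 1) * n * (40 * n + 7 * y) ≤ (κ + 1) * (16 * s) * (648 * s * y) := by gcongr
        _ = _ := by ring
    have b2 : (40 * n + 7 * (2 ^ (n / 500) : ℕ) : ℝ) ≤ k := by exact_mod_cast b1
    refine le_trans ?_ c3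
    generalize 2 ^ (n / 500) = y at *
    calc Real.exp (5 * n) * (2 ^ y : ℕ) ≤ Real.exp (5 * n) * Real.exp (y * 1) := by
          rw [Real.exp_nat_mul]
          push_cast
          gcongr
          linarith [Real.add_one_le_exp 1]
      _ ≤ _ := by
          rw [← Real.exp_add]
          exact Real.exp_le_exp.2 (by linarith [Nat.cast_nonneg (α := ℝ) y])

end Pool.Agent.Lib.MP_8860fd_co.J
end
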