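import Pool.Agent.Lib.MP_8860fd_co.JPay

-- part Pool.Agent.Lib.MP_8860fd_co.JRank
section

/-! Rank functions on finite sets and the bridge to matroids. -/

namespace Pool.Agent.Lib.MP_8860fd_co.J.Rt

open Finset

variable {n : ℕ}

/-- abstract rank function of total rank `r` -/
structure RK (r : ℕ) (rk : Finset (Fin n) → ℕ) : Prop where
  le : ∀ X, rk X ≤ X.card
  mono : ∀ X Y, X ⊆ Y → rk X ≤ rk Y
  sub : ∀ X Y, rk (X ∩ Y) + rk (X ∪ Y) ≤ rk X + rk Y
  top : rk univ = r

/-- the rank of a finite set in a matroid -/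
noncomputable def rkM (M : Matroid (Fin n)) (X : Finset (Fin n)) : ℕ :=
  (M.eRk (X : Set (Fin n))).toNat

/-- the `r`-sets of deficient rank -/
def NN (r : ℕ) (rk : Finset (Fin n) → ℕ) : Finset (Finset (Fin n)) :=
  univ.filter fun x => x.card = r ∧ rk x < r

theorem mem_NN {r : ℕ} {rk : Finset (Fin n) → ℕ} {x : Finset (Fin n)} :
    x ∈ NN r rk ↔ x.card = r ∧ rk x < r := by
  simp [NN]

section bridge

variable {M : Matroid (Fin n)} {r : ℕ}

theorem rkM_cast (M : Matroid (Fin n)) (X : Finset (Fin n)) :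
    ((rkM M X : ℕ) : ℕ∞) = M.eRk (X : Set (Fin n)) := by
  unfold rkM
  refine ENat.natCast_toNat (ne_top_of_le_ne_top ?_ (M.eRk_le_encard _))
  rw [Set.encard_coe_eq_coe_finsetCard]
  exact ENat.natCast_ne_top _

theorem eRank_eq (hr : ∀ B, M.IsBase B → B.ncard = r) : M.eRank = (r : ℕ∞) := by
  obtain ⟨B, hB⟩ := M.exists_isBase
  rw [← hB.encard_eq_eRank, ← hr B hB, (Set.toFinite B).cast_ncard_eq]

theorem rk_RK (hr : ∀ B, M.IsBase B → B.ncard = r) : RK r (rkM M) where
  le X := by
    have h := M.eRk_le_encard (X : Set (Fin n))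
    rw [← rkM_cast, Set.encard_coe_eq_coe_finsetCard] at h
    exact_mod_cast h
  mono X Y h := by
    have h1 : M.eRk (X : Set (Fin n)) ≤ M.eRk (Y : Set (Fin n)) :=
      M.eRk_mono (Finset.coe_subset.2 h)
    rw [← rkM_cast, ← rkM_cast] at h1
    exact_mod_cast h1
  sub X Y := by
    have h1 := M.eRk_inter_add_eRk_union_le (X : Set (Fin n)) (Y : Set (Fin n))
    rw [← Finset.coe_inter, ← Finset.coe_union, ← rkM_cast, ← rkM_cast, ← rkM_cast,
      ← rkM_cast] at h1
    exact_mod_cast h1
  top := by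
    have h1 := rkM_cast M univ
    rw [Finset.coe_univ, M.eRk_univ_eq, eRank_eq hr] at h1
    exact_mod_cast h1

theorem indep_iff (M : Matroid (Fin n)) (X : Finset (Fin n)) :
    M.Indep (X : Set (Fin n)) ↔ rkM M X = X.card := by
  rw [Matroid.indep_iff_eRk_eq_encard_of_finite (Set.toFinite _), ← rkM_cast,
    Set.encard_coe_eq_coe_finsetCard]
  exact_mod_cast Iff.rfl

theorem base_iff (hr : ∀ B, M.IsBase B → B.ncard = r) {X : Finset (Fin n)} (hX : X.card = r) :
    M.IsBase (X : Set (Fin n)) ↔ rkM M X = r := by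
  constructor
  · intro h
    rw [← hX]
    exact (indep_iff M X).1 h.indep
  · intro h
    refine ((indep_iff M X).2 (h.trans hX.symm)).isBase_of_eRk_ge (Set.toFinite _) ?_
    rw [eRank_eq hr, ← rkM_cast, h]

theorem NB_eq (hr : ∀ B, M.IsBase B → B.ncard = r) : NB M r = NN r (rkM M) := by
  ext x
  have h1 := (rk_RK hr).le x
  simp only [NB, NN, mem_filter, mem_univ, true_and]
  constructor
  · rintro ⟨h2, h3⟩
    rw [base_iff hr h2] at h3
    exact ⟨h2, by omega⟩
  · rintro ⟨h2, h3⟩
    rw [base_iff hr h2]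
    exact ⟨h2, by omega⟩

theorem spanning_iff (hE : M.E = Set.univ) (hr : ∀ B, M.IsBase B → B.ncard = r)
    (X : Finset (Fin n)) : M.Spanning (X : Set (Fin n)) ↔ r ≤ rkM M X := by
  have : M.RankFinite := by
    obtain ⟨B, hB⟩ := M.exists_isBase
    exact ⟨B, hB, Set.toFinite B⟩
  rw [Matroid.spanning_iff_eRk_le (by rw [hE]; exact Set.subset_univ _), eRank_eq hr,
    ← rkM_cast]
  exact_mod_cast Iff.rfl

theorem wit_iff (hE : M.E = Set.univ) (k l : ℕ) :
    Wit M r k l ↔ ∃ X : Finset (Fin n), rkM M X + k ≤ r ∧ rkM M X + l ≤ X.card := by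
  constructor
  · rintro ⟨X, hX⟩
    obtain ⟨I, hb⟩ := M.exists_isBasis X (by rw [hE]; exact Set.subset_univ _)
    obtain ⟨a1, a2⟩ := hX I hb.subset hb.indep
    refine ⟨(Set.toFinite X).toFinset, ?_⟩
    have h1 : rkM M (Set.toFinite X).toFinset = I.ncard := by
      have h2 := rkM_cast M (Set.toFinite X).toFinset
      rw [Set.Finite.coe_toFinset, ← hb.encard_eq_eRk, ← (Set.toFinite I).cast_ncard_eq] at h2
      exact_mod_cast h2
    rw [h1, ← Set.ncard_eq_toFinset_card X (Set.toFinite X)]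
    exact ⟨a1, a2⟩
  · rintro ⟨X, a1, a2⟩
    refine ⟨X, fun I hI hi => ?_⟩
    have h1 : I.ncard ≤ rkM M X := by
      have h2 : M.eRk I ≤ M.eRk (X : Set (Fin n)) := M.eRk_mono hI
      rw [hi.eRk_eq_encard, ← rkM_cast, ← (Set.toFinite I).cast_ncard_eq] at h2
      exact_mod_cast h2
    rw [Set.ncard_coe_finset]
    omega

end bridge

namespace RK

variable {r : ℕ} {rk : Finset (Fin n) → ℕ}

theorem le_r (h : RK r rk) (X : Finset (Fin n)) : rk X ≤ r :=
  h.top ▸ h.mono X univ (subset_univ X)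

theorem union_le (h : RK r rk) (X Y : Finset (Fin n)) : rk (X ∪ Y) ≤ rk X + (Y \ X).card := by
  have h1 := h.sub X (Y \ X)
  rw [union_sdiff_self_eq_union] at h1
  have h2 := h.le (Y \ X)
  omega

theorem le_add (h : RK r rk) (X Y : Finset (Fin n)) : rk Y ≤ rk X + (Y \ X).card :=
  (h.mono _ _ subset_union_right).trans (h.union_le X Y)

theorem nu_mono (h : RK r rk) {X Y : Finset (Fin n)} (hXY : X ⊆ Y) :
    X.card + rk Y ≤ Y.card + rk X := by
  have h1 := h.le_add X Y
  have h2 := card_sdiff_add_card_eq_card hXY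
  omega

theorem insert_le (h : RK r rk) (X : Finset (Fin n)) (c : Fin n) : rk (insert c X) ≤ rk X + 1 := by
  have h1 := h.nu_mono (subset_insert c X)
  have h2 := card_insert_le c X
  omega

theorem le_insert (h : RK r rk) (X : Finset (Fin n)) (c : Fin n) : rk X ≤ rk (insert c X) :=
  h.mono _ _ (subset_insert c X)

theorem indep_sub (h : RK r rk) {X Y : Finset (Fin n)} (hXY : X ⊆ Y) (hY : rk Y = Y.card) :
    rk X = X.card := by
  have h1 := h.nu_mono hXY
  have h2 := h.le X
  omega

theorem cl_mono (h : RK r rk) {S Y : Finset (Fin n)} {b : Fin n} (hSY : S ⊆ Y)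
    (hb : rk (insert b S) ≤ rk S) : rk (insert b Y) ≤ rk Y := by
  have h1 := h.sub (insert b S) Y
  have h2 : rk S ≤ rk (insert b S ∩ Y) :=
    h.mono _ _ (subset_inter (subset_insert b S) hSY)
  have h3 : rk (insert b Y) ≤ rk (insert b S ∪ Y) :=
    h.mono _ _ (insert_subset (mem_union_left _ (mem_insert_self b S)) subset_union_right)
  omega

theorem span (h : RK r rk) (A Z : Finset (Fin n)) (hZ : ∀ c ∈ Z, rk (insert c A) ≤ rk A) :
    rk (A ∪ Z) ≤ rk A := by
  induction Z using Finset.induction_on with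
  | empty => simp
  | insert c Z hc ih =>
    have h1 := ih fun d hd => hZ d (mem_insert_of_mem hd)
    have h2 := h.cl_mono (S := A) (Y := A ∪ Z) subset_union_left (hZ c (mem_insert_self c Z))
    rw [union_insert]
    omega

theorem coloop (h : RK r rk) (A S : Finset (Fin n)) (hS : S ⊆ A)
    (hc : ∀ c ∈ S, rk (A.erase c) < rk A) : rk (A \ S) + S.card ≤ rk A := by
  induction S using Finset.induction_on with
  | empty => simp
  | insert c S hcS ih =>
    have h1 := ih ((subset_insert c S).trans hS) fun d hd => hc d (mem_insert_of_mem hd)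
    have hcA : c ∈ A := hS (mem_insert_self c S)
    have h2 := hc c (mem_insert_self c S)
    have h3 : A \ insert c S ⊆ A.erase c := by
      intro x hx
      simp only [mem_sdiff, mem_insert, not_or, mem_erase] at hx ⊢
      exact ⟨hx.2.1, hx.1⟩
    have h4 : rk (A \ insert c S) < rk (insert c (A \ insert c S)) := by
      by_contra h5
      have h6 := h.cl_mono h3 (not_lt.1 h5)
      rw [insert_erase hcA] at h6
      omega
    have h7 : rk (insert c (A \ insert c S)) ≤ rk (A \ S) := by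
      refine h.mono _ _ fun x hx => ?_
      simp only [mem_sdiff, mem_insert, not_or] at hx ⊢
      rcases hx with rfl | hx
      · exact ⟨hcA, hcS⟩
      · exact ⟨hx.1, hx.2.2⟩
    rw [card_insert_of_notMem hcS]
    omega

theorem circ (h : RK r rk) (A : Finset (Fin n)) (hA : rk A < A.card) :
    rk (A.filter fun c => rk A ≤ rk (A.erase c)) < (A.filter fun c => rk A ≤ rk (A.erase c)).card := by
  have h1 := h.coloop A (A.filter fun c => ¬ rk A ≤ rk (A.erase c)) (filter_subset _ _)
    fun c hc => not_le.1 (mem_filter.1 hc).2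
  have h2 : A \ (A.filter fun c => ¬ rk A ≤ rk (A.erase c))
      = A.filter fun c => rk A ≤ rk (A.erase c) := by
    ext x
    simp only [mem_sdiff, mem_filter]
    tauto
  rw [h2] at h1
  have h3 := card_filter_add_card_filter_not (s := A) fun c => rk A ≤ rk (A.erase c)
  omega

/-- the elements that raise the rank contain a cocircuit -/
theorem cocirc (h : RK r rk) (A : Finset (Fin n)) :
    rk (univ.filter fun c => rk A < rk (insert c A))ᶜ ≤ rk A := by
  refine (h.mono _ _ subset_union_right).trans (h.span A _ fun c hc => ?_)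
  simpa using hc

end RK

theorem fl_mem {A : Finset (Fin n)} {d : Fin n} (hd : d ∈ A) : fl A d = A.erase d := by
  ext x
  simp only [fl, mem_symmDiff, mem_singleton, mem_erase]
  by_cases hx : x = d
  · subst hx; tauto
  · tauto

theorem fl_notMem {A : Finset (Fin n)} {d : Fin n} (hd : d ∉ A) : fl A d = insert d A := by
  ext x
  simp only [fl, mem_symmDiff, mem_singleton, mem_insert]
  by_cases hx : x = d
  · subst hx; tauto
  · tauto

theorem ds_eq (A B : Finset (Fin n)) : ds A B = (A \ B).card + (B \ A).card := by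
  unfold ds
  rw [symmDiff_def, sup_eq_union, card_union_of_disjoint disjoint_sdiff_sdiff]

theorem mem_obj {r : ℕ} {F x : Finset (Fin n)} : x ∈ obj r F ↔ x.card = r ∧ ds x F ≤ 2 := by
  simp [obj]

theorem ds_of_subset {A B : Finset (Fin n)} (h : A ⊆ B) : ds A B + A.card = B.card := by
  rw [ds_eq, sdiff_eq_empty_iff_subset.2 h, card_empty, zero_add, card_sdiff_add_card_eq_card h]

theorem ds_comm (A B : Finset (Fin n)) : ds A B = ds B A := by
  rw [ds_eq, ds_eq, add_comm]

theorem erase_mem_obj {r : ℕ} {F : Finset (Fin n)} (hF : F.card = r + 1) {c : Fin n} (hc : c ∈ F) :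
    F.erase c ∈ obj r F := by
  have h1 := ds_of_subset (erase_subset c F)
  have h2 := card_erase_add_one hc
  rw [mem_obj]
  omega

theorem insert_mem_obj {r : ℕ} {F : Finset (Fin n)} (hF : F.card + 1 = r) {c : Fin n}
    (hc : c ∉ F) : insert c F ∈ obj r F := by
  have h1 := ds_of_subset (subset_insert c F)
  have h2 := card_insert_of_notMem hc
  rw [mem_obj, ds_comm]
  omega

namespace RK

variable {r : ℕ} {rk : Finset (Fin n) → ℕ}

theorem obj_sub (h : RK r rk) {F : Finset (Fin n)}
    (hF : ∀ a b : ℕ, a + b ≤ 2 → r + b = F.card + a → rk F + a < r) : obj r F ⊆ NN r rk := by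
  intro x hx
  rw [mem_obj, ds_eq] at hx
  have h1 := card_sdiff_add_card_inter x F
  have h2 := card_sdiff_add_card_inter F x
  rw [inter_comm] at h2
  have h3 := hF _ _ hx.2 (by omega)
  have h4 := h.le_add F x
  exact mem_NN.2 ⟨hx.1, by omega⟩

theorem up_iff (h : RK r rk) {F : Finset (Fin n)} (hF : F.card = r + 1) :
    obj r F ⊆ NN r rk ↔ rk F < r := by
  refine ⟨fun hs => ?_, fun hs => h.obj_sub fun a b h1 h2 => by omega⟩
  have h1 := h.le_r F
  have h2 := h.circ F (by omega)
  obtain ⟨c, hc⟩ := card_pos.1 (lt_of_le_of_lt (Nat.zero_le _) h2)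
  rw [mem_filter] at hc
  have h3 := mem_NN.1 (hs (erase_mem_obj hF hc.1))
  omega

theorem down_iff (h : RK r rk) {F : Finset (Fin n)} (hF : F.card + 1 = r) :
    obj r F ⊆ NN r rk ↔ rk F + 1 < r := by
  refine ⟨fun hs => ?_, fun hs => h.obj_sub fun a b h1 h2 => by omega⟩
  by_contra h1
  have h2 := h.span F univ fun c _ => by
    by_cases hc : c ∈ F
    · rw [insert_eq_of_mem hc]
    · have h3 := mem_NN.1 (hs (insert_mem_obj hF hc))
      omega
  have h3 := h.le F
  have h4 := h.mono univ (F ∪ univ) subset_union_right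
  have h5 := h.top
  omega

end RK

end Pool.Agent.Lib.MP_8860fd_co.J.Rt
end

-- part Pool.Agent.Lib.MP_8860fd_co.JAx
section

/-! The axioms of the decoder for the family of non-bases. -/

namespace Pool.Agent.Lib.MP_8860fd_co.J.Rt

open Finset

variable {n : ℕ}

/-- the bad traces -/
def badS (r : ℕ) (rk : Finset (Fin n) → ℕ) (G : Finset (Fin n)) : Finset (Finset (Fin n)) :=
  G.powerset.filter fun τ => rk τ < τ.card ∨ rk (τ ∪ Gᶜ) < r

/-- good sets in rank language -/
def Gd (r : ℕ) (rk : Finset (Fin n) → ℕ) (G A : Finset (Fin n)) : Prop :=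
  (A ∩ G).card ≤ rk (A ∩ G) ∧ r ≤ rk (A ∪ Gᶜ)

theorem notMem_bad {r : ℕ} {rk : Finset (Fin n) → ℕ} {G A : Finset (Fin n)} :
    A ∩ G ∉ badS r rk G ↔ Gd r rk G A := by
  have h1 : A ∩ G ∪ Gᶜ = A ∪ Gᶜ := by
    ext x
    simp only [mem_union, mem_inter, mem_compl]
    tauto
  simp only [badS, Gd, mem_filter, mem_powerset, inter_subset_right, true_and, not_or, not_lt, h1]

namespace RK

variable {r : ℕ} {rk : Finset (Fin n) → ℕ}

theorem L1aux (h : RK r rk) {t : Finset (Fin n)} (ht : t ∈ NN r rk) {a b : Fin n} (ha : a ∈ t)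
    (hb : b ∉ t) (h2 : insert b (t.erase a) ∈ NN r rk) :
    obj r (fl t a) ⊆ NN r rk ∨ obj r (fl t b) ⊆ NN r rk := by
  rw [mem_NN] at ht h2
  rw [fl_mem ha, fl_notMem hb, h.down_iff (by rw [card_erase_add_one ha, ht.1]),
    h.up_iff (by rw [card_insert_of_notMem hb, ht.1])]
  have h3 := h.sub t (insert b (t.erase a))
  have h4 : rk (t.erase a) ≤ rk (t ∩ insert b (t.erase a)) :=
    h.mono _ _ (subset_inter (erase_subset a t) (subset_insert _ _))
  have h5 : rk (insert b t) ≤ rk (t ∪ insert b (t.erase a)) :=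
    h.mono _ _ (insert_subset (mem_union_right _ (mem_insert_self _ _)) subset_union_left)
  omega

theorem L1 (h : RK r rk) : ∀ t ∈ NN r rk, ∀ a b, a ≠ b → fl (fl t a) b ∈ NN r rk →
    obj r (fl t a) ⊆ NN r rk ∨ obj r (fl t b) ⊆ NN r rk := by
  intro t ht a b hab h2
  have c1 := (mem_NN.1 ht).1
  have c2 := (mem_NN.1 h2).1
  by_cases ha : a ∈ t <;> by_cases hb : b ∈ t
  · have hb' : b ∈ t.erase a := mem_erase.2 ⟨hab.symm, hb⟩
    rw [fl_mem ha, fl_mem hb'] at c2
    have := card_erase_add_one ha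
    have := card_erase_add_one hb'
    omega
  · rw [fl_mem ha, fl_notMem fun hh => hb (mem_of_mem_erase hh)] at h2
    exact h.L1aux ht ha hb h2
  · rw [fl_notMem ha, fl_mem (mem_insert_of_mem hb), erase_insert_of_ne hab] at h2
    exact (h.L1aux ht hb ha h2).symm
  · have hb' : b ∉ insert a t := fun hh => (mem_insert.1 hh).elim (fun e => hab e.symm) hb
    rw [fl_notMem ha, fl_notMem hb', card_insert_of_notMem hb', card_insert_of_notMem ha] at c2
    omega

theorem L2 (h : RK r rk) : ∀ t : Finset (Fin n), t.card = r → ∀ a b, a ≠ b → (a ∈ t ↔ b ∈ t) →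
    obj r (fl t a) ⊆ NN r rk → obj r (fl t b) ⊆ NN r rk →
    obj r t ⊆ NN r rk ∨ obj r (fl (fl t a) b) ⊆ NN r rk := by
  intro t ht a b hab hiff h1 h2
  by_cases hr : rk t + 1 < r
  · exact Or.inl (h.obj_sub fun a b c1 c2 => by omega)
  right
  by_cases ha : a ∈ t
  · have hb := hiff.1 ha
    have hb' : b ∈ t.erase a := mem_erase.2 ⟨hab.symm, hb⟩
    have c1 := card_erase_add_one ha
    have c2 := card_erase_add_one hb
    have c3 := card_erase_add_one hb'
    rw [fl_mem ha, h.down_iff (by omega)] at h1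
    rw [fl_mem hb, h.down_iff (by omega)] at h2
    rw [fl_mem ha, fl_mem hb']
    have c4 := h.sub (t.erase a) (t.erase b)
    have c5 : rk ((t.erase a).erase b) ≤ rk (t.erase a ∩ t.erase b) :=
      h.mono _ _ (subset_inter (erase_subset _ _) (erase_subset_erase b (erase_subset a t)))
    have c6 : rk t ≤ rk (t.erase a ∪ t.erase b) := by
      refine h.mono _ _ fun x hx => ?_
      by_cases hxa : x = a
      · exact mem_union_right _ (mem_erase.2 ⟨hxa ▸ hab, hx⟩)
      · exact mem_union_left _ (mem_erase.2 ⟨hxa, hx⟩)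
    exact h.obj_sub fun a b d1 d2 => by omega
  · have hb : b ∉ t := fun hh => ha (hiff.2 hh)
    have hb' : b ∉ insert a t := fun hh => (mem_insert.1 hh).elim (fun e => hab e.symm) hb
    have c1 := card_insert_of_notMem ha
    have c2 := card_insert_of_notMem hb
    have c3 := card_insert_of_notMem hb'
    rw [fl_notMem ha, h.up_iff (by omega)] at h1
    rw [fl_notMem hb, h.up_iff (by omega)] at h2
    rw [fl_notMem ha, fl_notMem hb']
    have c4 := h.sub (insert a t) (insert b t)
    have c5 : rk t ≤ rk (insert a t ∩ insert b t) :=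
      h.mono _ _ (subset_inter (subset_insert _ _) (subset_insert _ _))
    have c6 : rk (insert b (insert a t)) ≤ rk (insert a t ∪ insert b t) :=
      h.mono _ _ (insert_subset (mem_union_right _ (mem_insert_self _ _)) subset_union_left)
    exact h.obj_sub fun a b d1 d2 => by omega

theorem T1 (h : RK r rk) (G : Finset (Fin n)) : ∀ t : Finset (Fin n), t.card = r →
    ¬ Gd r rk G t → t ∈ NN r rk := by
  intro t ht hg
  refine mem_NN.2 ⟨ht, ?_⟩
  by_contra c1
  have c2 := h.le t
  have c3 := h.indep_sub (inter_subset_left (s₁ := t) (s₂ := G)) (by omega)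
  have c4 := h.mono t (t ∪ Gᶜ) subset_union_left
  exact hg ⟨by omega, by omega⟩

theorem T2 (h : RK r rk) {G : Finset (Fin n)} {th : ℕ}
    (H1 : ∀ D : Finset (Fin n), D.card ≤ th → (G ∪ D).card + rk G ≤ G.card + rk (G ∪ D))
    (H2 : ∀ D : Finset (Fin n), D.card ≤ th → rk Gᶜ ≤ rk (G ∪ D)ᶜ) :
    ∀ t ∈ NN r rk, Gd r rk G t → ∀ d, (obj r (fl t d) \ NN r rk).card ≤ th →
      obj r (fl t d) ⊆ NN r rk := by
  intro t ht hg d hc
  rw [mem_NN] at ht
  by_cases hd : d ∈ t
  · have c1 := card_erase_add_one hd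
    rw [fl_mem hd] at hc ⊢
    rw [h.down_iff (by omega)]
    by_contra c2
    set F := t.erase d with hF
    set D := univ.filter fun c => rk F < rk (insert c F) with hD
    have c3 : rk Dᶜ ≤ rk F := h.cocirc F
    have c4 := h.le F
    have hDF : ∀ c ∈ D, c ∉ F := fun c hc hcF => by
      have := (mem_filter.1 hc).2
      rw [insert_eq_of_mem hcF] at this
      omega
    have c5 : D.card ≤ th := by
      refine le_trans (card_le_card_of_injOn (fun c => insert c F) (fun c hc => ?_) ?_) hc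
      · have c6 := (mem_filter.1 (mem_coe.1 hc)).2
        refine mem_coe.2 (mem_sdiff.2 ⟨insert_mem_obj (by omega) (hDF c (mem_coe.1 hc)), ?_⟩)
        simp only [mem_NN]
        omega
      · intro c hc c' _ hcc
        have c7 : c ∈ insert c' F := by
          have c8 : insert c F = insert c' F := hcc
          rw [← c8]
          exact mem_insert_self _ _
        exact (mem_insert.1 c7).resolve_right (hDF c (mem_coe.1 hc))
    have c9 : t ⊆ Dᶜ := by
      intro x hx
      rw [mem_compl]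
      intro hxD
      by_cases hxd : x = d
      · have := (mem_filter.1 hxD).2
        rw [hxd, hF, insert_erase hd, ← hF] at this
        omega
      · exact hDF x hxD (mem_erase.2 ⟨hxd, hx⟩)
    have d1 := H2 D c5
    rw [compl_union] at d1
    have d2 := h.sub Gᶜ Dᶜ
    have d3 : rk (t ∪ Gᶜ) ≤ rk (Gᶜ ∪ Dᶜ) :=
      h.mono _ _ (union_subset (c9.trans subset_union_right) subset_union_left)
    have d4 := hg.2
    omega
  · have c1 := card_insert_of_notMem hd
    rw [fl_notMem hd] at hc ⊢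
    rw [h.up_iff (by omega)]
    by_contra c2
    set F := insert d t with hF
    have c4 := h.le_r F
    have c3 := h.circ F (by omega)
    set D := F.filter fun c => rk F ≤ rk (F.erase c) with hD
    have c5 : D.card ≤ th := by
      refine le_trans (card_le_card_of_injOn (fun c => F.erase c) (fun c hc => ?_) ?_) hc
      · have c6 := mem_filter.1 (mem_coe.1 hc)
        refine mem_coe.2 (mem_sdiff.2 ⟨erase_mem_obj (by omega) c6.1, ?_⟩)
        simp only [mem_NN]
        omega
      · intro c hc c' _ hcc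
        by_contra hne
        have c7 : c ∈ F.erase c' := mem_erase.2 ⟨hne, (mem_filter.1 (mem_coe.1 hc)).1⟩
        have c8 : F.erase c = F.erase c' := hcc
        rw [← c8] at c7
        exact notMem_erase c F c7
    have c9 : D ⊆ t := by
      intro x hx
      have c6 := mem_filter.1 hx
      refine (mem_insert.1 c6.1).resolve_left fun hxd => ?_
      have c7 := c6.2
      rw [hxd, hF, erase_insert hd, ← hF] at c7
      omega
    have d1 := H1 D c5
    have d2 := h.sub G D
    have d3 := card_inter_add_card_union G D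
    have d4 := h.le (t ∩ G)
    have d5 := hg.1
    have d6 := h.indep_sub (X := G ∩ D) (Y := t ∩ G)
      (subset_inter (inter_subset_right.trans c9) inter_subset_left) (by omega)
    omega

theorem up_bad (h : RK r rk) {G t : Finset (Fin n)} (hg : Gd r rk G t) {F : Finset (Fin n)}
    (hF : t ⊆ F) (hb : ¬ Gd r rk G F) : rk (F ∩ G) < (F ∩ G).card := by
  by_contra c1
  exact hb ⟨not_lt.1 c1, hg.2.trans (h.mono _ _ (union_subset_union hF subset_rfl))⟩

theorem down_bad (h : RK r rk) {G t : Finset (Fin n)} (hg : Gd r rk G t) {F : Finset (Fin n)}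
    (hF : F ⊆ t) (hb : ¬ Gd r rk G F) : rk (F ∪ Gᶜ) < r := by
  by_contra c1
  have c2 := h.le (t ∩ G)
  have c3 := hg.1
  exact hb ⟨(h.indep_sub (X := F ∩ G) (Y := t ∩ G) (inter_subset_inter_right hF)
    (by omega)).ge, not_lt.1 c1⟩

open Classical in
theorem T3 (h : RK r rk) {G : Finset (Fin n)}
    (N1 : ∀ X : Finset (Fin n), X.card ≤ 2 → X.card ≤ rk X)
    (N2 : ∀ X : Finset (Fin n), X.card ≤ 2 → r ≤ rk Xᶜ) :
    ∀ t : Finset (Fin n), t.card = r → Gd r rk G t → ∀ d, ¬ Gd r rk G (fl t d) →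
      3 ≤ ((obj r (fl t d)).filter (Gd r rk G)).card := by
  intro t ht hg d hb
  by_cases hd : d ∈ t
  · have c1 := card_erase_add_one hd
    rw [fl_mem hd] at hb ⊢
    set F := t.erase d with hF
    have c2 := h.down_bad hg (erase_subset d t) hb
    rw [← hF] at c2
    set H := F ∪ Gᶜ with hH
    have c3 : r ≤ rk H + 1 := by
      refine hg.2.trans ((h.mono _ _ ?_).trans (h.insert_le H d))
      rw [hH, ← insert_union, hF, insert_erase hd]
    set D := univ.filter fun c => rk H < rk (insert c H) with hD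
    have c4 : rk Dᶜ ≤ rk H := h.cocirc H
    have c5 : 3 ≤ D.card := by
      by_contra c6
      have := N2 D (by omega)
      omega
    have hDH : ∀ c ∈ D, c ∉ H := fun c hc hcH => by
      have := (mem_filter.1 hc).2
      rw [insert_eq_of_mem hcH] at this
      omega
    have hDF : ∀ c ∈ D, c ∉ F := fun c hc hcF => hDH c hc (mem_union_left _ hcF)
    have e1 := h.le (t ∩ G)
    have e2 := hg.1
    have e3 := h.indep_sub (X := F ∩ G) (Y := t ∩ G)
      (inter_subset_inter_right (erase_subset d t)) (by omega)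
    refine c5.trans (card_le_card_of_injOn (fun c => insert c F) (fun c hc => ?_) ?_)
    · have c6 := (mem_filter.1 (mem_coe.1 hc)).2
      refine mem_coe.2 (mem_filter.2 ⟨insert_mem_obj (by omega) (hDF c (mem_coe.1 hc)), ?_, ?_⟩)
      · have c7 : c ∈ G := by
          by_contra c8
          exact hDH c (mem_coe.1 hc) (mem_union_right _ (mem_compl.2 c8))
        simp only
        rw [insert_inter_of_mem c7]
        have c9 := card_insert_le c (F ∩ G)
        by_contra d1
        have d2 := h.cl_mono (S := F ∩ G) (Y := H) (b := c)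
          (inter_subset_left.trans subset_union_left) (by omega)
        omega
      · simp only
        rw [insert_union, ← hH]
        omega
    · intro c hc c' _ hcc
      have c7 : c ∈ insert c' F := by
        have c8 : insert c F = insert c' F := hcc
        rw [← c8]
        exact mem_insert_self _ _
      exact (mem_insert.1 c7).resolve_right (hDF c (mem_coe.1 hc))
  · have c1 := card_insert_of_notMem hd
    rw [fl_notMem hd] at hb ⊢
    set F := insert d t with hF
    have c2 := h.up_bad hg (subset_insert d t) hb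
    rw [← hF] at c2
    set A := F ∩ G with hA
    have c3 := h.circ A c2
    set D := A.filter fun c => rk A ≤ rk (A.erase c) with hD
    have c5 : 3 ≤ D.card := by
      by_contra c6
      have := N1 D (by omega)
      omega
    have e1 : A.card ≤ (t ∩ G).card + 1 := by
      refine (card_le_card (t := insert d (t ∩ G)) fun x hx => ?_).trans (card_insert_le _ _)
      simp only [hA, hF, mem_inter, mem_insert] at hx ⊢
      tauto
    have e2 : rk (t ∩ G) ≤ rk A := h.mono _ _ (inter_subset_inter_right (subset_insert d t))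
    have e3 := hg.1
    refine c5.trans (card_le_card_of_injOn (fun c => F.erase c) (fun c hc => ?_) ?_)
    · have c6 := mem_filter.1 (mem_coe.1 hc)
      have c7 : c ∈ F := (mem_inter.1 c6.1).1
      have c8 : F.erase c ∩ G = A.erase c := by rw [erase_inter]
      refine mem_coe.2 (mem_filter.2 ⟨erase_mem_obj (by omega) c7, ?_, ?_⟩)
      · simp only
        rw [c8]
        have := card_erase_add_one c6.1
        have := c6.2
        omega
      · simp only
        have d1 := h.cl_mono (S := A.erase c) (Y := F.erase c ∪ Gᶜ) (b := c)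
          ((erase_subset_erase c inter_subset_left).trans subset_union_left)
          (by rw [insert_erase c6.1]; exact c6.2)
        rw [← insert_union, insert_erase c7] at d1
        exact hg.2.trans ((h.mono _ _ (union_subset_union (subset_insert d t) subset_rfl)).trans d1)
    · intro c hc c' _ hcc
      by_contra hne
      have c7 : c ∈ F.erase c' :=
        mem_erase.2 ⟨hne, (mem_inter.1 (mem_filter.1 (mem_coe.1 hc)).1).1⟩
      have c8 : F.erase c = F.erase c' := hcc
      rw [← c8] at c7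
      exact notMem_erase c F c7

open Classical in
theorem T4 (h : RK r rk) {G : Finset (Fin n)} {κ : ℕ} (H3 : G.card + r ≤ κ + rk G + rk Gᶜ) :
    ∀ t : Finset (Fin n), Gd r rk G t →
      (univ.filter fun d => ¬ Gd r rk G (fl t d)).card ≤ κ := by
  intro t hg
  set S := univ.filter fun d => ¬ Gd r rk G (fl t d) with hS
  have hS' : ∀ d ∈ S, ¬ Gd r rk G (fl t d) := fun d hd => (mem_filter.1 hd).2
  have c0 := card_sdiff_add_card_inter S t
  have e3 := hg.1
  have up : ∀ d ∈ S \ t, d ∈ G ∧ rk (insert d (t ∩ G)) ≤ rk (t ∩ G) := by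
    intro d hd
    rw [mem_sdiff] at hd
    have c1 := hS' d hd.1
    rw [fl_notMem hd.2] at c1
    have c2 := h.up_bad hg (subset_insert d t) c1
    by_cases hdG : d ∈ G
    · rw [insert_inter_of_mem hdG] at c2
      have := card_insert_le d (t ∩ G)
      exact ⟨hdG, by omega⟩
    · rw [insert_inter_of_notMem hdG] at c2
      omega
  have d1 := h.span (t ∩ G) (S \ t) fun d hd => (up d hd).2
  have d2 := h.nu_mono (X := t ∩ G ∪ S \ t) (Y := G)
    (union_subset inter_subset_right fun d hd => (up d hd).1)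
  have d3 : (t ∩ G ∪ S \ t).card = (t ∩ G).card + (S \ t).card :=
    card_union_of_disjoint (disjoint_left.2 fun x hx hx' =>
      (mem_sdiff.1 hx').2 (mem_inter.1 hx).1)
  have d4 := h.le (t ∩ G)
  have down : ∀ d ∈ S ∩ t, d ∈ G ∧ rk ((t ∪ Gᶜ).erase d) < rk (t ∪ Gᶜ) := by
    intro d hd
    rw [mem_inter] at hd
    have c1 := hS' d hd.1
    rw [fl_mem hd.2] at c1
    have c2 := h.down_bad hg (erase_subset d t) c1
    have c3 := hg.2
    have c4 : rk ((t ∪ Gᶜ).erase d) ≤ rk (t.erase d ∪ Gᶜ) := by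
      refine h.mono _ _ fun x hx => ?_
      simp only [mem_erase, mem_union] at hx ⊢
      tauto
    refine ⟨?_, by omega⟩
    by_contra hdG
    have c5 : rk (t ∪ Gᶜ) ≤ rk (t.erase d ∪ Gᶜ) := by
      refine h.mono _ _ fun x hx => ?_
      by_cases hxd : x = d
      · exact mem_union_right _ (mem_compl.2 (hxd ▸ hdG))
      · simp only [mem_erase, mem_union] at hx ⊢
        tauto
    omega
  have d5 := h.coloop (t ∪ Gᶜ) (S ∩ t) (inter_subset_right.trans subset_union_left)
    fun d hd => (down d hd).2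
  have d6 : rk Gᶜ ≤ rk ((t ∪ Gᶜ) \ (S ∩ t)) := by
    refine h.mono _ _ fun x hx => mem_sdiff.2 ⟨mem_union_right _ hx, fun hx' => ?_⟩
    exact mem_compl.1 hx (down x hx').1
  have d7 := h.le_r (t ∪ Gᶜ)
  omega

theorem T5 (h : RK r rk) {G : Finset (Fin n)} : ∀ t : Finset (Fin n), Gd r rk G t →
    ∀ a b, a ≠ b → (a ∈ t ↔ b ∈ t) → ¬ Gd r rk G (fl t a) → ¬ Gd r rk G (fl (fl t a) b) := by
  intro t hg a b hab hiff hb1 hg2
  by_cases ha : a ∈ t
  · have hb' : b ∈ t.erase a := mem_erase.2 ⟨hab.symm, hiff.1 ha⟩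
    rw [fl_mem ha] at hb1
    rw [fl_mem ha, fl_mem hb'] at hg2
    have c1 := h.down_bad hg (erase_subset a t) hb1
    have c2 := hg2.2
    have c3 := h.mono _ _ (union_subset_union (erase_subset b (t.erase a)) (subset_rfl (a := Gᶜ)))
    omega
  · have hb' : b ∉ insert a t := fun hh =>
      (mem_insert.1 hh).elim (fun e => hab e.symm) fun hh => ha (hiff.2 hh)
    rw [fl_notMem ha] at hb1
    rw [fl_notMem ha, fl_notMem hb'] at hg2
    have c1 := h.up_bad hg (subset_insert a t) hb1
    have c2 := hg2.1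
    have c3 := h.le (insert b (insert a t) ∩ G)
    have c4 := h.indep_sub (X := insert a t ∩ G) (Y := insert b (insert a t) ∩ G)
      (inter_subset_inter_right (subset_insert _ _)) (by omega)
    omega

theorem resize (h : RK r rk) {X : Finset (Fin n)} {k l m : ℕ} (hm : m + k = r + l) (hn : m ≤ n)
    (h1 : rk X + k ≤ r) (h2 : rk X + l ≤ X.card) :
    ∃ F : Finset (Fin n), F.card = m ∧ rk F + k ≤ r := by
  by_cases hX : m ≤ X.card
  · obtain ⟨F, hF, hc⟩ := exists_subset_card_eq hX
    have := h.mono _ _ hF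
    exact ⟨F, hc, by omega⟩
  · obtain ⟨F, hF, hc⟩ := exists_superset_card_eq (s := X) (n := m) (by omega) (by simpa using hn)
    have := h.nu_mono hF
    exact ⟨F, hc, by omega⟩

theorem F0 (h : RK r rk) {X : Finset (Fin n)} {k l : ℕ} (hk : 0 < k) (hl : 0 < l)
    (hkl : 4 ≤ k + l) (hn : r + 2 ≤ n) (hr : 2 ≤ r) (h1 : rk X + k ≤ r)
    (h2 : rk X + l ≤ X.card) : ∃ F : Finset (Fin n), obj r F ⊆ NN r rk ∧
      (F.card = r ∨ F.card = r + 2 ∨ F.card + 2 = r) := by
  by_cases c1 : 3 ≤ k
  · obtain ⟨F, hF, hc⟩ := h.resize (X := X) (k := 3) (l := 1) (m := r - 2) (by omega) (by omega)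
      (by omega) (by omega)
    exact ⟨F, h.obj_sub fun a b d1 d2 => by omega, by omega⟩
  by_cases c2 : 3 ≤ l
  · obtain ⟨F, hF, hc⟩ := h.resize (X := X) (k := 1) (l := 3) (m := r + 2) (by omega) (by omega)
      (by omega) (by omega)
    exact ⟨F, h.obj_sub fun a b d1 d2 => by omega, by omega⟩
  · obtain ⟨F, hF, hc⟩ := h.resize (X := X) (k := 2) (l := 2) (m := r) (by omega) (by omega)
      (by omega) (by omega)
    exact ⟨F, h.obj_sub fun a b d1 d2 => by omega, by omega⟩

end RK

end Pool.Agent.Lib.MP_8860fd_co.J.Rt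
end

-- part Pool.Agent.Lib.MP_8860fd_co.JSwitch
section

/-! The switching produces a matroid of the class. -/

namespace Pool.Agent.Lib.MP_8860fd_co.J.Rt

open Finset

variable {n : ℕ}

theorem ds_swap (X : Finset (Fin n)) (a b : Fin n) :
    ds X (insert b (X.erase a)) ≤ 2 := by
  rw [ds_eq]
  have h1 : X \ insert b (X.erase a) ⊆ {a} := by
    intro x hx
    simp only [mem_sdiff, mem_insert, mem_erase, not_or, not_and, mem_singleton] at hx ⊢
    by_contra h
    exact hx.2.2 h hx.1
  have h2 : insert b (X.erase a) \ X ⊆ {b} := by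
    intro x hx
    simp only [mem_sdiff, mem_insert, mem_erase, mem_singleton] at hx ⊢
    tauto
  have h3 := card_le_card h1
  have h4 := card_le_card h2
  rw [card_singleton] at h3 h4
  omega

theorem card_swap {X : Finset (Fin n)} {a b : Fin n} (ha : a ∈ X) (hb : b ∉ X) :
    (insert b (X.erase a)).card = X.card := by
  rw [card_insert_of_notMem fun h => hb (mem_of_mem_erase h), card_erase_add_one ha]

theorem ds_ins {S : Finset (Fin n)} (y z : Fin n) : ds (insert y S) (insert z S) ≤ 2 := by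
  rw [ds_eq]
  have h1 : ∀ y z : Fin n, (insert y S \ insert z S).card ≤ 1 := by
    intro y z
    refine (card_le_card (t := {y}) fun x hx => ?_).trans (card_singleton y).le
    simp only [mem_sdiff, mem_insert, mem_singleton] at hx ⊢
    tauto
  have := h1 y z
  have := h1 z y
  omega

theorem conn {r : ℕ} {N U : Finset (Finset (Fin n))} (hU : AdjCl N U) {W : Finset (Fin n)}
    (hW : ∀ X ⊆ W, X.card = r → X ∈ N) {Y : Finset (Fin n)} (hY : Y ⊆ W) (hYr : Y.card = r) :
    ∀ m : ℕ, ∀ X ⊆ W, X.card = r → X ∈ U → (X \ Y).card = m → Y ∈ U := by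
  intro m
  induction m with
  | zero =>
    intro X _ hX hXU h0
    rw [card_eq_zero, sdiff_eq_empty_iff_subset] at h0
    rw [← eq_of_subset_of_card_le h0 (by omega)]
    exact hXU
  | succ m ih =>
    intro X hXW hX hXU hm
    obtain ⟨a, ha⟩ := card_pos.1 (show 0 < (X \ Y).card by omega)
    have h1 := card_sdiff_comm (hX.trans hYr.symm)
    obtain ⟨b, hb⟩ := card_pos.1 (show 0 < (Y \ X).card by omega)
    rw [mem_sdiff] at ha hb
    have h2 : insert b (X.erase a) ⊆ W :=
      insert_subset (hY hb.1) ((erase_subset a X).trans hXW)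
    have h3 : (insert b (X.erase a)).card = r := (card_swap ha.1 hb.2).trans hX
    refine ih _ h2 h3 (hU X hXU _ (hW _ h2 h3) (ds_swap _ _ _)) ?_
    have h4 : insert b (X.erase a) \ Y = (X \ Y).erase a := by
      ext x
      simp only [mem_sdiff, mem_insert, mem_erase]
      constructor
      · rintro ⟨rfl | h, h'⟩
        · exact absurd hb.1 h'
        · exact ⟨h.1, h.2, h'⟩
      · rintro ⟨h, h', h''⟩
        exact ⟨Or.inr ⟨h, h'⟩, h''⟩
    have h5 := card_erase_add_one (mem_sdiff.2 ha)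
    rw [h4]
    omega

theorem exch {r : ℕ} {rk : Finset (Fin n) → ℕ} (h : RK r rk) {U T : Finset (Finset (Fin n))}
    (hU : AdjCl (NN r rk) U) (hUN : U ⊆ NN r rk) (hTU : T ⊆ U) (hT : Stab T)
    {B1 B2 : Finset (Fin n)} (h1 : B1.card = r) (h2 : B2.card = r)
    (hB1 : B1 ∉ (NN r rk \ U) ∪ T) (hB2 : B2 ∉ (NN r rk \ U) ∪ T) {x : Fin n} (hx : x ∈ B1)
    (hx2 : x ∉ B2) : ∃ y ∈ B2, y ∉ B1 ∧ insert y (B1.erase x) ∉ (NN r rk \ U) ∪ T := by
  by_contra hcon
  push Not at hcon
  have hN : ∀ z ∈ (NN r rk \ U) ∪ T, z ∈ NN r rk := fun z hz => by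
    rcases mem_union.1 hz with hz | hz
    · exact (mem_sdiff.1 hz).1
    · exact hUN (hTU hz)
  have hUT : ∀ z ∈ (NN r rk \ U) ∪ T, z ∈ U → z ∈ T := fun z hz hzU => by
    rcases mem_union.1 hz with hz | hz
    · exact absurd hzU (mem_sdiff.1 hz).2
    · exact hz
  have hin : ∀ z ∈ NN r rk, z ∉ (NN r rk \ U) ∪ T → z ∈ U := fun z hz hz' => by
    by_contra hzU
    exact hz' (mem_union_left _ (mem_sdiff.2 ⟨hz, hzU⟩))
  have c1 := card_sdiff_comm (h1.trans h2.symm)
  have c2 : 0 < (B1 \ B2).card := card_pos.2 ⟨x, mem_sdiff.2 ⟨hx, hx2⟩⟩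
  obtain ⟨y, hy⟩ := card_pos.1 (show 0 < (B2 \ B1).card by omega)
  rw [mem_sdiff] at hy
  have hz := hcon y hy.1 hy.2
  have two : ∃ y' ∈ B2, y' ∉ B1 ∧ y' ≠ y := by
    by_contra hno
    push Not at hno
    refine hB2 ?_
    have c3 : B2 ⊆ insert y (B1.erase x) := by
      intro w hw
      by_cases hw1 : w ∈ B1
      · exact mem_insert_of_mem (mem_erase.2 ⟨fun h => hx2 (h ▸ hw), hw1⟩)
      · rw [hno w hw hw1]
        exact mem_insert_self _ _
    rw [eq_of_subset_of_card_le c3 (by rw [card_swap hx hy.2]; omega)]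
    exact hz
  obtain ⟨y', hy', hy1, hyy⟩ := two
  have hz' := hcon y' hy' hy1
  have hzU : insert y (B1.erase x) ∉ U := by
    intro hu
    have c4 := hU _ hu _ (hN _ hz') (ds_ins y y')
    have c5 := hT _ (hUT _ hz hu) _ (hUT _ hz' c4) (ds_ins y y')
    have c6 : y' ∈ insert y (B1.erase x) := c5 ▸ mem_insert_self _ _
    rcases mem_insert.1 c6 with c7 | c7
    · exact hyy c7
    · exact hy1 (mem_of_mem_erase c7)
  have hB1N : B1 ∉ NN r rk := fun hb => hzU (hU _ (hin _ hb hB1) _ (hN _ hz) (ds_swap _ _ _))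
  have r1 : r ≤ rk (B1.erase x) + 1 := by
    have c8 := h.insert_le (B1.erase x) x
    rw [insert_erase hx] at c8
    rw [mem_NN] at hB1N
    omega
  have r2 : rk (B1.erase x ∪ B2) ≤ rk (B1.erase x) := by
    refine h.span _ _ fun c hc => ?_
    by_cases hc1 : c ∈ B1
    · have hcx : c ≠ x := fun hh => hx2 (hh ▸ hc)
      rw [insert_eq_of_mem (mem_erase.2 ⟨hcx, hc1⟩)]
    · have := (mem_NN.1 (hN _ (hcon c hc hc1))).2
      omega
  have r3 : rk (B1.erase x) < r := by
    have := h.le (B1.erase x)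
    have := card_erase_add_one hx
    omega
  have hW : ∀ X ⊆ B1.erase x ∪ B2, X.card = r → X ∈ NN r rk := fun X hX hXr => by
    have := h.mono _ _ hX
    exact mem_NN.2 ⟨hXr, by omega⟩
  refine hzU (conn hU hW ?_ ((card_swap hx hy.2).trans h1) _ B2 subset_union_right h2
    (hin _ (hW _ subset_union_right h2) hB2) rfl)
  exact insert_subset (mem_union_right _ hy.1) subset_union_left

end Pool.Agent.Lib.MP_8860fd_co.J.Rt

namespace Pool.Agent.Lib.MP_8860fd_co.J

open Finset Rt

theorem switch' : SwitchStmt := by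
  intro n K L r M hM hr U T hUN hU hTU hT
  obtain ⟨hE, hKL⟩ := hM
  rw [NB_eq hr] at hUN hU ⊢
  have h := rk_RK hr
  set N' := (NN r (rkM M) \ U) ∪ T with hN'
  have hN : ∀ z ∈ N', z ∈ NN r (rkM M) := fun z hz => by
    rcases mem_union.1 hz with hz | hz
    · exact (mem_sdiff.1 hz).1
    · exact hUN (hTU hz)
  let P : Set (Fin n) → Prop := fun B => ∃ x : Finset (Fin n), (x : Set (Fin n)) = B ∧
    x.card = r ∧ x ∉ N'
  have hP : ∀ B, M.IsBase B → P B := by
    intro B hB
    have c1 : (Set.toFinite B).toFinset.card = r := by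
      rw [← Set.ncard_eq_toFinset_card B (Set.toFinite B), hr B hB]
    refine ⟨(Set.toFinite B).toFinset, Set.Finite.coe_toFinset _, c1, fun hx => ?_⟩
    have c2 := (mem_NN.1 (hN _ hx)).2
    have c3 := (base_iff hr c1).1 (by rwa [Set.Finite.coe_toFinset])
    omega
  have hex : ∃ B, P B := by
    obtain ⟨B, hB⟩ := M.exists_isBase
    exact ⟨B, hP B hB⟩
  have hexch : Matroid.ExchangeProperty P := by
    rintro _ _ ⟨B1, rfl, h1, hB1⟩ ⟨B2, rfl, h2, hB2⟩ x hx
    obtain ⟨y, hy, hy1, hz⟩ := exch h hU hUN hTU hT h1 h2 hB1 hB2 (mem_coe.1 hx.1)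
      fun hh => hx.2 (mem_coe.2 hh)
    refine ⟨y, ⟨mem_coe.2 hy, fun hh => hy1 (mem_coe.1 hh)⟩, insert y (B1.erase x), ?_,
      (card_swap (mem_coe.1 hx.1) hy1).trans h1, hz⟩
    rw [coe_insert, coe_erase]
  let M' : Matroid (Fin n) := Matroid.ofIsBaseOfFinite (Set.toFinite Set.univ) P hex hexch
    fun B _ => Set.subset_univ B
  have hb : ∀ B, M'.IsBase B ↔ P B := fun B => Iff.rfl
  have hr' : ∀ B, M'.IsBase B → B.ncard = r := by
    rintro _ ⟨x, rfl, hx, -⟩
    rw [Set.ncard_coe_finset, hx]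
  refine ⟨M', ⟨rfl, ?_⟩, hr', ?_⟩
  · by_contra hcon
    obtain ⟨X, hX⟩ := (not_unif_iff rfl hr' K L).1 hcon
    refine (not_unif_iff hE hr K L).2 ⟨X, fun I hI hi => hX I hI ?_⟩ hKL
    obtain ⟨B, hB, hIB⟩ := hi.exists_isBase_superset
    exact ((hb B).2 (hP B hB)).indep.subset hIB
  · ext x
    simp only [NB, mem_filter, mem_univ, true_and, hb]
    constructor
    · rintro ⟨h1, h2⟩
      by_contra h3
      exact h2 ⟨x, rfl, h1, h3⟩
    · intro hx
      refine ⟨(mem_NN.1 (hN x hx)).1, ?_⟩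
      rintro ⟨y, hy, -, hy2⟩
      rw [coe_inj] at hy
      exact hy2 (hy ▸ hx)

end Pool.Agent.Lib.MP_8860fd_co.J
end

-- part Pool.Agent.Lib.MP_8860fd_co.JRoot
section

/-! The root of a matroid. -/

namespace Pool.Agent.Lib.MP_8860fd_co.J.Rt

open Finset Filter

variable {n : ℕ}

theorem two_pow_le_choose (p q : ℕ) : ∀ a : ℕ, 2 ^ a ≤ (p + q + 2 * a).choose (p + a) := by
  intro a
  induction a with
  | zero => exact Nat.choose_pos (by omega)
  | succ a ih =>
    have h1 : p + q + 2 * (a + 1) = (p + q + 2 * a) + 1 + 1 := by ring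
    have h2 : p + (a + 1) = (p + a) + 1 := by ring
    rw [h1, h2, Nat.choose_succ_succ', Nat.choose_succ_succ' (p + q + 2 * a) (p + a), pow_succ]
    have h3 := Nat.choose_le_succ (p + q + 2 * a) (p + a)
    simp only [Nat.succ_eq_add_one] at h3
    omega

theorem grow (φ : Finset (Fin n) → ℕ) (s R : ℕ) : ∀ j : ℕ,
    (∃ i ≤ j, ∃ G : Finset (Fin n), G.card ≤ s * (R + 1) ^ i ∧
      ∀ D : Finset (Fin n), D.card ≤ R * (s * (R + 1) ^ i) → φ (G ∪ D) ≤ φ G) ∨
    ∃ X : Finset (Fin n), X.card ≤ s * (R + 1) ^ j ∧ j ≤ φ X := by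
  intro j
  induction j with
  | zero => exact Or.inr ⟨∅, by simp, Nat.zero_le _⟩
  | succ j ih =>
    rcases ih with ⟨i, hi, h⟩ | ⟨X, hX, hj⟩
    · exact Or.inl ⟨i, by omega, h⟩
    · by_cases h : ∀ D : Finset (Fin n), D.card ≤ R * (s * (R + 1) ^ j) → φ (X ∪ D) ≤ φ X
      · exact Or.inl ⟨j, by omega, X, hX, h⟩
      · push Not at h
        obtain ⟨D, hD, h⟩ := h
        refine Or.inr ⟨X ∪ D, (card_union_le _ _).trans ?_, by omega⟩
        have : s * (R + 1) ^ (j + 1) = s * (R + 1) ^ j + R * (s * (R + 1) ^ j) := by ring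
        omega

theorem many_bad (ρ : Root n) {τ : Finset (Fin n)} (hτ : τ ∈ ρ.bad) (hG : τ ⊆ ρ.G) {a : ℕ}
    (h1 : ρ.G.card + a ≤ ρ.r) (h2 : ρ.r + ρ.G.card + a ≤ n) : 2 ^ a ≤ ρ.init.card := by
  classical
  have c1 := card_le_card hG
  have c2 : (ρ.Gᶜ).card = n - ρ.G.card := by rw [card_compl, Fintype.card_fin]
  have c3 := two_pow_le_choose (ρ.r - τ.card - a) (n - ρ.G.card - (ρ.r - τ.card) - a) a
  have c4 : ρ.r - τ.card - a + (n - ρ.G.card - (ρ.r - τ.card) - a) + 2 * a = (ρ.Gᶜ).card := by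
    omega
  have c5 : ρ.r - τ.card - a + a = ρ.r - τ.card := by omega
  rw [c4, c5, ← card_powersetCard] at c3
  have key : ∀ y ∈ powersetCard (ρ.r - τ.card) ρ.Gᶜ, (τ ∪ y) ∩ ρ.G = τ ∧ (τ ∪ y) \ ρ.G = y := by
    intro y hy
    have d1 := (mem_powersetCard.1 hy).1
    constructor
    · ext x
      have := @hG x
      have := @d1 x
      simp only [mem_inter, mem_union, mem_compl] at *
      tauto
    · ext x
      have := @hG x
      have := @d1 x
      simp only [Finset.mem_sdiff, mem_union, mem_compl] at *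
      tauto
  refine c3.trans (card_le_card_of_injOn (fun y => τ ∪ y) (fun y hy => ?_) ?_)
  · have d1 := key y (mem_coe.1 hy)
    have d2 := (mem_powersetCard.1 (mem_coe.1 hy)).2
    have d3 := card_sdiff_add_card_inter (τ ∪ y) ρ.G
    rw [d1.1, d1.2] at d3
    simp only [Root.init, coe_filter, mem_univ, true_and, Set.mem_ofPred_eq]
    refine ⟨by omega, Or.inl fun hg => hg ?_⟩
    rw [d1.1]
    exact hτ
  · intro y hy y' hy' hyy
    have d1 : τ ∪ y = τ ∪ y' := hyy
    rw [← (key y (mem_coe.1 hy)).2, d1, (key y' (mem_coe.1 hy')).2]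

end Pool.Agent.Lib.MP_8860fd_co.J.Rt

namespace Pool.Agent.Lib.MP_8860fd_co.J

open Finset Filter Rt

theorem root : RootStmt := by
  intro K L hK hL
  set R := K + L + 67 with hR
  set P := (R + 1) ^ (K + L + 1) with hP
  have hPR : R + 1 ≤ P := by
    rw [hP]
    exact Nat.le_self_pow (by omega) _
  refine ⟨16 * P, by omega, ?_⟩
  filter_upwards [eventually_ge_atTop (16 * P)] with n hn M hM hmid htiny k l hk hl hkl hnu
  obtain ⟨hE, hKL⟩ := hM
  obtain ⟨B, hB, hBe⟩ := hmid
  simp only [Ext, Set.mem_ofPred_eq, not_or, not_le] at hBe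
  set r := B.ncard with hr0
  have hr : ∀ B', M.IsBase B' → B'.ncard = r := fun B' hB' => hB'.ncard_eq_ncard_of_isBase hB
  have h := rk_RK hr
  set rk := rkM M with hrk
  have noW : ∀ X : Finset (Fin n), rk X + K ≤ r → rk X + L ≤ X.card → False := fun X a1 a2 =>
    (not_unif_iff hE hr K L).2 ((wit_iff hE K L).2 ⟨X, a1, a2⟩) hKL
  obtain ⟨X0, x1, x2⟩ := (wit_iff hE k l).1 ((not_unif_iff hE hr k l).1 hnu)
  have N1 : ∀ X : Finset (Fin n), X.card ≤ 2 → X.card ≤ rk X := fun X hX => by
    by_contra a1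
    refine htiny ⟨X, by rwa [Set.ncard_coe_finset], Or.inl fun hi => a1 ?_⟩
    exact ((indep_iff M X).1 hi).ge
  have N2 : ∀ X : Finset (Fin n), X.card ≤ 2 → r ≤ rk Xᶜ := fun X hX => by
    by_contra a1
    refine htiny ⟨X, by rwa [Set.ncard_coe_finset], Or.inr fun hi => a1 ?_⟩
    rw [← coe_compl] at hi
    exact (spanning_iff hE hr _).1 hi
  set s := n / (8 * P) with hs
  have s1 : s * (8 * P) ≤ n := Nat.div_mul_le_self _ _
  have s2 : n < 8 * P * (s + 1) := Nat.lt_mul_div_succ n (by omega)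
  have s3 : 2 ≤ s := (Nat.le_div_iff_mul_le (by omega)).2 (by omega)
  have gb : ∀ i ≤ K + L, 8 * ((R + 1) * (s * (R + 1) ^ i)) ≤ n := fun i hi => by
    have a1 : (R + 1) ^ (i + 1) ≤ P := Nat.pow_le_pow_right (by omega) (by omega)
    calc 8 * ((R + 1) * (s * (R + 1) ^ i)) = s * (8 * (R + 1) ^ (i + 1)) := by ring
      _ ≤ s * (8 * P) := Nat.mul_le_mul_left _ (by omega)
      _ ≤ n := s1
  have gb' : ∀ i ≤ K + L, 544 * (s * (R + 1) ^ i) ≤ n := fun i hi => by
    have a1 := gb i hi
    have a2 : 68 * (s * (R + 1) ^ i) ≤ (R + 1) * (s * (R + 1) ^ i) :=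
      Nat.mul_le_mul_right _ (by omega)
    omega
  let φ : Finset (Fin n) → ℕ := fun X => (X.card - rk X) + (r - rk Xᶜ)
  have φb : ∀ X : Finset (Fin n), 544 * X.card ≤ n → X.card < L + rk X ∧ r < K + rk Xᶜ := by
    intro X hX
    have a1 := h.le X
    have a2 := h.le_r Xᶜ
    have a3 : Xᶜ.card = n - X.card := by rw [card_compl, Fintype.card_fin]
    constructor
    · by_contra a4
      exact noW X (by omega) (by omega)
    · by_contra a4
      exact noW Xᶜ (by omega) (by omega)
  obtain ⟨i, hi, G, hG, hGD⟩ := (grow φ s R (K + L)).resolve_right (by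
    rintro ⟨X, hX, hj⟩
    have a1 := gb' (K + L) le_rfl
    have a2 := φb X (by omega)
    simp only [φ] at hj
    omega)
  set g := s * (R + 1) ^ i with hg
  have g1 := gb i hi
  have g2 := gb' i hi
  have g3 : s ≤ g := Nat.le_mul_of_pos_right _ (by positivity)
  rw [← hg] at g1 g2
  have g4 : (R + 1) * g = R * g + g := by ring
  have H : ∀ D : Finset (Fin n), D.card ≤ R * g →
      (G ∪ D).card + rk G ≤ G.card + rk (G ∪ D) ∧ rk Gᶜ ≤ rk (G ∪ D)ᶜ := by
    intro D hD
    have a1 := hGD D hD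
    simp only [φ] at a1
    have a2 := h.nu_mono (subset_union_left (s₁ := G) (s₂ := D))
    have a3 := h.mono _ _ (compl_subset_compl.2 (subset_union_left (s₁ := G) (s₂ := D)))
    have a4 := h.le G
    have a5 := h.le (G ∪ D)
    have a6 := h.le_r Gᶜ
    omega
  have H3 : G.card + r ≤ K + L + rk G + rk Gᶜ := by
    have := φb G (by omega)
    omega
  obtain ⟨F0, f1, f2⟩ := h.F0 hk hl hkl (by omega) (by omega) x1 x2
  let ρ : Root n := ⟨r, g, G, badS r rk G, F0⟩
  have hgood : ρ.good = Gd r rk G := by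
    funext A
    exact propext notMem_bad
  have hc : n ≤ 16 * P * g := by
    have a1 : 8 * P * (s + 1) ≤ 8 * P * (2 * g) := Nat.mul_le_mul_left _ (by omega)
    have a2 : 8 * P * (2 * g) = 16 * P * g := by ring
    omega
  refine ⟨ρ, hr, by simp only [ρ]; omega, by simp only [ρ]; omega, hc, by simp only [ρ]; omega,
    filter_subset _ _, ?_, ?_⟩
  · have hth : ρ.th (K + L) = R * g := rfl
    have hN : NB M ρ.r = NN r rk := NB_eq hr
    rw [hN]
    refine ⟨fun t ht => (mem_NN.1 ht).1, hG, by simp only [ρ]; omega,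
      by rw [hth]; simp only [ρ]; omega, by rw [hth]; simp only [ρ]; omega, h.L1, h.L2, ?_, ?_,
      ?_, ?_, ?_, f1, f2⟩
    · rw [hgood]
      exact h.T1 G
    · rw [hgood, hth]
      exact h.T2 (fun D hD => (H D hD).1) fun D hD => (H D hD).2
    · rw [hgood]
      exact h.T3 N1 N2
    · rw [hgood]
      exact fun t _ => h.T4 H3 t
    · rw [hgood]
      exact fun t _ => h.T5 t
  · rcases eq_empty_or_nonempty ρ.bad with a1 | ⟨τ, hτ⟩
    · exact Or.inl a1
    · refine Or.inr (many_bad ρ hτ (mem_powerset.1 (filter_subset _ _ hτ)) ?_ ?_)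
      · simp only [ρ]
        omega
      · simp only [ρ]
        omega

end Pool.Agent.Lib.MP_8860fd_co.J
end
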