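import Pool.Agent.Lib.MP_8860fd_co.JPay

/-! Matroids with girth or cogirth at most two are rare (principal extensions). -/

namespace Pool.Agent.Lib.MP_8860fd_co.J

open Set Filter

namespace ZA

variable {n : ℕ} {M : Matroid (Fin n)} {e : Fin n} {F : Set (Fin n)}

theorem card_le_of_cl {J Y : Set (Fin n)} (hJ : M.Indep J) (h : J ⊆ M.closure Y) :
    J.ncard ≤ Y.ncard := by
  have h1 := hJ.encard_le_eRk_of_subset h
  rw [Matroid.eRk_closure_eq] at h1
  have h2 := h1.trans (M.eRk_le_encard Y)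
  rw [← (toFinite J).cast_ncard_eq, ← (toFinite Y).cast_ncard_eq] at h2
  exact_mod_cast h2

theorem sub_cl (hE : M.E = univ) (X : Set (Fin n)) : X ⊆ M.closure X :=
  M.subset_closure X (by rw [hE]; exact subset_univ _)

theorem ins_iff (hE : M.E = univ) {I : Set (Fin n)} (hI : M.Indep I) {x : Fin n} :
    x ∉ M.closure I ↔ M.Indep (insert x I) ∧ x ∉ I :=
  hI.notMem_closure_iff (by rw [hE]; trivial)

/-- independence after moving `e` freely into the flat spanned by `F` -/
def PI (M : Matroid (Fin n)) (e : Fin n) (F I : Set (Fin n)) : Prop :=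
  M.Indep (I \ {e}) ∧ (e ∈ I → ¬ F ⊆ M.closure (I \ {e}))

theorem PI.card_le (hE : M.E = univ) {J Y : Set (Fin n)} (hJ : PI M e F J)
    (h1 : J \ {e} ⊆ M.closure Y) (h2 : e ∈ J → F ⊆ M.closure Y) : J.ncard ≤ Y.ncard := by
  by_cases he : e ∈ J
  · obtain ⟨g, hg, hg'⟩ := not_subset.1 (hJ.2 he)
    obtain ⟨a1, a2⟩ := (ins_iff hE hJ.1).1 hg'
    have a3 := card_le_of_cl a1 (insert_subset (h2 he hg) h1)
    rwa [ncard_insert_of_notMem a2, ncard_sdiff_singleton_add_one he] at a3
  · have := card_le_of_cl hJ.1 h1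
    rwa [sdiff_singleton_eq_self he] at this

theorem PI.aug (hE : M.E = univ) {I J : Set (Fin n)} (hI : PI M e F I) (hJ : PI M e F J)
    (hlt : I.ncard < J.ncard) : ∃ x ∈ J, x ∉ I ∧ PI M e F (insert x I) := by
  by_contra hcon
  push Not at hcon
  have ins : ∀ x, x ≠ e → insert x I \ {e} = insert x (I \ {e}) := fun x hx =>
    (insert_sdiff_of_notMem _ (by simpa using hx))
  by_cases he : e ∈ I
  · obtain ⟨f0, hf, hf'⟩ := not_subset.1 (hI.2 he)
    have c0 := ncard_sdiff_singleton_add_one he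
    have c1 : ∀ x ∈ J \ {e}, x ∉ M.closure (I \ {e}) → F ⊆ M.closure (insert x (I \ {e})) := by
      intro x hx hx'
      obtain ⟨a1, a2⟩ := (ins_iff hE hI.1).1 hx'
      by_contra h
      exact hcon x hx.1 (fun h' => a2 ⟨h', hx.2⟩) ⟨by rwa [ins x hx.2], fun _ => by rwa [ins x hx.2]⟩
    have c2 : M.closure (I \ {e}) ⊆ M.closure (insert f0 (I \ {e})) :=
      M.closure_subset_closure (subset_insert _ _)
    have c3 : J \ {e} ⊆ M.closure (insert f0 (I \ {e})) := fun x hx => by
      by_cases hx' : x ∈ M.closure (I \ {e})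
      · exact c2 hx'
      · exact Matroid.mem_closure_insert hf' (c1 x hx hx' hf)
    by_cases c4 : J \ {e} ⊆ M.closure (I \ {e})
    · have a1 := card_le_of_cl hJ.1 c4
      have a2 := ncard_le_ncard (show J ⊆ insert e (J \ {e}) by simp)
      have a3 := ncard_insert_le e (J \ {e})
      omega
    · obtain ⟨x, hx, hx'⟩ := not_subset.1 c4
      have a1 := hJ.card_le hE c3 fun _ => (c1 x hx hx').trans
        (Matroid.closure_subset_closure_of_subset_closure
          (insert_subset (c3 hx) ((sub_cl hE _).trans c2)))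
      have a2 := ncard_insert_le f0 (I \ {e})
      omega
  · have e0 : I \ {e} = I := sdiff_singleton_eq_self he
    have hI' : M.Indep I := e0 ▸ hI.1
    have a1 := hJ.card_le hE (Y := I) (fun x hx => by
      by_contra hx'
      obtain ⟨a1, a2⟩ := (ins_iff hE hI').1 hx'
      refine hcon x hx.1 a2 ⟨by rwa [ins x hx.2, e0], fun h => ?_⟩
      exact absurd (h.resolve_right he).symm hx.2) fun heJ => by
      by_contra h
      have e1 : insert e I \ {e} = I := by simp [he]
      exact hcon e heJ he ⟨by rwa [e1], fun _ => by rwa [e1]⟩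
    omega

/-- the principal extension of the deletion -/
noncomputable def pe (M : Matroid (Fin n)) (hE : M.E = univ) (e : Fin n) (F : Set (Fin n)) :
    Matroid (Fin n) :=
  (IndepMatroid.ofFinite (toFinite (univ : Set (Fin n))) (PI M e F) ⟨by simp, by simp⟩
    (fun _ _ h hIJ => ⟨h.1.subset (sdiff_subset_sdiff_left hIJ), fun he h' => h.2 (hIJ he)
      (h'.trans (M.closure_subset_closure (sdiff_subset_sdiff_left hIJ)))⟩)
    (fun _ _ hI hJ hlt => hI.aug hE hJ hlt) (fun _ _ => subset_univ _)).matroid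

theorem pe_indep (hE : M.E = univ) (I : Set (Fin n)) : (pe M hE e F).Indep I ↔ PI M e F I :=
  Iff.rfl

/-- `e` is a loop or parallel to `f` -/
def Par (M : Matroid (Fin n)) (e f : Fin n) (b : Bool) : Prop :=
  f ≠ e ∧ ∀ Y, e ∈ M.closure Y ↔ b = true ∨ f ∈ M.closure Y

theorem exists_par (hE : M.E = univ) (hn : 2 ≤ n) {X : Set (Fin n)} (hX : X.ncard ≤ 2)
    (hd : ¬ M.Indep X) : ∃ e f b, Par M e f b := by
  by_cases h : ∃ e, e ∈ M.closure ∅
  · obtain ⟨e, he⟩ := h
    have : Nontrivial (Fin n) := Fin.nontrivial_iff_two_le.2 hn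
    obtain ⟨f, hf⟩ := exists_ne e
    exact ⟨e, f, true, hf, fun Y => ⟨fun _ => Or.inl rfl, fun _ =>
      M.closure_subset_closure (empty_subset Y) he⟩⟩
  push Not at h
  have h1 : ∀ a, M.Indep {a} := fun a => by
    simpa using ((ins_iff hE M.empty_indep).1 (h a)).1
  have h2 : ∀ a b, a ≠ b → ¬ M.Indep {a, b} → ∀ Y, b ∈ M.closure Y → a ∈ M.closure Y := by
    intro a b _ hab Y hY
    refine Matroid.closure_subset_closure_of_subset_closure (singleton_subset_iff.2 hY) ?_
    by_contra h'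
    exact hab ((ins_iff hE (h1 b)).1 h').1
  obtain h0 | h0 | h0 : X.ncard = 0 ∨ X.ncard = 1 ∨ X.ncard = 2 := by omega
  · rw [(ncard_eq_zero (toFinite X)).1 h0] at hd
    exact absurd M.empty_indep hd
  · obtain ⟨a, rfl⟩ := ncard_eq_one.1 h0
    exact absurd (h1 a) hd
  · obtain ⟨a, b, hab, rfl⟩ := ncard_eq_two.1 h0
    refine ⟨a, b, false, hab.symm, fun Y => ⟨fun h' => Or.inr ?_, fun h' => ?_⟩⟩
    · exact h2 b a hab.symm (by rwa [pair_comm]) Y h'
    · exact h2 a b hab hd Y (by simpa using h')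

theorem Par.pi {f : Fin n} {b : Bool} (h : Par M e f b) (hf : f ∈ F) {I : Set (Fin n)}
    (hI : M.Indep I) : PI M e F I :=
  ⟨hI.subset sdiff_subset, fun he h' =>
    hI.notMem_closure_sdiff_of_mem he ((h.2 _).2 (Or.inr (h' hf)))⟩

theorem Par.mem_UC {f : Fin n} {b : Bool} {K L : ℕ} (hM : M ∈ UC n K L) (h : Par M e f b)
    (hf : f ∈ F) : pe M hM.1 e F ∈ UC n K L := by
  obtain ⟨B, hB⟩ := M.exists_isBase
  have c1 : ∀ J, (pe M hM.1 e F).Indep J → J.ncard ≤ B.ncard := fun J hJ => by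
    have e1 : M.closure B = univ := hB.closure_eq.trans hM.1
    exact ((pe_indep hM.1 J).1 hJ).card_le hM.1 (by rw [e1]; exact subset_univ _)
      fun _ => by rw [e1]; exact subset_univ _
  obtain ⟨B', hB', hs⟩ := ((pe_indep hM.1 B).2 (h.pi hf hB.indep)).exists_isBase_superset
  have c2 : ∀ C, (pe M hM.1 e F).IsBase C → C.ncard = B.ncard := fun C hC =>
    (hC.ncard_eq_ncard_of_isBase hB').trans (le_antisymm (c1 _ hB'.indep) (ncard_le_ncard hs))
  refine ⟨rfl, by_contra fun hc => ?_⟩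
  obtain ⟨X, hX⟩ := (not_unif_iff rfl c2 K L).1 hc
  exact (not_unif_iff hM.1 (fun C hC => hC.ncard_eq_ncard_of_isBase hB) K L).2
    ⟨X, fun I hI hI' => hX I hI ((pe_indep hM.1 I).2 (h.pi hf hI'))⟩ hM.2

theorem recover {N : Matroid (Fin n)} {G : Set (Fin n)} {f : Fin n} {b : Bool} (hE : M.E = univ)
    (hE' : N.E = univ) (h : Par M e f b) (h' : Par N e f b) (hp : pe M hE e F = pe N hE' e G) :
    M = N := by
  have c1 : ∀ I, e ∉ I → (M.Indep I ↔ N.Indep I) := fun I hI => by
    have := (pe_indep (e := e) (F := F) hE I).symm.trans (hp ▸ pe_indep hE' I)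
    simpa [PI, hI] using this
  have c2 : ∀ {P : Matroid (Fin n)}, P.E = univ → Par P e f b → ∀ I, e ∉ I →
      (P.Indep (insert e I) ↔ P.Indep I ∧ ¬ b = true ∧ P.Indep (insert f I) ∧ f ∉ I) := by
    intro P hP hq I hI
    constructor
    · intro hi
      have a1 : P.Indep I := hi.subset (subset_insert _ _)
      have a2 := (ins_iff hP a1).2 ⟨hi, hI⟩
      rw [hq.2, not_or, ins_iff hP a1] at a2
      exact ⟨a1, a2⟩
    · rintro ⟨a1, a2⟩
      rw [← ins_iff hP a1, ← not_or, ← hq.2, ins_iff hP a1] at a2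
      exact a2.1
  refine Matroid.ext_indep (hE.trans hE'.symm) fun I _ => ?_
  by_cases hI : e ∈ I
  · have a1 : e ∉ I \ {e} := by simp
    rw [← insert_sdiff_self_of_mem hI, c2 hE h _ a1, c2 hE' h' _ a1, c1 _ a1,
      c1 (insert f (I \ {e})) (by simp [h.1.symm])]
  · exact c1 I hI

theorem fiber {G : Set (Fin n)} (hE : M.E = univ) (hG : e ∉ G) (hp : pe M hE e F = pe M hE e G) :
    F ⊆ M.closure G := by
  obtain ⟨I, hI⟩ := M.exists_isBasis G (by rw [hE]; exact subset_univ _)
  have e1 : insert e I \ {e} = I := by simp [show e ∉ I from fun h => hG (hI.subset h)]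
  have : PI M e F (insert e I) ↔ PI M e G (insert e I) := by
    rw [← pe_indep hE, hp, pe_indep hE]
  simp only [PI, e1, mem_insert_iff, true_or, true_imp_iff, hI.indep, true_and,
    hI.subset_closure, not_true, iff_false, not_not] at this
  rwa [hI.closure_eq_closure] at this

theorem cl_small {K L : ℕ} (hM : M ∈ UC n K L) (hm : Mid M) (hn : 4 * (K + 5) ≤ n)
    (hF : F.ncard ≤ 5) : (M.closure F).ncard < 5 + L := by
  obtain ⟨B, hB, hx⟩ := hm
  simp only [Ext, mem_ofPred_eq, not_or, not_le] at hx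
  by_contra hc
  refine (not_unif_iff hM.1 (fun C hC => hC.ncard_eq_ncard_of_isBase hB) K L).2
    ⟨M.closure F, fun I hI hI' => ?_⟩ hM.2
  have := card_le_of_cl hI' hI
  omega

/-- girth at most two -/
def Dep (n K L : ℕ) : Set (Matroid (Fin n)) :=
  {M | M ∈ UC n K L ∧ Mid M ∧ ∃ X : Set (Fin n), X.ncard ≤ 2 ∧ ¬ M.Indep X}

theorem dep_count {K L : ℕ} (hn : 4 * (K + 5) ≤ n) :
    (Dep n K L).ncard * n ^ 4 ≤ (L + 5) ^ 4 * ((UC n K L).ncard * (n * (n * 2))) := by
  classical
  have := finite_matroid n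
  have key : ∀ M : Dep n K L, ∃ e f b, Par M.1 e f b := fun M => by
    obtain ⟨X, h1, h2⟩ := M.2.2.2
    exact exists_par M.2.1.1 (by omega) h1 h2
  choose e f b hp using key
  let F : Dep n K L × (Fin 4 → Fin n) → Set (Fin n) := fun p =>
    insert (f p.1) (range p.2) \ {e p.1}
  have hF : ∀ p, f p.1 ∈ F p := fun p => ⟨mem_insert _ _, (hp p.1).1⟩
  have hF5 : ∀ p, (F p).ncard ≤ 5 := fun p => by
    have a1 : (range p.2).ncard ≤ 4 := by
      rw [← image_univ]
      simpa using ncard_image_le (f := p.2) (s := univ)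
    have a2 := ncard_insert_le (f p.1) (range p.2)
    have a3 : (F p).ncard ≤ _ := ncard_le_ncard sdiff_subset
    omega
  let Φ : Dep n K L × (Fin 4 → Fin n) → UC n K L × Fin n × Fin n × Bool := fun p =>
    (⟨_, (hp p.1).mem_UC p.1.2.1 (hF p)⟩, e p.1, f p.1, b p.1)
  have i1 := Fintype.ofFinite (Dep n K L)
  have i2 := Fintype.ofFinite (UC n K L)
  have main := Finset.card_le_mul_card_image_of_maps_to (f := Φ) (s := Finset.univ)
    (t := Finset.univ) (fun _ _ => Finset.mem_univ _) ((L + 5) ^ 4) fun y _ => by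
    by_cases hy : ∃ q, Φ q = y
    swap
    · rw [Finset.filter_false_of_mem fun p _ h => hy ⟨p, h⟩]
      simp
    obtain ⟨⟨N, t⟩, rfl⟩ := hy
    have c1 : ∀ p, Φ p = Φ (N, t) → p.1 = N ∧ ∀ i, p.2 i ∈ insert (e N) (N.1.closure (F (N, t))) := by
      rintro ⟨P, u⟩ h
      simp only [Φ, Prod.mk.injEq, Subtype.mk.injEq] at h
      obtain ⟨h1, h2, h3, h4⟩ := h
      obtain rfl : P = N := by
        have a1 := hp P
        rw [h2, h3, h4] at a1
        rw [h2] at h1
        exact Subtype.ext (recover _ _ a1 (hp N) h1)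
      refine ⟨rfl, fun i => ?_⟩
      by_cases hi : u i = e P
      · exact Or.inl hi
      · exact Or.inr (fiber P.2.1.1 (fun h => h.2 rfl) h1 ⟨Or.inr ⟨i, rfl⟩, hi⟩)
    have c2 : (insert (e N) (N.1.closure (F (N, t)))).ncard ≤ L + 5 := by
      have a1 := cl_small N.2.1 N.2.2.1 hn (hF5 (N, t))
      have a2 := ncard_insert_le (e N) (N.1.closure (F (N, t)))
      omega
    refine (Finset.card_le_card_of_injOn (t := Fintype.piFinset fun _ : Fin 4 =>
      (insert (e N) (N.1.closure (F (N, t)))).toFinset) Prod.snd (fun p hp => ?_)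
      fun p hp q hq h => ?_).trans ?_
    · simpa using (c1 p (by simpa using hp)).2
    · exact Prod.ext ((c1 p (by simpa using hp)).1.trans (c1 q (by simpa using hq)).1.symm) h
    · rw [Fintype.card_piFinset, Finset.prod_const, Finset.card_univ, Fintype.card_fin,
        ← ncard_eq_toFinset_card']
      exact Nat.pow_le_pow_left c2 4
  rw [← Nat.card_coe_set_eq, ← Nat.card_coe_set_eq, Nat.card_eq_fintype_card,
    Nat.card_eq_fintype_card]
  simpa using main

theorem dep_rare (K L : ℕ) :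
    ∀ᶠ n : ℕ in atTop, 2 * (n * (Dep n K L).ncard) ≤ (UC n K L).ncard := by
  filter_upwards [eventually_ge_atTop (4 * (K + 5)), eventually_ge_atTop (4 * (L + 5) ^ 4)]
    with n h1 h2
  have h3 := dep_count (L := L) h1
  generalize (Dep n K L).ncard = D at *
  generalize (UC n K L).ncard = U at *
  generalize (L + 5) ^ 4 = C at *
  refine le_of_mul_le_mul_right ?_ (show 0 < n ^ 3 from pow_pos (by omega) 3)
  calc 2 * (n * D) * n ^ 3 = 2 * (D * n ^ 4) := by ring
    _ ≤ 2 * (C * (U * (n * (n * 2)))) := by omega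
    _ = 4 * C * (U * n ^ 2) := by ring
    _ ≤ n * (U * n ^ 2) := Nat.mul_le_mul_right _ h2
    _ = _ := by ring

theorem compl_card (X : Set (Fin n)) : X.ncard + Xᶜ.ncard = n := by
  simpa using Set.ncard_add_ncard_compl X

theorem dual_base (hE : M.E = univ) {r : ℕ} (hr : ∀ B, M.IsBase B → B.ncard = r) (B : Set (Fin n))
    (hB : M.dual.IsBase B) : B.ncard = n - r := by
  have h1 := hr _ hB.compl_isBase_of_dual
  rw [hE, ← compl_eq_univ_sdiff] at h1
  have := compl_card B
  omega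

theorem wit_dual {r k l : ℕ} (hr : ∀ B, M.IsBase B → B.ncard = r) (h : Wit M r k l) :
    Wit M.dual (n - r) l k := by
  obtain ⟨X, hX⟩ := h
  refine ⟨Xᶜ, fun I hI hI' => ?_⟩
  obtain ⟨-, B, hB, hd⟩ := Matroid.dual_indep_iff_exists'.1 hI'
  obtain ⟨a1, a2⟩ := hX (B ∩ X) inter_subset_right (hB.indep.subset inter_subset_left)
  have a3 := Set.ncard_inter_add_ncard_sdiff_eq_ncard B X
  have a4 : (I ∪ B \ X).ncard ≤ Xᶜ.ncard := ncard_le_ncard (union_subset hI fun _ h => h.2)
  rw [ncard_union_eq (hd.mono_right sdiff_subset)] at a4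
  have a5 := compl_card X
  have a6 := hr B hB
  omega

theorem dual_UC {K L : ℕ} (hM : M ∈ UC n K L) : M.dual ∈ UC n L K := by
  refine ⟨hM.1, by_contra fun hc => ?_⟩
  obtain ⟨B, hB⟩ := M.exists_isBase
  have hr : ∀ C, M.IsBase C → C.ncard = B.ncard := fun C hC => hC.ncard_eq_ncard_of_isBase hB
  have h1 := wit_dual (dual_base hM.1 hr)
    ((not_unif_iff (M := M.dual) hM.1 (dual_base hM.1 hr) L K).1 hc)
  have h2 := compl_card B
  rw [Matroid.dual_dual, show n - (n - B.ncard) = B.ncard by omega] at h1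
  exact (not_unif_iff hM.1 hr K L).2 h1 hM.2

theorem dual_mid (hE : M.E = univ) (h : Mid M) : Mid M.dual := by
  obtain ⟨B, hB, hx⟩ := h
  refine ⟨_, hB.compl_isBase_dual, ?_⟩
  rw [hE, ← compl_eq_univ_sdiff]
  have := compl_card B
  simp only [Ext, mem_ofPred_eq, not_or, not_le] at hx ⊢
  omega

end ZA

open ZA in
theorem zero : ZeroStmt := by
  intro K L _ _
  filter_upwards [dep_rare K L, dep_rare L K] with n h1 h2
  have := finite_matroid n
  have a1 : (UC n L K).ncard ≤ (UC n K L).ncard :=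
    ncard_le_ncard_of_injOn Matroid.dual (fun M hM => dual_UC hM) Matroid.dual_injective.injOn
  have a2 : {M | M ∈ UC n K L ∧ Mid M ∧ Tiny M} ⊆ Dep n K L ∪ Matroid.dual '' Dep n L K := by
    rintro M ⟨hM, hm, X, hX, h | h⟩
    · exact Or.inl ⟨hM, hm, X, hX, h⟩
    · refine Or.inr ⟨M.dual, ⟨dual_UC hM, dual_mid hM.1 hm, X, hX, fun h' => h ?_⟩, M.dual_dual⟩
      have := (Matroid.coindep_iff_compl_spanning (M := M) (by rw [hM.1]; exact subset_univ _)).1 h'
      rwa [hM.1, ← compl_eq_univ_sdiff] at this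
  have a3 := (ncard_le_ncard a2).trans (ncard_union_le _ _)
  rw [ncard_image_of_injective _ Matroid.dual_injective] at a3
  have a4 := Nat.mul_le_mul_left n a3
  rw [mul_add] at a4
  omega

end Pool.Agent.Lib.MP_8860fd_co.J
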