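import Pool.Agent.Lib.MP_8860fd_co.JCount
import Pool.Agent.Lib.MP_8860fd_co.JRoot
import Pool.Agent.Lib.MP_8860fd_co.JZero

/-! Assembly. -/

namespace Pool.Agent.Lib.MP_8860fd_co.J

open Filter

variable {n : ℕ}

theorem fam {K L κ β : ℕ} (hβ : 0 < β) (B : Finset (Fin n) → Finset (Finset (Finset (Fin n))))
    (hB : ∀ G, (B G).card ≤ β) (S : Set (Matroid (Fin n)))
    (h : ∀ M ∈ S, M ∈ UC n K L ∧ ∃ ρ : Root n, ρ.bad ∈ B ρ.G ∧ Ax κ ρ (NB M ρ.r) ∧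
      (∀ B, M.IsBase B → B.ncard = ρ.r) ∧ ∃ U ⊆ NB M ρ.r, AdjCl (NB M ρ.r) U ∧
      Real.exp (5 * n) * β ≤ ∑ T ∈ SS U, val (1 / (n + 1) ^ 12) κ ρ ((NB M ρ.r \ U) ∪ T) U) :
    (S.ncard : ℝ) * (n + 1) ≤ (UC n K L).ncard := by
  have h1 := double (κ := κ) (K := K) (L := L) (q := 1 / (n + 1) ^ 12)
    (Γ := Real.exp (5 * n) * β) switch' (by positivity) (by
    rw [div_le_one (by positivity)]
    exact one_le_pow₀ (by linarith [Nat.cast_nonneg (α := ℝ) n])) S (Roots n B) fun M hM => by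
    obtain ⟨a1, ρ, a2, a3, a4⟩ := h M hM
    have := a3.hi
    have := th_ge ρ κ
    exact ⟨a1, ρ, mem_Roots (by omega) (by omega) a2, a3.wt_nonneg, a4⟩
  have h2 := card_Roots hB
  have h3 : (0 : ℝ) < Real.exp (5 * n) * β := by positivity
  refine le_of_mul_le_mul_right ?_ h3
  calc (S.ncard : ℝ) * (n + 1) * (Real.exp (5 * n) * β)
      = S.ncard * (Real.exp (5 * n) * β) * (n + 1) := by ring
    _ ≤ (Roots n B).card * (UC n K L).ncard * (n + 1) := by gcongr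
    _ = (UC n K L).ncard * ((Roots n B).card * (n + 1)) := by ring
    _ ≤ _ := by gcongr

theorem rare {K L k l : ℕ} (hK : 0 < K) (hL : 0 < L) (hk : 0 < k) (hl : 0 < l) (hkl : 4 ≤ k + l) :
    ∀ᶠ n : ℕ in atTop, ({M | M ∈ UC n K L ∧ Mid M ∧ ¬ Tiny M ∧ ¬ KLUniform k l M}.ncard : ℝ) *
      (n + 1) ≤ 2 * (UC n K L).ncard := by
  classical
  obtain ⟨c, hc, h1⟩ := root K L hK hL
  filter_upwards [h1, gain (K + L) c hc] with n a1 a2
  have := finite_matroid n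
  set Q : Matroid (Fin n) → Root n → Prop := fun M ρ => (∀ B, M.IsBase B → B.ncard = ρ.r) ∧
    n ≤ 4 * ρ.r ∧ 4 * ρ.r ≤ 3 * n ∧ n ≤ c * ρ.g ∧ 500 * ρ.g ≤ n ∧ ρ.bad ⊆ ρ.G.powerset ∧
    Ax (K + L) ρ (NB M ρ.r) with hQ
  have b1 := fam (K := K) (L := L) (κ := K + L) (β := 1) one_pos (fun _ => {∅}) (by simp)
    {M | M ∈ UC n K L ∧ ∃ ρ, Q M ρ ∧ ρ.bad = ∅} (by
    rintro M ⟨c1, ρ, ⟨c2, c3, c4, c5, -, -, c6⟩, c7⟩
    obtain ⟨U, u1, u2, u3, -⟩ := a2 ρ _ c6 c3 c4 c5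
    exact ⟨c1, ρ, by simp [c7], c6, c2, U, u1, u2, by simpa using u3 c7⟩)
  have b2 := fam (K := K) (L := L) (κ := K + L) (β := 2 ^ 2 ^ (n / 500)) (by positivity)
    (fun G => if G.card ≤ n / 500 then G.powerset.powerset else ∅) (fun G => by
      split_ifs with h
      · rw [Finset.card_powerset, Finset.card_powerset]
        gcongr <;> norm_num
      · simp)
    {M | M ∈ UC n K L ∧ ∃ ρ, Q M ρ ∧ 2 ^ (n / 8) ≤ ρ.init.card} (by
    rintro M ⟨c1, ρ, ⟨c2, c3, c4, c5, c8, c9, c6⟩, c7⟩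
    obtain ⟨U, u1, u2, -, u3⟩ := a2 ρ _ c6 c3 c4 c5
    refine ⟨c1, ρ, ?_, c6, c2, U, u1, u2, u3 c7⟩
    rw [if_pos (by have := c6.hG; omega)]
    exact Finset.mem_powerset.2 c9)
  have b3 : {M | M ∈ UC n K L ∧ Mid M ∧ ¬ Tiny M ∧ ¬ KLUniform k l M} ⊆
      {M | M ∈ UC n K L ∧ ∃ ρ, Q M ρ ∧ ρ.bad = ∅} ∪
      {M | M ∈ UC n K L ∧ ∃ ρ, Q M ρ ∧ 2 ^ (n / 8) ≤ ρ.init.card} := by
    rintro M ⟨c1, c2, c3, c4⟩
    obtain ⟨ρ, d1, d2, d3, d4, d5, d6, d7, d8⟩ := a1 M c1 c2 c3 k l hk hl hkl c4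
    exact d8.imp (fun h => ⟨c1, ρ, ⟨d1, d2, d3, d4, d5, d6, d7⟩, h⟩)
      fun h => ⟨c1, ρ, ⟨d1, d2, d3, d4, d5, d6, d7⟩, h⟩
  have b4 := (Set.ncard_le_ncard b3).trans (Set.ncard_union_le _ _)
  have b5 := (Nat.cast_le (α := ℝ)).2 b4
  push_cast at b5
  nlinarith [mul_le_mul_of_nonneg_right b5 (show (0 : ℝ) ≤ n + 1 by positivity)]

theorem main {K L k l : ℕ} (hK : 0 < K) (hL : 0 < L) (hKL : (K, L) ≠ (1, 1)) (hk : 0 < k)
    (hl : 0 < l) (hkl : 4 ≤ k + l) :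
    Tendsto (fun n : ℕ => (({M | M ∈ UC n K L ∧ KLUniform k l M}.ncard : ℝ) / (UC n K L).ncard))
      atTop (nhds 1) := by
  have h0 : Tendsto (fun n : ℕ => 1 - ((1 / 2 : ℝ) ^ n + 3 / (n : ℝ))) atTop (nhds (1 - (0 + 0))) :=
    tendsto_const_nhds.sub ((tendsto_pow_atTop_nhds_zero_of_lt_one (by norm_num) (by norm_num)).add
      (tendsto_const_div_atTop_nhds_zero_nat 3))
  rw [add_zero, sub_zero] at h0
  refine tendsto_of_tendsto_of_tendsto_of_le_of_le' h0 tendsto_const_nhds ?_ ?_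
  · filter_upwards [ev_poly, eventually_ge_atTop 8, zero K L hK hL, rare hK hL hk hl hkl]
      with n h1 hn h2 h3
    have := finite_matroid n
    obtain ⟨g, g1, g2⟩ := lower (n := n) hK hL hKL (by omega)
    replace g2 : 2 ^ g ≤ (UC n K L).ncard :=
      g2.trans (Set.ncard_le_ncard fun M hM => ⟨hM.1, hM.2.2⟩)
    have a1 := count_ext (n := n)
    have a3 := ext_card (n := n)
    have hn0 : (0 : ℝ) < n := by exact_mod_cast (by omega : 0 < n)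
    have a4 : (Ext n).ncard + n ≤ g := by
      have b1 : (2 : ℝ) ^ n ≤ (n + 1) * (n * g) := by exact_mod_cast g1
      have b2 := le_of_mul_le_mul_left (le_of_mul_le_mul_left (h1.trans b1) (by positivity)) hn0
      have b3 : ((Ext n).ncard : ℝ) + n ≤ g := by linarith
      exact_mod_cast b3
    have a5 : UC n K L ⊆ ({M | M ∈ UC n K L ∧ KLUniform k l M} ∪
        {M : Matroid (Fin n) | M.E = Set.univ ∧ ∀ B, M.IsBase B → B ∈ Ext n}) ∪
        ({M | M ∈ UC n K L ∧ Mid M ∧ Tiny M} ∪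
        {M | M ∈ UC n K L ∧ Mid M ∧ ¬ Tiny M ∧ ¬ KLUniform k l M}) := fun M hM => by
      by_cases c1 : KLUniform k l M
      · exact Or.inl (Or.inl ⟨hM, c1⟩)
      by_cases c2 : ∀ B, M.IsBase B → B ∈ Ext n
      · exact Or.inl (Or.inr ⟨hM.1, c2⟩)
      push Not at c2
      by_cases c3 : Tiny M
      · exact Or.inr (Or.inl ⟨hM, c2, c3⟩)
      · exact Or.inr (Or.inr ⟨hM, c2, c3, c1⟩)
    have a6 := (Set.ncard_le_ncard a5).trans ((Set.ncard_union_le _ _).trans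
      (Nat.add_le_add (Set.ncard_union_le _ _) (Set.ncard_union_le _ _)))
    generalize {M | M ∈ UC n K L ∧ KLUniform k l M}.ncard = G at *
    generalize {M : Matroid (Fin n) | M.E = Set.univ ∧ ∀ B, M.IsBase B → B ∈ Ext n}.ncard = X at *
    generalize {M | M ∈ UC n K L ∧ Mid M ∧ Tiny M}.ncard = Y at *
    generalize {M | M ∈ UC n K L ∧ Mid M ∧ ¬ Tiny M ∧ ¬ KLUniform k l M}.ncard = Z at *
    generalize (UC n K L).ncard = D at *
    have a7 : X * 2 ^ n ≤ D := (Nat.mul_le_mul_right _ a1).trans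
      (by rw [← pow_add]; exact (Nat.pow_le_pow_right (by norm_num) a4).trans g2)
    have hD : (0 : ℝ) < D := by exact_mod_cast lt_of_lt_of_le (by positivity) g2
    have c1 : (X : ℝ) ≤ (1 / 2) ^ n * D := by
      rw [one_div, inv_pow, inv_mul_eq_div, le_div_iff₀ (by positivity)]
      exact_mod_cast a7
    have c2 : (Y + Z : ℝ) ≤ 3 / n * D := by
      have d1 : (n * Y : ℝ) ≤ D := by exact_mod_cast h2
      rw [div_mul_eq_mul_div, le_div_iff₀ hn0]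
      nlinarith [Nat.cast_nonneg (α := ℝ) Z]
    have c3 : (D : ℝ) ≤ G + X + (Y + Z) := by exact_mod_cast a6
    rw [le_div_iff₀ hD]
    linarith
  · refine Eventually.of_forall fun n => div_le_one_of_le₀ ?_ (by positivity)
    have := finite_matroid n
    exact_mod_cast Set.ncard_le_ncard (Set.sep_subset _ _)

theorem unif_mono {k l : ℕ} {M : Matroid (Fin n)} (hE : M.E = Set.univ) (h : KLUniform k l M) :
    KLUniform (k + 1) l M := by
  obtain ⟨B, hB⟩ := M.exists_isBase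
  have hr : ∀ B', M.IsBase B' → B'.ncard = B.ncard := fun B' h' => by
    rw [Set.ncard, Set.ncard, h'.encard_eq_encard_of_isBase hB]
  by_contra hc
  obtain ⟨X, hX⟩ := (not_unif_iff hE hr _ _).1 hc
  exact (not_unif_iff hE hr _ _).2 ⟨X, fun I h1 h2 => by have := hX I h1 h2; omega⟩ h

end Pool.Agent.Lib.MP_8860fd_co.J
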