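import Pool.Agent.Lib.MP_8860fd_co.Count

-- part Pool.Agent.Lib.MP_8860fd_co.JDefs
section

/-! Definitions for the general switching argument (Johnson graph language). -/

namespace Pool.Agent.Lib.MP_8860fd_co.J

open Finset Filter

variable {n : ℕ}

/-- the class of `(K, L)`-uniform matroids on `[n]` -/
def UC (n K L : ℕ) : Set (Matroid (Fin n)) := {M | M.E = Set.univ ∧ KLUniform K L M}

/-- rank in the middle window -/
def Mid (M : Matroid (Fin n)) : Prop := ∃ B, M.IsBase B ∧ B ∉ Ext n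

/-- girth or cogirth at most two -/
def Tiny (M : Matroid (Fin n)) : Prop :=
  ∃ X : Set (Fin n), X.ncard ≤ 2 ∧ (¬ M.Indep X ∨ ¬ M.Spanning Xᶜ)

/-- flipping one element -/
def fl (A : Finset (Fin n)) (d : Fin n) : Finset (Fin n) := symmDiff A {d}

/-- Hamming distance -/
def ds (A B : Finset (Fin n)) : ℕ := (symmDiff A B).card

/-- the `r`-sets at distance at most two -/
def obj (r : ℕ) (F : Finset (Fin n)) : Finset (Finset (Fin n)) :=
  univ.filter fun x => x.card = r ∧ ds x F ≤ 2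

/-- the data handed to the decoder -/
structure Root (n : ℕ) where
  r : ℕ
  g : ℕ
  G : Finset (Fin n)
  bad : Finset (Finset (Fin n))
  F0 : Finset (Fin n)

/-- good trace -/
def Root.good (ρ : Root n) (A : Finset (Fin n)) : Prop := A ∩ ρ.G ∉ ρ.bad

/-- the threshold -/
def Root.th (ρ : Root n) (κ : ℕ) : ℕ := (κ + 67) * ρ.g

open Classical in
/-- the points known from the start -/
noncomputable def Root.init (ρ : Root n) : Finset (Finset (Fin n)) :=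
  univ.filter fun x => x.card = ρ.r ∧ (¬ ρ.good x ∨ ds x ρ.F0 ≤ 2)

open Classical in
/-- the axioms satisfied by the family `N` of non-bases -/
structure Ax (κ : ℕ) (ρ : Root n) (N : Finset (Finset (Fin n))) : Prop where
  pt : ∀ t ∈ N, t.card = ρ.r
  hG : ρ.G.card ≤ ρ.g
  hg : 2 ≤ ρ.g
  lo : 2 * ρ.th κ ≤ ρ.r
  hi : ρ.r + 2 * ρ.th κ ≤ n
  L1 : ∀ t ∈ N, ∀ a b, a ≠ b → fl (fl t a) b ∈ N → obj ρ.r (fl t a) ⊆ N ∨ obj ρ.r (fl t b) ⊆ N
  L2 : ∀ t : Finset (Fin n), t.card = ρ.r → ∀ a b, a ≠ b → (a ∈ t ↔ b ∈ t) →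
    obj ρ.r (fl t a) ⊆ N → obj ρ.r (fl t b) ⊆ N →
    obj ρ.r t ⊆ N ∨ obj ρ.r (fl (fl t a) b) ⊆ N
  T1 : ∀ t : Finset (Fin n), t.card = ρ.r → ¬ ρ.good t → t ∈ N
  T2 : ∀ t ∈ N, ρ.good t → ∀ d, (obj ρ.r (fl t d) \ N).card ≤ ρ.th κ → obj ρ.r (fl t d) ⊆ N
  T3 : ∀ t : Finset (Fin n), t.card = ρ.r → ρ.good t → ∀ d, ¬ ρ.good (fl t d) →
    3 ≤ ((obj ρ.r (fl t d)).filter ρ.good).card
  T4 : ∀ t : Finset (Fin n), t.card = ρ.r → ρ.good t →
    (univ.filter fun d => ¬ ρ.good (fl t d)).card ≤ κ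
  T5 : ∀ t : Finset (Fin n), t.card = ρ.r → ρ.good t → ∀ a b, a ≠ b → (a ∈ t ↔ b ∈ t) →
    ¬ ρ.good (fl t a) → ¬ ρ.good (fl (fl t a) b)
  F0 : obj ρ.r ρ.F0 ⊆ N
  F0e : ρ.F0.card = ρ.r ∨ ρ.F0.card = ρ.r + 2 ∨ ρ.F0.card + 2 = ρ.r

/-- closed under adjacency inside `N` -/
def AdjCl (N U : Finset (Finset (Fin n))) : Prop := ∀ x ∈ U, ∀ y ∈ N, ds x y ≤ 2 → y ∈ U

/-- stable sets of the Johnson graph -/
def Stab (T : Finset (Finset (Fin n))) : Prop := ∀ t ∈ T, ∀ u ∈ T, ds t u ≤ 2 → t = u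

open Classical in
/-- the non-bases of size `r` -/
noncomputable def NB (M : Matroid (Fin n)) (r : ℕ) : Finset (Finset (Fin n)) :=
  univ.filter fun x => x.card = r ∧ ¬ M.IsBase (x : Set (Fin n))

/-- Stage zero: matroids with girth or cogirth at most two are rare. -/
def ZeroStmt : Prop := ∀ K L : ℕ, 0 < K → 0 < L → ∀ᶠ n : ℕ in atTop,
  n * {M | M ∈ UC n K L ∧ Mid M ∧ Tiny M}.ncard ≤ (UC n K L).ncard

/-- The switching produces a matroid of the class. -/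
def SwitchStmt : Prop := ∀ (n K L r : ℕ) (M : Matroid (Fin n)), M ∈ UC n K L →
  (∀ B, M.IsBase B → B.ncard = r) → ∀ U T : Finset (Finset (Fin n)), U ⊆ NB M r →
  AdjCl (NB M r) U → T ⊆ U → Stab T →
  ∃ M' ∈ UC n K L, (∀ B, M'.IsBase B → B.ncard = r) ∧ NB M' r = (NB M r \ U) ∪ T

/-- The root of a matroid: either there are no bad traces, or there are many bad points. -/
def RootStmt : Prop := ∀ K L : ℕ, 0 < K → 0 < L → ∃ c : ℕ, 0 < c ∧ ∀ᶠ n : ℕ in atTop,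
  ∀ M ∈ UC n K L, Mid M → ¬ Tiny M → ∀ k l : ℕ, 0 < k → 0 < l → 4 ≤ k + l → ¬ KLUniform k l M →
  ∃ ρ : Root n, (∀ B, M.IsBase B → B.ncard = ρ.r) ∧ n ≤ 4 * ρ.r ∧ 4 * ρ.r ≤ 3 * n ∧
    n ≤ c * ρ.g ∧ 500 * ρ.g ≤ n ∧ ρ.bad ⊆ ρ.G.powerset ∧ Ax (K + L) ρ (NB M ρ.r) ∧
    (ρ.bad = ∅ ∨ 2 ^ (n / 8) ≤ ρ.init.card)

end Pool.Agent.Lib.MP_8860fd_co.J
end

-- part Pool.Agent.Lib.MP_8860fd_co.JGeo
section

/-! Geometry of the Johnson graph. -/

namespace Pool.Agent.Lib.MP_8860fd_co.J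

open Finset

variable {n r : ℕ} {A B F t x y z : Finset (Fin n)} {a b c d : Fin n}

theorem mem_fl : a ∈ fl A d ↔ (a ∈ A ↔ a ≠ d) := by
  simp only [fl, mem_symmDiff, mem_singleton]
  tauto

@[simp] theorem fl_fl (A : Finset (Fin n)) (d : Fin n) : fl (fl A d) d = A :=
  symmDiff_symmDiff_cancel_right _ _

theorem fl_comm (A : Finset (Fin n)) (a b : Fin n) : fl (fl A a) b = fl (fl A b) a :=
  symmDiff_right_comm _ _ _

@[simp] theorem fl_fl_fl (A : Finset (Fin n)) (a b : Fin n) : fl (fl (fl A a) b) a = fl A b := by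
  rw [fl_comm A, fl_fl]

theorem card_fl_mem (h : d ∈ A) : (fl A d).card + 1 = A.card := by
  have : fl A d = A.erase d := by
    ext e
    rw [mem_fl, mem_erase]
    by_cases h' : e = d <;> simp [h', h]
  rw [this, card_erase_add_one h]

theorem card_fl_not (h : d ∉ A) : (fl A d).card = A.card + 1 := by
  have : fl A d = insert d A := by
    ext e
    rw [mem_fl, mem_insert]
    by_cases h' : e = d <;> simp [h', h]
  rw [this, card_insert_of_notMem h]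

theorem card_fl (A : Finset (Fin n)) (d : Fin n) :
    (d ∈ A ∧ (fl A d).card + 1 = A.card) ∨ (d ∉ A ∧ (fl A d).card = A.card + 1) := by
  by_cases h : d ∈ A
  · exact Or.inl ⟨h, card_fl_mem h⟩
  · exact Or.inr ⟨h, card_fl_not h⟩

theorem fl_inj (h : fl A a = fl A b) : a = b := by
  have := symmDiff_right_injective A h
  simpa using this

theorem ds_comm (A B : Finset (Fin n)) : ds A B = ds B A := by rw [ds, ds, symmDiff_comm]

@[simp] theorem ds_self (A : Finset (Fin n)) : ds A A = 0 := by simp [ds]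

theorem ds_tri (A B C : Finset (Fin n)) : ds A C ≤ ds A B + ds B C :=
  (card_le_card (symmDiff_triangle A B C)).trans (card_union_le _ _)

@[simp] theorem ds_fl (A : Finset (Fin n)) (d : Fin n) : ds (fl A d) A = 1 := by
  rw [ds, fl, symmDiff_comm A, symmDiff_symmDiff_cancel_right, card_singleton]

@[simp] theorem ds_fl' (A : Finset (Fin n)) (d : Fin n) : ds A (fl A d) = 1 := by
  rw [ds_comm, ds_fl]

theorem ds_fl2 (A : Finset (Fin n)) (a b : Fin n) : ds A (fl (fl A a) b) ≤ 2 := by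
  have := ds_tri A (fl A a) (fl (fl A a) b)
  simpa using this

theorem ds_fl_fl (A : Finset (Fin n)) (a b : Fin n) : ds (fl A a) (fl A b) ≤ 2 := by
  have := ds_tri (fl A a) A (fl A b)
  simpa using this

theorem ds_fl_eq (A B : Finset (Fin n)) (d : Fin n) :
    ds (fl A d) B = (fl (symmDiff A B) d).card := by
  rw [ds, fl, fl, symmDiff_right_comm]

theorem ds_cases (h : ds x F ≤ 2) :
    x = F ∨ (∃ a, x = fl F a) ∨ ∃ a b, a ≠ b ∧ x = fl (fl F a) b := by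
  have h1 : x = symmDiff F (symmDiff x F) := by
    rw [symmDiff_comm x, symmDiff_symmDiff_cancel_left]
  unfold ds at h
  generalize symmDiff x F = D at *
  obtain h0 | h0 | h0 : D.card = 0 ∨ D.card = 1 ∨ D.card = 2 := by omega
  · rw [card_eq_zero] at h0
    left
    rw [h1, h0]
    exact symmDiff_bot F
  · obtain ⟨a, rfl⟩ := card_eq_one.1 h0
    exact Or.inr (Or.inl ⟨a, h1⟩)
  · obtain ⟨a, b, hab, rfl⟩ := card_eq_two.1 h0
    refine Or.inr (Or.inr ⟨a, b, hab, h1.trans ?_⟩)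
    rw [fl, fl, symmDiff_assoc]
    congr 1
    ext e
    simp only [mem_symmDiff, mem_singleton, mem_insert]
    grind

/-- lines -/
def Ln (r : ℕ) (A : Finset (Fin n)) : Prop := A.card = r + 1 ∨ A.card + 1 = r

/-- balls and planes -/
def Ev (r : ℕ) (F : Finset (Fin n)) : Prop := F.card = r ∨ F.card = r + 2 ∨ F.card + 2 = r

theorem mem_obj : x ∈ obj r F ↔ x.card = r ∧ ds x F ≤ 2 := by simp [obj]

theorem ln_fl (h : t.card = r) (d : Fin n) : Ln r (fl t d) := by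
  have := card_fl t d
  unfold Ln
  omega

theorem line_pt (hA : Ln r A) (h : x ∈ obj r A) : ∃ a, x = fl A a := by
  obtain ⟨h1, h2⟩ := mem_obj.1 h
  unfold Ln at hA
  rcases ds_cases h2 with rfl | h | ⟨a, b, -, rfl⟩
  · omega
  · exact h
  · have := card_fl A a
    have := card_fl (fl A a) b
    omega

theorem ev_pt (hF : Ev r F) (h : x ∈ obj r F) : x = F ∨ ∃ a b, a ≠ b ∧ x = fl (fl F a) b := by
  obtain ⟨h1, h2⟩ := mem_obj.1 h
  unfold Ev at hF
  rcases ds_cases h2 with h | ⟨a, rfl⟩ | h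
  · exact Or.inl h
  · have := card_fl F a
    omega
  · exact Or.inr h

theorem adj_pt (hx : x.card = r) (hy : y.card = r) (h : ds x y ≤ 2) :
    y = x ∨ ∃ a b, a ≠ b ∧ y = fl (fl x a) b :=
  ev_pt (Or.inl hx) (mem_obj.2 ⟨hy, by rwa [ds_comm]⟩)

theorem fl_mem_obj (h : (fl A a).card = r) : fl A a ∈ obj r A := mem_obj.2 ⟨h, by simp⟩

theorem self_mem_obj (h : t.card = r) (d : Fin n) : t ∈ obj r (fl t d) := mem_obj.2 ⟨h, by simp⟩

theorem ds_line (hA : Ln r A) (hx : x ∈ obj r A) : ds x A = 1 := by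
  obtain ⟨a, rfl⟩ := line_pt hA hx
  simp

theorem ds_of_line (hA : Ln r A) (hx : x ∈ obj r A) (hy : y ∈ obj r A) : ds x y ≤ 2 := by
  have := ds_tri x A y
  rw [ds_line hA hx, ds_comm A, ds_line hA hy] at this
  exact this

theorem obj_sub (hA : Ln r A) (h : ds A F ≤ 1) : obj r A ⊆ obj r F := fun x hx => by
  have := ds_tri x A F
  rw [ds_line hA hx] at this
  exact mem_obj.2 ⟨(mem_obj.1 hx).1, by omega⟩

theorem opp_iff (ht : t.card = r) (hab : a ≠ b) :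
    (fl (fl t a) b).card = r ↔ ¬ (a ∈ t ↔ b ∈ t) := by
  have h1 := card_fl t a
  have h2 := card_fl (fl t a) b
  rw [mem_fl] at h2
  have := hab.symm
  grind

theorem ev_fl (ht : t.card = r) (a b : Fin n) : Ev r (fl (fl t a) b) := by
  have h1 := card_fl t a
  have h2 := card_fl (fl t a) b
  unfold Ev
  omega

/-- directions from a line to its points -/
def tw (r : ℕ) (A : Finset (Fin n)) : Finset (Fin n) := univ.filter fun a => (fl A a).card = r

theorem mem_tw : a ∈ tw r A ↔ (fl A a).card = r := by simp [tw]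

theorem tw_iff (hA : Ln r A) : (fl A a).card = r ↔ (a ∈ A ↔ r < A.card) := by
  have h1 := card_fl A a
  unfold Ln at hA
  grind

theorem card_tw {m : ℕ} (hA : Ln r A) (h1 : m ≤ r) (h2 : r + m ≤ n) : m ≤ (tw r A).card := by
  rcases hA with h | h
  · have : tw r A = A := by
      ext a
      rw [mem_tw, tw_iff (Or.inl h)]
      grind
    rw [this]
    omega
  · have : tw r A = Aᶜ := by
      ext a
      rw [mem_tw, tw_iff (Or.inr h), mem_compl]
      grind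
    rw [this, card_compl, Fintype.card_fin]
    omega

theorem obj_sub_image (hA : Ln r A) : obj r A ⊆ (tw r A).image (fl A) := fun x hx => by
  obtain ⟨a, rfl⟩ := line_pt hA hx
  exact mem_image_of_mem _ (mem_tw.2 (mem_obj.1 hx).1)

theorem card_obj_le (hA : Ln r A) : (obj r A).card ≤ n :=
  (card_le_card (obj_sub_image hA)).trans (card_image_le.trans (by simpa using card_le_univ (tw r A)))

theorem near_line (hA : Ln r A) (h : 2 ≤ ds A F) :
    obj r A ∩ obj r F ⊆ (symmDiff A F).image (fl A) := fun x hx => by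
  obtain ⟨h1, h2⟩ := mem_inter.1 hx
  obtain ⟨a, rfl⟩ := line_pt hA h1
  refine mem_image_of_mem _ (by_contra fun hc => ?_)
  have h3 := (mem_obj.1 h2).2
  rw [ds_fl_eq, card_fl_not hc] at h3
  unfold ds at h
  omega

theorem two_lines (hA : Ln r A) (hB : Ln r B) (h : A ≠ B) : (obj r A ∩ obj r B).card ≤ 2 := by
  rcases (obj r A ∩ obj r B).eq_empty_or_nonempty with h0 | ⟨x, hx⟩
  · simp [h0]
  obtain ⟨h1, h2⟩ := mem_inter.1 hx
  obtain ⟨a, rfl⟩ := line_pt hA h1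
  obtain ⟨b, hb⟩ := line_pt hB h2
  have h3 : B = fl (fl A a) b := by rw [hb, fl_fl]
  have h4 : ds A B ≤ 2 := h3 ▸ ds_fl2 A a b
  have hab : a ≠ b := fun e => h (by rw [h3, e, fl_fl])
  have h5 : 2 ≤ ds A B := by
    rw [ds_comm, h3, ds_fl_eq, card_fl_not]
    · change 2 ≤ ds (fl A a) A + 1
      simp
    · rw [fl, symmDiff_comm A, symmDiff_symmDiff_cancel_right, mem_singleton]
      exact hab.symm
  exact (card_le_card (near_line hA h5)).trans (card_image_le.trans h4)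

theorem three_pts (hA : Ln r A) (h : 2 ≤ ds A F) : (obj r A ∩ obj r F).card ≤ 3 := by
  rcases (obj r A ∩ obj r F).eq_empty_or_nonempty with h0 | ⟨x, hx⟩
  · simp [h0]
  obtain ⟨h1, h2⟩ := mem_inter.1 hx
  have h3 := ds_tri A x F
  rw [ds_comm A x, ds_line hA h1] at h3
  have h4 := (mem_obj.1 h2).2
  exact (card_le_card (near_line hA h)).trans (card_image_le.trans (by unfold ds at *; omega))

theorem good_fl {ρ : Root n} (h : a ∉ ρ.G) : ρ.good (fl A a) ↔ ρ.good A := by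
  have : fl A a ∩ ρ.G = A ∩ ρ.G := by
    ext e
    simp only [mem_inter, mem_fl]
    grind
  rw [Root.good, Root.good, this]

theorem plane_sub {N U : Finset (Finset (Fin n))} (hU : AdjCl N U) (hx : x ∈ U) (hr : x.card = r)
    (hab : a ≠ b) (hs : a ∈ x ↔ b ∈ x) (h : obj r (fl (fl x a) b) ⊆ N) :
    obj r (fl (fl x a) b) ⊆ U := by
  intro z hz
  have hne : (fl (fl x a) b).card ≠ r := fun e => (opp_iff hr hab).1 e hs
  have h6 := ev_fl hr a b
  have hx' : x = fl (fl (fl (fl x a) b) a) b := by rw [fl_fl_fl, fl_fl]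
  generalize fl (fl x a) b = S at *
  have hz1 := (mem_obj.1 hz).1
  rcases ev_pt h6 hz with e | ⟨c, d, hcd, e⟩
  · exact absurd (e ▸ hz1) hne
  by_cases hc : c = a
  · refine hU x hx z (h hz) ?_
    rw [e, hc, hx']
    exact ds_fl_fl _ _ _
  · have hw : (fl (fl S a) c).card = r := by
      have h1 := card_fl S a
      have h2 := card_fl (fl S a) b
      have h3 := card_fl S c
      have h4 := card_fl (fl S c) d
      have h5 := card_fl (fl S a) c
      rw [← hx'] at h2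
      rw [← e] at h4
      rw [mem_fl] at h5
      simp only [ne_eq, hc, not_false_eq_true, iff_true] at h5
      unfold Ev at h6
      by_cases h7 : c ∈ S <;> by_cases h8 : a ∈ S <;>
        simp only [h7, h8, true_and, false_and, not_true, not_false_eq_true, or_false,
          false_or] at h1 h3 h5 <;> omega
    have hw' : fl (fl S a) c ∈ U := by
      refine hU x hx _ (h (mem_obj.2 ⟨hw, ?_⟩)) ?_
      · rw [ds_comm]; exact ds_fl2 _ _ _
      · rw [hx']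
        exact ds_fl_fl _ _ _
    refine hU _ hw' z (h hz) ?_
    rw [e, fl_comm S a]
    exact ds_fl_fl _ _ _

theorem ev_line (hF : Ev r F) (hn : 0 < n) (hx : x ∈ obj r F) :
    ∃ d, obj r (fl x d) ⊆ obj r F := by
  have hr := (mem_obj.1 hx).1
  rcases ev_pt hF hx with rfl | ⟨a, b, -, rfl⟩
  · exact ⟨⟨0, hn⟩, obj_sub (ln_fl hr _) (by simp)⟩
  · exact ⟨b, obj_sub (ln_fl hr _) (by simp)⟩

theorem card_ball (x : Finset (Fin n)) (k : ℕ) :
    (univ.filter fun F => ds x F ≤ k).card ≤ (n + 1) ^ k := by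
  induction k with
  | zero =>
    rw [pow_zero, card_le_one]
    intro A hA B hB
    simp only [mem_filter, mem_univ, true_and, nonpos_iff_eq_zero, ds, card_eq_zero] at hA hB
    exact (symmDiff_eq_bot.1 hA).symm.trans (symmDiff_eq_bot.1 hB)
  | succ k ih =>
    have : (univ.filter fun F => ds x F ≤ k + 1) ⊆
        ((univ.filter fun F => ds x F ≤ k) ×ˢ (univ : Finset (Option (Fin n)))).image
          fun p => p.2.elim p.1 (fl p.1) := by
      intro F hF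
      simp only [mem_filter, mem_univ, true_and] at hF
      by_cases h : ds x F ≤ k
      · exact mem_image.2 ⟨(F, none), by simpa using h, rfl⟩
      · obtain ⟨a, ha⟩ : (symmDiff F x).Nonempty := by
          rw [← card_pos]
          change 0 < ds F x
          rw [ds_comm]
          omega
        refine mem_image.2 ⟨(fl F a, some a), ?_, by simp⟩
        have := card_fl_mem ha
        rw [← ds_fl_eq, ds_comm] at this
        change _ = ds F x at this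
        rw [ds_comm F] at this
        simp only [mem_product, mem_filter, mem_univ, true_and, and_true]
        omega
    refine (card_le_card this).trans (card_image_le.trans ?_)
    rw [card_product, card_univ, Fintype.card_option, Fintype.card_fin, pow_succ]
    exact Nat.mul_le_mul_right _ ih

theorem colour (hn : 0 < n) (Y : Finset (Finset (Fin n))) (hY : ∀ x ∈ Y, x.card = r) :
    ∃ E ⊆ Y, Stab E ∧ Y.card ≤ n * E.card := by
  have : NeZero n := ⟨by omega⟩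
  obtain ⟨a, -, ha⟩ := exists_max_image (univ : Finset (Fin n))
    (fun a => (Y.filter fun X : Finset (Fin n) => ∑ e ∈ X, e = a).card) univ_nonempty
  refine ⟨_, filter_subset (fun X : Finset (Fin n) => ∑ e ∈ X, e = a) Y, fun x hx y hy h => ?_, ?_⟩
  · obtain ⟨x1, x2⟩ := mem_filter.1 hx
    obtain ⟨y1, y2⟩ := mem_filter.1 hy
    rcases adj_pt (hY x x1) (hY y y1) h with e | ⟨b, c, hbc, e⟩
    · exact e.symm
    exfalso
    have key : ∀ (X : Finset (Fin n)) (e : Fin n),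
        ∑ i ∈ fl X e, i = if e ∈ X then ∑ i ∈ X, i - e else ∑ i ∈ X, i + e := by
      intro X e
      split_ifs with h
      · have : fl X e = X.erase e := by
          ext i
          rw [mem_fl, mem_erase]
          by_cases h' : i = e <;> simp [h', h]
        rw [this, sum_erase_eq_sub h]
      · have : fl X e = insert e X := by
          ext i
          rw [mem_fl, mem_insert]
          by_cases h' : i = e <;> simp [h', h]
        rw [this, sum_insert h, add_comm]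
    have h1 := (opp_iff (hY x x1) hbc).1 (e ▸ hY y y1)
    rw [e, key, key, x2] at y2
    simp only [mem_fl, ne_eq, hbc.symm, not_false_eq_true, iff_true] at y2
    by_cases h2 : b ∈ x
    · rw [if_neg (fun h => h1 (iff_of_true h2 h)), if_pos h2] at y2
      exact hbc (by rw [sub_add_eq_add_sub, sub_eq_iff_eq_add] at y2; exact (add_left_cancel y2).symm)
    · rw [if_pos (by_contra fun h => h1 (iff_of_false h2 h)), if_neg h2] at y2
      exact hbc (by rw [sub_eq_iff_eq_add] at y2; exact add_left_cancel y2)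
  · have := card_eq_sum_card_fiberwise (f := fun X : Finset (Fin n) => ∑ e ∈ X, e)
      (s := Y) (t := univ) (fun _ _ => mem_univ _)
    rw [this]
    simpa using sum_le_card_nsmul _ _ _ ha

end Pool.Agent.Lib.MP_8860fd_co.J
end

-- part Pool.Agent.Lib.MP_8860fd_co.JPre
section

/-! First consequences of the axioms. -/

namespace Pool.Agent.Lib.MP_8860fd_co.J

open Finset

variable {n κ : ℕ} {ρ : Root n} {N U K : Finset (Finset (Fin n))}
  {A B F t x y z : Finset (Fin n)} {a b c d u : Fin n}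

/-- the two closure properties shared by the non-bases and by the known points -/
structure Pre (κ : ℕ) (ρ : Root n) (K : Finset (Finset (Fin n))) : Prop where
  T1 : ∀ t : Finset (Fin n), t.card = ρ.r → ¬ ρ.good t → t ∈ K
  T2 : ∀ t ∈ K, ρ.good t → ∀ d, (obj ρ.r (fl t d) \ K).card ≤ ρ.th κ → obj ρ.r (fl t d) ⊆ K

theorem Ax.pre (h : Ax κ ρ N) : Pre κ ρ N := ⟨h.T1, h.T2⟩

/-- generic directions -/
def gen (ρ : Root n) (A : Finset (Fin n)) : Finset (Fin n) := tw ρ.r A \ ρ.G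

theorem mem_gen : a ∈ gen ρ A ↔ (fl A a).card = ρ.r ∧ a ∉ ρ.G := by rw [gen, mem_sdiff, mem_tw]

theorem th_ge (ρ : Root n) (κ : ℕ) : 67 * ρ.g ≤ ρ.th κ := Nat.mul_le_mul_right _ (by omega)

theorem Ax.card_gen (h : Ax κ ρ N) (hA : Ln ρ.r A) : 2 * ρ.th κ ≤ (gen ρ A).card + ρ.g := by
  have h1 := card_tw hA h.lo h.hi
  have h2 := le_card_sdiff ρ.G (tw ρ.r A)
  have := h.hG
  unfold gen
  omega

theorem Ax.ex_gen (h : Ax κ ρ N) (hA : Ln ρ.r A) : ∃ a, (fl A a).card = ρ.r ∧ a ∉ ρ.G := by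
  have h1 := h.card_gen hA
  have h2 := th_ge ρ κ
  have := h.hg
  obtain ⟨a, ha⟩ := card_pos.1 (show 0 < (gen ρ A).card by omega)
  exact ⟨a, mem_gen.1 ha⟩

theorem Ax.n_pos (h : Ax κ ρ N) : 0 < n := by
  have h2 := th_ge ρ κ
  have := h.hg
  have := h.hi
  omega

theorem mem_G (h1 : ρ.good A) (h2 : ¬ ρ.good (fl A a)) : a ∈ ρ.G :=
  by_contra fun h => h2 ((good_fl h).2 h1)

theorem mem_G' (h1 : ¬ ρ.good A) (h2 : ρ.good (fl A a)) : a ∈ ρ.G :=
  by_contra fun h => h1 ((good_fl h).1 h2)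

theorem card_unk (hA : Ln ρ.r A) {E : Finset (Fin n)}
    (h : ∀ a, (fl A a).card = ρ.r → a ∉ E → fl A a ∈ K) : (obj ρ.r A \ K).card ≤ E.card := by
  refine le_trans (card_le_card fun x hx => ?_) (card_image_le (s := E) (f := fl A))
  obtain ⟨h1, h2⟩ := mem_sdiff.1 hx
  obtain ⟨a, rfl⟩ := line_pt hA h1
  exact mem_image_of_mem _ (by_contra fun hc => h2 (h a (mem_obj.1 h1).1 hc))

theorem Pre.thin (hK : Pre κ ρ K) (h : Ax κ ρ N) (ht : t ∈ K) (hr : t.card = ρ.r) (hg : ρ.good t)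
    (hd : ¬ ρ.good (fl t d)) : obj ρ.r (fl t d) ⊆ K := by
  refine hK.T2 t ht hg d ((card_unk (E := ρ.G) (ln_fl hr d) fun a h1 h2 => ?_).trans ?_)
  · exact hK.T1 _ h1 fun h3 => hd ((good_fl h2).1 h3)
  · have := th_ge ρ κ
    have := h.hG
    omega

theorem Pre.line (hK : Pre κ ρ K) (h : Ax κ ρ N) (hA : Ln ρ.r A) (hg : ρ.good A)
    (hc : (obj ρ.r A \ K).card ≤ ρ.th κ) : obj ρ.r A ⊆ K := by
  by_cases h1 : ∃ a ∈ gen ρ A, fl A a ∈ K
  · obtain ⟨a, ha, h1⟩ := h1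
    have := hK.T2 _ h1 ((good_fl (mem_gen.1 ha).2).2 hg) a
    rw [fl_fl] at this
    exact this hc
  · push Not at h1
    have h2 : (gen ρ A).card ≤ (obj ρ.r A \ K).card :=
      card_le_card_of_injOn (fl A) (fun a ha => by
        rw [mem_coe] at ha
        exact mem_coe.2 (mem_sdiff.2 ⟨fl_mem_obj (mem_gen.1 ha).1, h1 a ha⟩))
        fun a _ b _ e => fl_inj e
    have := h.card_gen hA
    have := th_ge ρ κ
    have := h.hg
    omega

theorem Pre.par (hK : Pre κ ρ K) (h : Ax κ ρ N) (hr : t.card = ρ.r) (hg : ρ.good t) (hu : u ∉ ρ.G)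
    (hf : obj ρ.r (fl t u) ⊆ K) (hd : ¬ ρ.good (fl t d)) (hz : (fl (fl t d) b).card = ρ.r)
    (hzg : ρ.good (fl (fl t d) b)) : obj ρ.r (fl (fl (fl t d) b) u) ⊆ K := by
  have hdG := mem_G hg hd
  have hbG := mem_G' hd hzg
  refine hK.line h (ln_fl hz u) ((good_fl hu).2 hzg)
    ((card_unk (E := ρ.G) (ln_fl hz u) fun a h1 h2 => ?_).trans ?_)
  · have hx : (fl (fl t u) a).card = ρ.r := by
      by_cases e : u = a
      · rw [← e, fl_fl, hr]
      · have h3 := (opp_iff hz e).1 h1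
        rw [opp_iff hr e]
        simp only [mem_fl] at h3
        grind
    have hxg : ρ.good (fl (fl t u) a) := (good_fl h2).2 ((good_fl hu).2 hg)
    have h4 := hK.thin h (d := d) (hf (fl_mem_obj hx)) hx hxg (by
      rwa [fl_comm _ a, good_fl h2, fl_comm _ u, good_fl hu])
    have e : fl (fl (fl (fl t d) b) u) a = fl (fl (fl (fl t u) a) d) b := by
      rw [fl_comm _ a d, fl_comm _ u d, fl_comm _ a b, fl_comm _ u b]
    rw [e] at h1 ⊢
    exact h4 (fl_mem_obj h1)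
  · have := th_ge ρ κ
    have := h.hG
    omega

theorem Pre.fill (hK : Pre κ ρ K) (h : Ax κ ρ N) (hF : Ev ρ.r F) (hg : ρ.good F)
    (hc : (obj ρ.r F \ K).card ≤ ρ.g * ρ.g) : obj ρ.r F ⊆ K := by
  classical
  have t1 := th_ge ρ κ
  have t2 := h.hg
  have t3 := h.hG
  set Bd := univ.filter fun a => Ln ρ.r (fl F a) ∧ ρ.th κ < (obj ρ.r (fl F a) \ K).card with hBd
  have h1 : Bd.card * ρ.th κ ≤ ((obj ρ.r F \ K).erase F).card * 2 := by
    refine card_mul_le_card_mul (fun a z => z ∈ obj ρ.r (fl F a)) (fun a ha => ?_) fun z hz => ?_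
    · obtain ⟨a1, a2⟩ := (mem_filter.1 ha).2
      have : (obj ρ.r (fl F a) \ K).erase F ⊆
          ((obj ρ.r F \ K).erase F).bipartiteAbove (fun a z => z ∈ obj ρ.r (fl F a)) a := by
        intro z hz
        simp only [mem_bipartiteAbove, mem_erase, mem_sdiff] at hz ⊢
        exact ⟨⟨hz.1, obj_sub a1 (by simp) hz.2.1, hz.2.2⟩, hz.2.1⟩
      have h2 := card_le_card this
      have h3 := pred_card_le_card_erase (s := obj ρ.r (fl F a) \ K) (a := F)
      omega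
    · simp only [mem_erase, mem_sdiff] at hz
      refine le_trans (card_le_card (t := symmDiff z F) fun a ha => ?_) (mem_obj.1 hz.2.1).2
      obtain ⟨a1, a2⟩ := (mem_bipartiteBelow _).1 ha
      have h3 := ds_line (mem_filter.1 a1).2.1 a2
      by_contra hcon
      rw [ds_comm, ds_fl_eq, card_fl_not (by rwa [symmDiff_comm])] at h3
      exact hz.1 (symmDiff_eq_bot.1 (card_eq_zero.1 (by omega))).symm
  have h2 : Bd.card ≤ ρ.g := by
    have h3 : ((obj ρ.r F \ K).erase F).card ≤ ρ.g * ρ.g := card_erase_le.trans hc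
    by_contra hcon
    have : (ρ.g + 1) * (67 * ρ.g) ≤ Bd.card * ρ.th κ := Nat.mul_le_mul (by omega) t1
    nlinarith
  have h3 : ∀ a, Ln ρ.r (fl F a) → ρ.good (fl F a) → obj ρ.r (fl F a) ⊆ K := by
    intro a a1 a2
    refine hK.line h a1 a2 ((card_unk (E := ρ.G ∪ Bd) a1 fun b b1 b2 => ?_).trans ?_)
    · rw [mem_union, not_or] at b2
      rw [fl_comm] at b1 ⊢
      have b3 : Ln ρ.r (fl F b) := by simpa using ln_fl b1 a
      refine hK.line h b3 ((good_fl b2.1).2 hg) (not_lt.1 fun hlt => b2.2 ?_) (fl_mem_obj b1)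
      exact mem_filter.2 ⟨mem_univ _, b3, hlt⟩
    · have := card_union_le ρ.G Bd
      omega
  have h4 : F.card = ρ.r → F ∈ K := fun hr => by
    obtain ⟨a, -, ha⟩ := exists_mem_notMem_of_card_lt_card (s := ρ.G) (t := univ) (by
      have := h.hi
      rw [card_univ, Fintype.card_fin]
      omega)
    exact h3 a (ln_fl hr a) ((good_fl ha).2 hg) (self_mem_obj hr a)
  intro z hz
  have hzr := (mem_obj.1 hz).1
  by_cases hzg : ρ.good z
  swap
  · exact hK.T1 z hzr hzg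
  rcases ev_pt hF hz with rfl | ⟨a, b, hab, rfl⟩
  · exact h4 hzr
  have a1 : Ln ρ.r (fl F a) := by simpa using ln_fl hzr b
  by_cases a2 : ρ.good (fl F a)
  · exact h3 a a1 a2 (fl_mem_obj hzr)
  by_cases hr : F.card = ρ.r
  · exact hK.thin h (h4 hr) hr hg a2 (fl_mem_obj hzr)
  · have h5 := h.T5 _ hzr hzg b a hab.symm (by_contra fun hc => hr (by
      simpa using (opp_iff hzr hab.symm).2 hc)) (by simpa using a2)
    simp only [fl_fl] at h5
    exact absurd hg h5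

theorem AdjCl.line (hU : AdjCl N U) (hx : x ∈ U) (hr : x.card = ρ.r)
    (h : obj ρ.r (fl x d) ⊆ N) : obj ρ.r (fl x d) ⊆ U := fun y hy =>
  hU x hx y (h hy) (ds_of_line (ln_fl hr d) (self_mem_obj hr d) hy)

theorem mem_init : x ∈ ρ.init ↔ x.card = ρ.r ∧ (¬ ρ.good x ∨ ds x ρ.F0 ≤ 2) := by
  simp [Root.init]

theorem Ax.init_sub (h : Ax κ ρ N) : ρ.init ⊆ N := fun x hx => by
  obtain ⟨h1, h2 | h2⟩ := mem_init.1 hx
  · exact h.T1 x h1 h2
  · exact h.F0 (mem_obj.2 ⟨h1, h2⟩)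

/-- a union of components containing the initial points satisfies the axioms -/
theorem Ax.comp (h : Ax κ ρ N) (h1 : U ⊆ N) (h2 : ρ.init ⊆ U) (hU : AdjCl N U) : Ax κ ρ U where
  pt t ht := h.pt t (h1 ht)
  hG := h.hG
  hg := h.hg
  lo := h.lo
  hi := h.hi
  L1 t ht a b hab hb := (h.L1 t (h1 ht) a b hab (h1 hb)).imp (hU.line ht (h.pt t (h1 ht)))
    (hU.line ht (h.pt t (h1 ht)))
  L2 t hr a b hab hs ha hb := by
    have ht : t ∈ U := ha (self_mem_obj hr a)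
    refine (h.L2 t hr a b hab hs (ha.trans h1) (hb.trans h1)).imp (fun h3 y hy => ?_)
      (plane_sub hU ht hr hab hs)
    exact hU t ht y (h3 hy) (by rw [ds_comm]; exact (mem_obj.1 hy).2)
  T1 t hr hg := h2 (mem_init.2 ⟨hr, Or.inl hg⟩)
  T2 t ht hg d hc := hU.line ht (h.pt t (h1 ht)) (h.T2 t (h1 ht) hg d
    ((card_le_card (sdiff_subset_sdiff subset_rfl h1)).trans hc))
  T3 := h.T3
  T4 := h.T4
  T5 := h.T5
  F0 x hx := h2 (mem_init.2 ⟨(mem_obj.1 hx).1, Or.inr (mem_obj.1 hx).2⟩)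
  F0e := h.F0e

/-- full balls and planes with good trace -/
def Big (ρ : Root n) (U : Finset (Finset (Fin n))) (F : Finset (Fin n)) : Prop :=
  Ev ρ.r F ∧ ρ.good F ∧ obj ρ.r F ⊆ U

/-- heavy points -/
def Hv (ρ : Root n) (U : Finset (Finset (Fin n))) (z : Finset (Fin n)) : Prop :=
  ∃ F, Big ρ U F ∧ ds z F ≤ 2

/-- full lines with good trace -/
def FL (ρ : Root n) (U : Finset (Finset (Fin n))) (A : Finset (Fin n)) : Prop :=
  Ln ρ.r A ∧ ρ.good A ∧ obj ρ.r A ⊆ U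

theorem Ax.two (h : Ax κ ρ U) (hr : x.card = ρ.r) (hg : ρ.good x) (hab : a ≠ b)
    (hs : a ∈ x ↔ b ∈ x) (ha : obj ρ.r (fl x a) ⊆ U) (hb : obj ρ.r (fl x b) ⊆ U)
    (hp : ρ.good (fl (fl x a) b)) (hz : z ∈ obj ρ.r (fl x a)) : Hv ρ U z := by
  rcases h.L2 x hr a b hab hs ha hb with h1 | h1
  · exact ⟨x, ⟨Or.inl hr, hg, h1⟩, ds_of_line (ln_fl hr a) hz (self_mem_obj hr a)⟩
  · exact ⟨_, ⟨ev_fl hr a b, hp, h1⟩, (mem_obj.1 (obj_sub (ln_fl hr a) (by simp) hz)).2⟩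

/-- two adjacent points lie on a common full line -/
theorem Ax.join (h : Ax κ ρ U) (hx : x ∈ U) (hy : y ∈ U) (hd : ds x y ≤ 2) (hne : y ≠ x) :
    ∃ a b, a ≠ b ∧ y = fl (fl x a) b ∧ obj ρ.r (fl x a) ⊆ U := by
  rcases adj_pt (h.pt x hx) (h.pt y hy) hd with e | ⟨a, b, hab, e⟩
  · exact absurd e hne
  rcases h.L1 x hx a b hab (e ▸ hy) with h1 | h1
  · exact ⟨a, b, hab, e, h1⟩
  · exact ⟨b, a, hab.symm, by rw [e, fl_comm], h1⟩

/-- a point with a thin direction is adjacent to a bad point -/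
theorem Ax.bad_adj (h : Ax κ ρ U) (hA : Ln ρ.r A) (hg : ¬ ρ.good A) :
    ∃ w ∈ obj ρ.r A, ¬ ρ.good w := by
  obtain ⟨a, h1, h2⟩ := h.ex_gen hA
  exact ⟨_, fl_mem_obj h1, fun h3 => hg ((good_fl h2).1 h3)⟩

end Pool.Agent.Lib.MP_8860fd_co.J
end

-- part Pool.Agent.Lib.MP_8860fd_co.JRules
section

/-! The decoder: closure rules, soundness and completeness. -/

namespace Pool.Agent.Lib.MP_8860fd_co.J

open Finset

variable {n κ : ℕ} {ρ : Root n} {N' U K P T : Finset (Finset (Fin n))}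
  {A B F t x y z : Finset (Fin n)} {a b c d u : Fin n}

/-- answers attached to points -/
abbrev Ans (n : ℕ) := Option (Bool ⊕ Fin n)

/-- the random data -/
abbrev Om (n : ℕ) := Finset (Fin n) → Bool × Ans n

/-- almost all points of `obj F` are covered by paid sets -/
def Says (ρ : Root n) (ω : Om n) (F : Finset (Fin n)) : Prop :=
  ((obj ρ.r F).filter fun z => ∀ F', (ω F').1 = true → 2 < ds z F').card ≤ ρ.g * ρ.g

/-- the closure rules -/
structure Closed (κ : ℕ) (ρ : Root n) (N' : Finset (Finset (Fin n))) (ω : Om n)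
    (K : Finset (Finset (Fin n))) : Prop where
  r0 : ρ.init ⊆ K
  r1 : ∀ t ∈ N', ∀ x ∈ K, ds x t ≤ 2 → t ∈ K
  r2 : ∀ t ∈ K, ρ.good t → ∀ d, (obj ρ.r (fl t d) \ K).card ≤ ρ.th κ → obj ρ.r (fl t d) ⊆ K
  r3 : ∀ F, (ω F).1 = true → ∀ x ∈ K, ds x F ≤ 10 → obj ρ.r F ⊆ K
  r5 : ∀ x ∈ K, ∀ a b w, a ≠ b → (a ∈ x ↔ b ∈ x) → b ≠ w → obj ρ.r (fl x a) ⊆ K →
    ρ.good (fl (fl x a) b) → ¬ Says ρ ω (fl (fl x a) b) → fl (fl x b) w ∈ K →
    obj ρ.r (fl x w) ⊆ K
  r6 : ∀ t ∈ N', t ∈ K → ∀ u v, u ≠ v → (ω t).2 = some (Sum.inl (decide (u ∈ t))) →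
    ρ.good (fl t v) → fl (fl t u) v ∈ K → obj ρ.r (fl t u) ⊆ K
  r7 : ∀ t ∈ N', t ∈ K → ∀ c, (ω t).2 = some (Sum.inr c) → obj ρ.r (fl t c) ⊆ K

/-- the direction back to `A` is the only good full direction at `fl A y` -/
def Plain (ρ : Root n) (U : Finset (Finset (Fin n))) (A : Finset (Fin n)) (y : Fin n) : Prop :=
  ∀ a, a ≠ y → ρ.good (fl (fl A y) a) → ¬ obj ρ.r (fl (fl A y) a) ⊆ U

open Classical in
/-- plain generic directions -/
noncomputable def pl (ρ : Root n) (U : Finset (Finset (Fin n))) (A : Finset (Fin n)) :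
    Finset (Fin n) := (gen ρ A).filter (Plain ρ U A)

open Classical in
/-- light crossed generic directions -/
noncomputable def lc (ρ : Root n) (U : Finset (Finset (Fin n))) (A : Finset (Fin n)) :
    Finset (Fin n) := (gen ρ A).filter fun y => ¬ Hv ρ U (fl A y) ∧ ¬ Plain ρ U A y

/-- lines with many plain points -/
def Low (κ : ℕ) (ρ : Root n) (U : Finset (Finset (Fin n))) (A : Finset (Fin n)) : Prop :=
  FL ρ U A ∧ (κ + 64) * ρ.g ≤ (pl ρ U A).card

/-- lines with many light crossed points -/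
def High (ρ : Root n) (U : Finset (Finset (Fin n))) (A : Finset (Fin n)) : Prop :=
  FL ρ U A ∧ 2 * ρ.g ≤ (lc ρ U A).card

/-- resolved points -/
def Res (κ : ℕ) (ρ : Root n) (U : Finset (Finset (Fin n))) (z : Finset (Fin n)) : Prop :=
  Hv ρ U z ∨ ∃ c, FL ρ U (fl z c) ∧ (¬ Low κ ρ U (fl z c) ∨ ∃ d, ¬ ρ.good (fl (fl z c) d))

/-- thin full lines without resolved good points -/
def Stuck (κ : ℕ) (ρ : Root n) (U : Finset (Finset (Fin n))) (A : Finset (Fin n)) : Prop :=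
  Ln ρ.r A ∧ ¬ ρ.good A ∧ obj ρ.r A ⊆ U ∧ (∃ z ∈ obj ρ.r A, ρ.good z) ∧
    ∀ z ∈ obj ρ.r A, ρ.good z → ¬ Res κ ρ U z

theorem mem_pl : a ∈ pl ρ U A ↔ ((fl A a).card = ρ.r ∧ a ∉ ρ.G) ∧ Plain ρ U A a := by
  classical
  rw [pl, mem_filter, mem_gen]

theorem mem_lc : a ∈ lc ρ U A ↔
    ((fl A a).card = ρ.r ∧ a ∉ ρ.G) ∧ ¬ Hv ρ U (fl A a) ∧ ¬ Plain ρ U A a := by
  classical
  rw [lc, mem_filter, mem_gen]

/-- the paid family -/
structure Pay (ρ : Root n) (U P : Finset (Finset (Fin n))) : Prop where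
  p1 : ∀ F ∈ P, obj ρ.r F ⊆ U
  p2 : ∀ F, Big ρ U F → ((obj ρ.r F).filter fun z => ∀ F' ∈ P, 2 < ds z F').card ≤ ρ.g * ρ.g
  p3 : ∀ A, High ρ U A → A ∈ P ∨ ∃ y1 a1 y2 a2, y1 ∈ lc ρ U A ∧ a1 ≠ y1 ∧
    ρ.good (fl (fl A y1) a1) ∧ fl (fl A y1) a1 ∈ P ∧ y2 ∈ gen ρ A ∧ y2 ≠ y1 ∧ y2 ≠ a1 ∧
    fl (fl A y2) a2 ∈ P

/-- sound answers -/
def SA (ρ : Root n) (U : Finset (Finset (Fin n))) (t : Finset (Fin n)) (α : Ans n) : Prop :=
  (∀ s, α = some (Sum.inl s) → ∀ v, decide (v ∈ t) ≠ s → ρ.good (fl t v) →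
    ¬ obj ρ.r (fl t v) ⊆ U) ∧ ∀ c, α = some (Sum.inr c) → obj ρ.r (fl t c) ⊆ U

/-- everything the encoder guarantees -/
structure Enc (κ : ℕ) (ρ : Root n) (U N' : Finset (Finset (Fin n))) (ω : Om n)
    (P T : Finset (Finset (Fin n))) : Prop where
  ax : Ax κ ρ U
  pay : Pay ρ U P
  c1 : ∀ F ∈ P, (ω F).1 = true
  c2 : ∀ F, (ω F).1 = true → ∀ x ∈ U, ds x F ≤ 10 → F ∈ P
  n1 : T ⊆ N'
  n2 : ∀ t ∈ N', ∀ x ∈ U, ds x t ≤ 2 → t ∈ T
  sub : T ⊆ U
  st : Stab T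
  sa : ∀ t ∈ T, SA ρ U t (ω t).2
  g2 : ∀ A, Low κ ρ U A →
    (∃ t ∈ T, ∃ c d, fl t c = A ∧ (ω t).2 = some (Sum.inr c) ∧ ¬ ρ.good (fl t d)) ∨
    ∃ y ∈ pl ρ U A, fl A y ∈ T ∧ (ω (fl A y)).2 = some (Sum.inl (decide (y ∈ fl A y)))
  g3 : ∀ A, Stuck κ ρ U A → ∃ z ∈ obj ρ.r A, ρ.good z ∧ ∃ A', Ln ρ.r A' ∧ ¬ ρ.good A' ∧
    obj ρ.r A' ⊆ U ∧ ∃ z' ∈ obj ρ.r A', ρ.good z' ∧ ds z' z ≤ 2 ∧ ∃ t ∈ T, t ∈ obj ρ.r A' ∧ ρ.good t

variable {ω : Om n}

theorem Enc.sound (h : Enc κ ρ U N' ω P T) : Closed κ ρ N' ω U where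
  r0 := h.ax.init_sub
  r1 t ht x hx hd := h.sub (h.n2 t ht x hx hd)
  r2 := h.ax.T2
  r3 F hF x hx hd := h.pay.p1 F (h.c2 F hF x hx hd)
  r5 x hx a b w hab hs hbw ha hg hn hw := by
    have hr := h.ax.pt x hx
    rcases h.ax.L1 x hx b w hbw hw with h1 | h1
    · rcases h.ax.L2 x hr a b hab hs ha h1 with h2 | h2
      · exact (obj_sub (ln_fl hr w) (by simp)).trans h2
      · refine absurd (le_trans (card_le_card fun z hz => ?_)
          (h.pay.p2 _ ⟨ev_fl hr a b, hg, h2⟩)) hn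
        exact mem_filter.2 ⟨(mem_filter.1 hz).1, fun F' hF' => (mem_filter.1 hz).2 F' (h.c1 F' hF')⟩
    · exact h1
  r6 t ht htU u v huv hω hg hv := by
    have hT := h.n2 t ht t htU (by simp)
    rcases h.ax.L1 t htU u v huv hv with h1 | h1
    · exact h1
    · refine absurd h1 ((h.sa t hT).1 _ hω v ?_ hg)
      have := (opp_iff (h.ax.pt t htU) huv).1 (h.ax.pt _ hv)
      simpa [eq_comm] using this
  r7 t ht htU c hω := (h.sa t (h.n2 t ht t htU (by simp))).2 c hω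

theorem Closed.pre (h : Closed κ ρ N' ω K) : Pre κ ρ K :=
  ⟨fun _ hr hg => h.r0 (mem_init.2 ⟨hr, Or.inl hg⟩), h.r2⟩

section complete

variable (h : Enc κ ρ U N' ω P T) (hK : Closed κ ρ N' ω K)
include h

theorem Enc.nsays (hx : x ∈ U) (hd : ds x F ≤ 2) (hF : Ev ρ.r F) (hg : ρ.good F)
    (hs : Says ρ ω F) : obj ρ.r F ⊆ U := by
  refine h.ax.pre.fill h.ax hF hg (le_trans (card_le_card fun z hz => ?_) hs)
  obtain ⟨h1, h2⟩ := mem_sdiff.1 hz
  refine mem_filter.2 ⟨h1, fun F' hF' => not_le.1 fun h3 => h2 ?_⟩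
  have h4 := ds_tri x F F'
  have h5 := ds_tri F z F'
  have h6 := (mem_obj.1 h1).2
  rw [ds_comm] at h6
  exact h.pay.p1 F' (h.c2 F' hF' x hx (by omega)) (mem_obj.2 ⟨(mem_obj.1 h1).1, h3⟩)

include hK

theorem Enc.hv (hz : Hv ρ U z) (hr : z.card = ρ.r) (hx : x ∈ K) (hd : ds x z ≤ 4) : z ∈ K := by
  obtain ⟨F, hF, h0⟩ := hz
  refine hK.pre.fill h.ax hF.1 hF.2.1 (le_trans (card_le_card fun w hw => ?_) (h.pay.p2 F hF))
    (mem_obj.2 ⟨hr, h0⟩)
  obtain ⟨h1, h2⟩ := mem_sdiff.1 hw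
  refine mem_filter.2 ⟨h1, fun F' hF' => not_le.1 fun h3 => h2 ?_⟩
  have h4 := ds_tri x z F'
  have h5 := ds_tri z F F'
  have h6 := ds_tri F w F'
  have h7 := (mem_obj.1 h1).2
  rw [ds_comm] at h7
  exact hK.r3 F' (h.c1 F' hF') x hx (by omega) (mem_obj.2 ⟨(mem_obj.1 h1).1, h3⟩)

theorem Enc.notlow (hA : FL ρ U A) (hl : ¬ Low κ ρ U A) (hx : x ∈ K) (hd : ds x A ≤ 3) :
    obj ρ.r A ⊆ K := by
  by_contra hcon
  have h1 : ρ.th κ < (obj ρ.r A \ K).card := not_le.1 fun hc => hcon (hK.pre.line h.ax hA.1 hA.2.1 hc)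
  have hd' : ∀ a, ds x (fl A a) ≤ 4 := fun a => by
    have := ds_tri x A (fl A a)
    rw [ds_fl'] at this
    omega
  have h2 := card_unk (K := K) (E := ρ.G ∪ (pl ρ U A ∪ lc ρ U A)) hA.1 fun a a1 a2 => by
    simp only [mem_union, not_or, mem_pl, mem_lc] at a2
    exact h.hv hK (by_contra fun hc => a2.2.2 ⟨⟨a1, a2.1⟩, hc, fun hp => a2.2.1 ⟨⟨a1, a2.1⟩, hp⟩⟩)
      a1 hx (hd' a)
  have h3 := card_union_le ρ.G (pl ρ U A ∪ lc ρ U A)
  have h4 := card_union_le (pl ρ U A) (lc ρ U A)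
  have h5 : (pl ρ U A).card < (κ + 64) * ρ.g := not_le.1 fun hc => hl ⟨hA, hc⟩
  have h6 := h.ax.hG
  have h7 : ρ.th κ = (κ + 64) * ρ.g + 3 * ρ.g := by unfold Root.th; ring
  rcases h.pay.p3 A ⟨hA, by omega⟩ with hP | ⟨y1, a1, y2, a2, b1, b2, b3, b4, b5, b6, b7, b8⟩
  · exact hcon (hK.r3 A (h.c1 A hP) x hx (by omega))
  obtain ⟨⟨c1, c2⟩, c3, -⟩ := mem_lc.1 b1
  obtain ⟨c4, c5⟩ := mem_gen.1 b5
  have hk : ∀ a b, fl (fl A a) b ∈ P → obj ρ.r (fl (fl A a) b) ⊆ K := fun a b hP => by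
    have := ds_tri x (fl A a) (fl (fl A a) b)
    have := hd' a
    rw [ds_fl'] at *
    exact hK.r3 _ (h.c1 _ hP) x hx (by omega)
  have hg1 : ρ.good (fl A y1) := (good_fl c2).2 hA.2.1
  have hs1 : ¬ (a1 ∈ fl A y1 ↔ y1 ∈ fl A y1) := fun hs => c3 (h.ax.two c1 hg1 b2 hs
    (h.pay.p1 _ b4) (by simpa using hA.2.2) ((good_fl c2).2 b3) (self_mem_obj c1 _))
  have hs2 : ¬ (y1 ∈ fl A y1 ↔ y2 ∈ fl A y1) := (opp_iff c1 b6.symm).1 (by simpa using c4)
  have hg2 : ρ.good (fl (fl (fl A y1) a1) y2) := (good_fl c5).2 b3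
  have := hK.r5 (fl A y1) (hk _ _ b4 (self_mem_obj c1 _)) a1 y2 y1 b7.symm (by tauto) b6
    (hk _ _ b4) hg2 (fun hs => c3 ⟨_, ⟨ev_fl c1 _ _, hg2, h.nsays (hA.2.2 (fl_mem_obj c1))
      (ds_fl2 _ _ _) (ev_fl c1 _ _) hg2 hs⟩, ds_fl2 _ _ _⟩)
    (by simpa using hk _ _ b8 (self_mem_obj c4 _))
  exact hcon (by simpa using this)

theorem Enc.thinT (ht : t ∈ T) (hA : Ln ρ.r A) (hg : ¬ ρ.good A) (htA : t ∈ obj ρ.r A) :
    t ∈ K := by
  obtain ⟨w, h1, h2⟩ := h.ax.bad_adj hA hg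
  exact hK.r1 t (h.n1 ht) w (hK.pre.T1 w (mem_obj.1 h1).1 h2) (ds_of_line hA h1 htA)

theorem Enc.low (hl : Low κ ρ U A) : obj ρ.r A ⊆ K ∨ ∃ y ∈ pl ρ U A, fl A y ∈ T ∧
    ∀ z ∈ obj ρ.r A, z ∈ K → ρ.good z → z ≠ fl A y → obj ρ.r A ⊆ K := by
  rcases h.g2 A hl with ⟨t, ht, c, d, rfl, h1, h2⟩ | ⟨y, hy, h1, h2⟩
  · have hr := h.ax.pt t (h.sub ht)
    exact Or.inl (hK.r7 t (h.n1 ht) (h.thinT hK ht (ln_fl hr d) h2 (self_mem_obj hr d)) c h1)
  · refine Or.inr ⟨y, hy, h1, fun z hz hzK hzg hne => ?_⟩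
    obtain ⟨⟨c1, c2⟩, -⟩ := mem_pl.1 hy
    have h3 := hK.r1 _ (h.n1 h1) z hzK (ds_of_line hl.1.1 hz (fl_mem_obj c1))
    obtain ⟨v, rfl⟩ := line_pt hl.1.1 hz
    have := hK.r6 _ (h.n1 h1) h3 y v (fun e => hne (by rw [e])) h2
      (by rwa [fl_comm, good_fl c2]) (by simpa using hzK)
    simpa using this

theorem Enc.grid (hA : FL ρ U A) (hd : ¬ ρ.good (fl A d)) : obj ρ.r A ⊆ K := by
  classical
  by_cases hl : Low κ ρ U A
  swap
  · obtain ⟨a, h1, h2⟩ := h.ax.ex_gen hA.1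
    obtain ⟨w, h3, h4⟩ := h.ax.bad_adj (ln_fl h1 d) (by rwa [fl_comm, good_fl h2])
    refine h.notlow hK hA hl (hK.pre.T1 w (mem_obj.1 h3).1 h4) ?_
    have h5 := ds_tri w (fl (fl A a) d) A
    have h6 := ds_fl2 A a d
    rw [ds_line (ln_fl h1 d) h3, ds_comm (fl _ d) A] at h5
    omega
  rcases h.low hK hl with h1 | ⟨y, hy, hT, -⟩
  · exact h1
  obtain ⟨⟨c1, c2⟩, -⟩ := mem_pl.1 hy
  have hg : ρ.good (fl A y) := (good_fl c2).2 hA.2.1
  have hb : ¬ ρ.good (fl (fl A y) d) := by rwa [fl_comm, good_fl c2]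
  have htK := h.thinT hK hT (ln_fl c1 d) hb (self_mem_obj c1 d)
  obtain ⟨z, hz, hne⟩ := exists_mem_ne (s := (obj ρ.r (fl (fl A y) d)).filter ρ.good)
    (lt_of_lt_of_le (by norm_num) (h.ax.T3 _ c1 hg d hb)) (fl A y)
  obtain ⟨z1, z2⟩ := mem_filter.1 hz
  have hzK := hK.pre.thin h.ax htK c1 hg hb z1
  have hzT : z ∉ T := fun hc =>
    hne (h.st z hc _ hT (ds_of_line (ln_fl c1 d) z1 (self_mem_obj c1 d)))
  have hzr := (mem_obj.1 z1).1
  obtain ⟨b, rfl⟩ := line_pt (ln_fl c1 d) z1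
  have hA' : FL ρ U (fl (fl (fl (fl A y) d) b) y) := ⟨ln_fl hzr y, (good_fl c2).2 z2,
    h.ax.pre.par h.ax c1 hg c2 (by simpa using hA.2.2) hb hzr z2⟩
  have hk : obj ρ.r (fl (fl (fl (fl A y) d) b) y) ⊆ K := by
    by_cases hl' : Low κ ρ U (fl (fl (fl (fl A y) d) b) y)
    · rcases h.low hK hl' with h1 | ⟨y', -, hT', h1⟩
      · exact h1
      · exact h1 _ (self_mem_obj hzr y) hzK z2 fun e => hzT (e ▸ hT')
    · exact h.notlow hK hA' hl' hzK (by simp)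
  have := hK.pre.par h.ax (d := b) (b := d) hzr z2 c2 hk (by simpa using hb) (by simpa using c1)
    (by simpa using hg)
  simpa using this

theorem Enc.kg (hy : y ∈ K) (hr : y.card = ρ.r) (hi : ¬ ρ.good y ∨ ∃ d, obj ρ.r (fl y d) ⊆ K ∧
    obj ρ.r (fl y d) ⊆ U) (hA : FL ρ U (fl y c)) : obj ρ.r (fl y c) ⊆ K := by
  by_cases hl : Low κ ρ U (fl y c)
  swap
  · exact h.notlow hK hA hl hy (by simp)
  by_cases hg : ρ.good y
  swap
  · exact h.grid hK (d := c) hA (by simpa using hg)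
  rcases h.low hK hl with h1 | ⟨u, hu, -, h1⟩
  · exact h1
  by_cases e : y = fl (fl y c) u
  swap
  · exact h1 y (self_mem_obj hr c) hy hg e
  obtain rfl : c = u := by
    apply fl_inj (A := fl y c)
    rw [fl_fl, ← e]
  obtain ⟨⟨-, c2⟩, c3⟩ := mem_pl.1 hu
  obtain ⟨d, d1, d2⟩ := hi.resolve_left (not_not.2 hg)
  by_cases e' : d = c
  · exact e' ▸ d1
  by_cases hb : ρ.good (fl y d)
  · exact absurd (by simpa using d2) (c3 d e' (by simpa using hb))
  · exact h.grid hK (d := d) hA (by rwa [fl_comm, good_fl c2])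

theorem Enc.thin (hA : Ln ρ.r A) (hg : ¬ ρ.good A) (hz : z ∈ obj ρ.r A) (hzK : z ∈ K)
    (hzg : ρ.good z) : obj ρ.r A ⊆ K := by
  obtain ⟨a, rfl⟩ := line_pt hA hz
  have := hK.pre.thin h.ax (d := a) hzK (mem_obj.1 hz).1 hzg (by simpa using hg)
  simpa using this

theorem Enc.kt (hA : Ln ρ.r A) (hg : ¬ ρ.good A) (hU : obj ρ.r A ⊆ U) : obj ρ.r A ⊆ K := by
  by_cases h1 : ∃ z ∈ obj ρ.r A, z ∈ K ∧ ρ.good z
  · obtain ⟨z, z1, z2, z3⟩ := h1
    exact h.thin hK hA hg z1 z2 z3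
  push Not at h1
  intro x hx
  by_cases hxg : ρ.good x
  swap
  · exact hK.pre.T1 x (mem_obj.1 hx).1 hxg
  exfalso
  obtain ⟨w, w1, w2⟩ := h.ax.bad_adj hA hg
  have wK := hK.pre.T1 w (mem_obj.1 w1).1 w2
  obtain ⟨z, z1, z2, A', a1, a2, a3, z', b1, b2, b3, t, ht, t1, t2⟩ := h.g3 A
    ⟨hA, hg, hU, ⟨x, hx, hxg⟩, fun z z1 z2 hres => h1 z z1 (by
      have hr := (mem_obj.1 z1).1
      have hd := ds_of_line hA w1 z1
      rcases hres with h2 | ⟨c, h2, h3 | ⟨d, h3⟩⟩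
      · exact h.hv hK h2 hr wK (by omega)
      · refine h.notlow hK h2 h3 wK ?_ (self_mem_obj hr c)
        have := ds_tri w z (fl z c)
        rw [ds_fl'] at this
        omega
      · exact h.grid hK h2 h3 (self_mem_obj hr c)) z2⟩
  have hA' := h.thin hK a1 a2 t1 (h.thinT hK ht a1 a2 t1) t2
  refine h1 z z1 ?_ z2
  by_cases e : z = z'
  · exact e ▸ hA' b1
  obtain ⟨a, b, -, rfl, h2⟩ := h.ax.join (a3 b1) (hU z1) b3 e
  have hr := (mem_obj.1 b1).1
  refine (?_ : obj ρ.r (fl z' a) ⊆ K) (fl_mem_obj (mem_obj.1 z1).1)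
  by_cases hb : ρ.good (fl z' a)
  · obtain ⟨c, rfl⟩ := line_pt a1 b1
    exact h.kg hK (hA' b1) hr (Or.inr ⟨c, by simpa using hA', by simpa using a3⟩)
      ⟨ln_fl hr a, hb, h2⟩
  · exact hK.pre.thin h.ax (hA' b1) hr b2 hb

theorem Enc.complete (hc : ∀ W, ρ.init ⊆ W → AdjCl U W → U ⊆ W) : U ⊆ K := by
  classical
  refine (hc (K.filter fun y => y ∈ U ∧ (¬ ρ.good y ∨ ∃ d, obj ρ.r (fl y d) ⊆ K ∧
    obj ρ.r (fl y d) ⊆ U)) (fun x hx => ?_) fun x hx y hy hd => ?_).trans (filter_subset _ _)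
  · refine mem_filter.2 ⟨hK.r0 hx, h.ax.init_sub hx, (mem_init.1 hx).2.imp id fun h1 => ?_⟩
    obtain ⟨d, hd⟩ := ev_line h.ax.F0e h.ax.n_pos (mem_obj.2 ⟨(mem_init.1 hx).1, h1⟩)
    exact ⟨d, fun z hz => hK.r0 (mem_init.2 ⟨(mem_obj.1 hz).1, Or.inr (mem_obj.1 (hd hz)).2⟩),
      hd.trans h.ax.F0⟩
  · by_cases e : y = x
    · exact e ▸ hx
    obtain ⟨x1, x2, x3⟩ := mem_filter.1 hx
    obtain ⟨a, b, -, rfl, h2⟩ := h.ax.join x2 hy hd e
    have hr := h.ax.pt x x2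
    have h3 : obj ρ.r (fl x a) ⊆ K := by
      by_cases hb : ρ.good (fl x a)
      · exact h.kg hK x1 hr x3 ⟨ln_fl hr a, hb, h2⟩
      · exact h.kt hK (ln_fl hr a) hb h2
    exact mem_filter.2 ⟨h3 (fl_mem_obj (h.ax.pt _ hy)), hy,
      Or.inr ⟨b, by simpa using h3, by simpa using h2⟩⟩

end complete

end Pool.Agent.Lib.MP_8860fd_co.J
end

-- part Pool.Agent.Lib.MP_8860fd_co.JPay
section

/-! The paid family is small. -/

namespace Pool.Agent.Lib.MP_8860fd_co.J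

open Finset

variable {n κ : ℕ} {ρ : Root n} {U : Finset (Finset (Fin n))} {A : Finset (Fin n)}

theorem cover {β γ : Type*} (D : Finset γ) (S : Finset β) (cov : β → γ → Prop) (μ : ℕ) :
    ∃ P ⊆ S, μ * P.card ≤ D.card ∧ ∀ F ∈ S, ∀ Z : Finset γ,
      (∀ z ∈ Z, z ∈ D ∧ cov F z ∧ ∀ F' ∈ P, ¬ cov F' z) → Z.card ≤ μ := by
  classical
  obtain ⟨P, hP, hmin⟩ := exists_min_image S.powerset
    (fun P => μ * P.card + (D.filter fun z => ∀ F' ∈ P, ¬ cov F' z).card) ⟨∅, by simp⟩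
  refine ⟨P, mem_powerset.1 hP, ?_, fun F hF Z hZ => ?_⟩
  · have := hmin ∅ (by simp)
    have h2 := card_filter_le D fun z => ∀ F' ∈ (∅ : Finset β), ¬ cov F' z
    simp only [card_empty, mul_zero, zero_add] at this
    omega
  · have h1 := hmin (insert F P) (mem_powerset.2 (insert_subset hF (mem_powerset.1 hP)))
    have h2 := Nat.mul_le_mul_left μ (card_insert_le F P)
    have h3 : Z.card + (D.filter fun z => ∀ F' ∈ insert F P, ¬ cov F' z).card ≤
        (D.filter fun z => ∀ F' ∈ P, ¬ cov F' z).card := by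
      rw [← card_union_of_disjoint (disjoint_left.2 fun z h1 h2 => by
        exact (mem_filter.1 h2).2 F (mem_insert_self _ _) (hZ z h1).2.1)]
      refine card_le_card fun z hz => ?_
      rcases mem_union.1 hz with h | h
      · exact mem_filter.2 ⟨(hZ z h).1, (hZ z h).2.2⟩
      · exact mem_filter.2 ⟨(mem_filter.1 h).1, fun F' hF' =>
          (mem_filter.1 h).2 F' (mem_insert_of_mem hF')⟩
    simp only [mul_add, mul_one] at h2
    omega

open Classical in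
/-- good full lines with a light point -/
noncomputable def LL (ρ : Root n) (U : Finset (Finset (Fin n))) : Finset (Finset (Fin n)) :=
  univ.filter fun B => FL ρ U B ∧ ∃ z ∈ obj ρ.r B, ¬ Hv ρ U z

theorem mem_LL : A ∈ LL ρ U ↔ FL ρ U A ∧ ∃ z ∈ obj ρ.r A, ¬ Hv ρ U z := by simp [LL]

theorem Ax.card_LL (h : Ax κ ρ U) : (LL ρ U).card * ρ.th κ ≤ U.card * 2 := by
  classical
  refine card_mul_le_card_mul (fun B x => ∃ y ∈ gen ρ B, x = fl B y) (fun B hB => ?_) fun x hx => ?_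
  · have h1 := (mem_LL.1 hB).1
    have h2 := h.card_gen h1.1
    have h3 := th_ge ρ κ
    refine le_trans (by omega) (card_le_card_of_injOn (s := gen ρ B) (fl B) (fun y hy => ?_)
      fun a _ b _ e => fl_inj e)
    exact mem_coe.2 ((mem_bipartiteAbove _).2 ⟨h1.2.2 (fl_mem_obj (mem_gen.1 hy).1), y, hy, rfl⟩)
  · refine le_trans (card_le_card_of_injOn (t := (univ : Finset Bool))
      (fun B => decide (ρ.r < B.card)) (fun _ _ => mem_coe.2 (mem_univ _)) ?_) (by simp)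
    intro B hB B' hB' e
    obtain ⟨b1, y, b2, b3⟩ := (mem_bipartiteBelow _).1 (mem_coe.1 hB)
    obtain ⟨c1, y', c2, c3⟩ := (mem_bipartiteBelow _).1 (mem_coe.1 hB')
    obtain rfl : B = fl x y := by rw [b3, fl_fl]
    obtain rfl : B' = fl x y' := by rw [c3, fl_fl]
    by_contra hne
    obtain ⟨b4, z, z1, z2⟩ := mem_LL.1 b1
    have hr := h.pt x hx
    refine z2 (h.two (b := y') hr ((good_fl (mem_gen.1 b2).2).1 b4.2.1) (fun e => hne (by rw [e]))
      ?_ b4.2.2 (mem_LL.1 c1).1.2.2 ((good_fl (mem_gen.1 c2).2).2 b4.2.1) z1)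
    have := card_fl x y
    have := card_fl x y'
    simp only [decide_eq_decide] at e
    grind

theorem Ax.dom (h : Ax κ ρ U) (ex : Finset (Fin n) → Finset (Fin n)) (hex : ∀ A, (ex A).card ≤ 2)
    {l : ℕ} (hl : l * l + 1 ≤ ρ.g) : ∃ P ⊆ LL ρ U, l * P.card ≤ 2 * (LL ρ U).card ∧
      ∀ A, High ρ U A → A ∈ P ∨ ∃ y ∈ lc ρ U A, y ∉ ex A ∧ ∃ a, a ≠ y ∧
        ρ.good (fl (fl A y) a) ∧ fl (fl A y) a ∈ P := by
  classical
  set D := univ.filter (High ρ U) with hD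
  have hDL : D ⊆ LL ρ U := fun A hA => by
    have h1 := (mem_filter.1 hA).2
    obtain ⟨y, hy⟩ := card_pos.1 (show 0 < (lc ρ U A).card by have := h1.2; omega)
    exact mem_LL.2 ⟨h1.1, _, fl_mem_obj (mem_lc.1 hy).1.1, (mem_lc.1 hy).2.1⟩
  set cov : Finset (Fin n) → Finset (Fin n) → Prop := fun B A => ∃ y ∈ lc ρ U A, y ∉ ex A ∧
    ∃ a, a ≠ y ∧ ρ.good (fl (fl A y) a) ∧ fl (fl A y) a = B with hcov
  obtain ⟨P, p1, p2, p3⟩ := cover D (LL ρ U) cov l
  set D' := D.filter fun A => ∀ B ∈ P, ¬ cov B A with hD'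
  have h1 : D'.card * (ρ.g - 1) ≤ (LL ρ U).card * l := by
    refine card_mul_le_card_mul (fun A B => cov B A) (fun A hA => ?_) fun B hB => ?_
    · have a1 := (mem_filter.1 (mem_filter.1 hA).1).2
      have a2 : (lc ρ U A \ ex A).card * 1 ≤
          ((LL ρ U).bipartiteAbove (fun A B => cov B A) A).card * 2 := by
        refine card_mul_le_card_mul (fun y B => ∃ a, a ≠ y ∧ fl (fl A y) a = B) (fun y hy => ?_)
          fun B hB => ?_
        · obtain ⟨y1, y2⟩ := mem_sdiff.1 hy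
          obtain ⟨⟨y3, -⟩, y4, y5⟩ := mem_lc.1 y1
          unfold Plain at y5
          push Not at y5
          obtain ⟨a, a3, a4, a5⟩ := y5
          refine card_pos.2 ⟨fl (fl A y) a, (mem_bipartiteAbove _).2 ⟨(mem_bipartiteAbove _).2
            ⟨mem_LL.2 ⟨⟨ln_fl y3 a, a4, a5⟩, _, self_mem_obj y3 a, y4⟩, y, y1, y2, a, a3, a4, rfl⟩,
            a, a3, rfl⟩⟩
        · obtain ⟨-, y, -, -, a, -, -, rfl⟩ := (mem_bipartiteAbove _).1 hB
          refine le_trans (card_le_card (t := symmDiff A (fl (fl A y) a)) fun w hw => ?_)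
            (ds_fl2 A y a)
          obtain ⟨-, b, b1, b2⟩ := (mem_bipartiteBelow _).1 hw
          rw [← b2, mem_symmDiff, mem_fl, mem_fl]
          grind
      have a3 := le_card_sdiff (ex A) (lc ρ U A)
      have := hex A
      have := a1.2
      omega
    · refine p3 B hB _ fun A hA => ?_
      obtain ⟨a1, a2⟩ := (mem_bipartiteBelow _).1 hA
      exact ⟨(mem_filter.1 a1).1, a2, (mem_filter.1 a1).2⟩
  refine ⟨P ∪ D', union_subset p1 ((filter_subset _ _).trans hDL), ?_, fun A hA => ?_⟩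
  · have a1 := card_le_card hDL
    have a2 := Nat.mul_le_mul_left l (card_union_le P D')
    have a3 : l * D'.card ≤ (LL ρ U).card := by
      rcases Nat.eq_zero_or_pos l with rfl | hl0
      · simp
      · refine Nat.le_of_mul_le_mul_right (le_trans ?_ h1) hl0
        calc l * D'.card * l = D'.card * (l * l) := by ring
          _ ≤ _ := Nat.mul_le_mul_left _ (by omega)
    rw [mul_add] at a2
    omega
  · by_cases hc : ∀ B ∈ P, ¬ cov B A
    · exact Or.inl (mem_union_right _ (mem_filter.2 ⟨mem_filter.2 ⟨mem_univ _, hA⟩, hc⟩))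
    · push Not at hc
      obtain ⟨B, hB, y, y1, y2, a, a1, a2, rfl⟩ := hc
      exact Or.inr ⟨y, y1, y2, a, a1, a2, mem_union_left _ hB⟩

theorem Ax.pay (h : Ax κ ρ U) {l : ℕ} (hl : l * l + 1 ≤ ρ.g) :
    ∃ P, Pay ρ U P ∧ l * ρ.g * P.card ≤ 2 * U.card := by
  classical
  obtain ⟨P0, p1, p2, p3⟩ := cover U (univ.filter (Big ρ U)) (fun F z => ds z F ≤ 2) (ρ.g * ρ.g)
  obtain ⟨P1, q1, q2, q3⟩ := h.dom (fun _ => ∅) (by simp) hl
  have key : ∀ A, ∃ y a, High ρ U A → A ∈ P1 ∨ (y ∈ lc ρ U A ∧ a ≠ y ∧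
      ρ.good (fl (fl A y) a) ∧ fl (fl A y) a ∈ P1) := fun A => by
    by_cases hA : High ρ U A
    · rcases q3 A hA with h1 | ⟨y, y1, -, a, h1⟩
      · exact ⟨⟨0, h.n_pos⟩, ⟨0, h.n_pos⟩, fun _ => Or.inl h1⟩
      · exact ⟨y, a, fun _ => Or.inr ⟨y1, h1⟩⟩
    · exact ⟨⟨0, h.n_pos⟩, ⟨0, h.n_pos⟩, fun hc => absurd hc hA⟩
  choose y a hya using key
  obtain ⟨P2, s1, s2, s3⟩ := h.dom (fun A => {y A, a A}) (fun A => card_le_two) hl
  refine ⟨P0 ∪ (P1 ∪ P2), ⟨fun F hF => ?_, fun F hF => ?_, fun A hA => ?_⟩, ?_⟩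
  · simp only [mem_union] at hF
    rcases hF with hF | hF | hF
    · exact (mem_filter.1 (p1 hF)).2.2.2
    · exact (mem_LL.1 (q1 hF)).1.2.2
    · exact (mem_LL.1 (s1 hF)).1.2.2
  · refine p3 F (mem_filter.2 ⟨mem_univ _, hF⟩) _ fun z hz => ?_
    obtain ⟨z1, z2⟩ := mem_filter.1 hz
    exact ⟨hF.2.2 z1, (mem_obj.1 z1).2, fun F' hF' =>
      not_le.2 (z2 F' (mem_union_left _ hF'))⟩
  · rcases hya A hA with h1 | ⟨a1, a2, a3, a4⟩
    · exact Or.inl (by simp [h1])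
    rcases s3 A hA with h1 | ⟨y2, b1, b2, c, -, -, b3⟩
    · exact Or.inl (by simp [h1])
    simp only [mem_insert, mem_singleton, not_or] at b2
    exact Or.inr ⟨_, _, y2, c, a1, a2, a3, by simp [a4], mem_gen.2 (mem_lc.1 b1).1, b2.1, b2.2,
      by simp [b3]⟩
  · have a1 := (card_union_le P0 (P1 ∪ P2)).trans (Nat.add_le_add_left (card_union_le P1 P2) _)
    have a2 := h.card_LL
    have a3 := Nat.mul_le_mul_left (LL ρ U).card (th_ge ρ κ)
    have a4 : l ≤ ρ.g := by nlinarith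
    have a5 := Nat.mul_le_mul_left ρ.g q2
    have a6 := Nat.mul_le_mul_left ρ.g s2
    have a7 := Nat.mul_le_mul_right (ρ.g * P0.card) a4
    have a8 := Nat.mul_le_mul_left (l * ρ.g) a1
    nlinarith

end Pool.Agent.Lib.MP_8860fd_co.J
end
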